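import Mathlib

/-!
# Arcs on a circle and the deletion lemmas (helper60)

The vertices are placed on a circle of length `n` by an injective map `e : V → ℕ` with values
below `n`.  `rk n e x v` is the clockwise distance from `x` to `v`, and `Fr n e x y v` says that
`v` lies in the open arc from `y` clockwise to `x`.
-/

set_option autoImplicit false
set_option linter.unusedSectionVars false

namespace Pool.Agent.LKC

open Finset
open scoped Classical

section arc

variable {V : Type*}

/-- The clockwise distance from `x` to `v`. -/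
def rk (n : ℕ) (e : V → ℕ) (x v : V) : ℕ := if e x ≤ e v then e v - e x else n + e v - e x

/-- `v` lies in the open arc from `y` clockwise to `x`. -/
def Fr (n : ℕ) (e : V → ℕ) (x y v : V) : Prop := rk n e x y < rk n e x v

variable {n : ℕ} {e : V → ℕ}

theorem rk_self (x : V) : rk n e x x = 0 := by simp [rk]

theorem rk_inj (he : Function.Injective e) (hn : ∀ v, e v < n) {x v v' : V}
    (h : rk n e x v = rk n e x v') : v = v' := by
  apply he
  have h1 := hn v
  have h2 := hn v'
  have h3 := hn x
  unfold rk at h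
  split_ifs at h <;> omega

theorem rk_pos (he : Function.Injective e) (hn : ∀ v, e v < n) {x v : V} (h : v ≠ x) :
    0 < rk n e x v := by
  rcases Nat.eq_zero_or_pos (rk n e x v) with h1 | h1
  · exact absurd (rk_inj he hn (by rw [h1, rk_self])) h
  · exact h1

theorem fr_iff (he : Function.Injective e) (hn : ∀ v, e v < n) {x y : V} (hxy : x ≠ y) (v : V) :
    Fr n e x y v ↔ 0 < rk n e y v ∧ rk n e y v < rk n e y x := by
  have h0 : e x ≠ e y := fun h => hxy (he h)
  have h1 := hn v
  have h2 := hn x
  have h3 := hn y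
  unfold Fr rk
  split_ifs <;> omega

theorem not_fr_right (x y : V) : ¬ Fr n e x y y := lt_irrefl _

theorem fr_trans_right {x y y' v : V} (h : Fr n e x y y') (h' : Fr n e x y' v) :
    Fr n e x y v := lt_trans h h'

theorem fr_trans_left (he : Function.Injective e) (hn : ∀ v, e v < n) {x y x' v : V}
    (hxy : x ≠ y) (h : Fr n e x y x') (h' : Fr n e x' y v) : Fr n e x y v := by
  have h1 := (fr_iff he hn hxy x').mp h
  have hx'y : x' ≠ y := by
    rintro rfl
    exact not_fr_right _ _ h
  have h2 := (fr_iff he hn hx'y v).mp h'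
  exact (fr_iff he hn hxy v).mpr ⟨h2.1, h2.2.trans h1.2⟩

end arc

section deletion

variable {V : Type*} [Fintype V] {n : ℕ} {e : V → ℕ}

/-- Pairs which satisfy `P` but not `Q`. -/
noncomputable def bad (P Q : V → V → Prop) : ℕ :=
  (univ.filter fun p : V × V => P p.1 p.2 ∧ ¬ Q p.1 p.2).card

theorem bad_mono {P Q Q' : V → V → Prop} (h : ∀ x y, P x y → Q x y → Q' x y) :
    bad P Q' ≤ bad P Q := by
  unfold bad
  apply Finset.card_le_card
  intro p hp
  rw [Finset.mem_filter] at hp ⊢
  exact ⟨hp.1, hp.2.1, fun hq => hp.2.2 (h _ _ hp.2.1 hq)⟩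

/-- Counting pairs by the second coordinate. -/
theorem card_le_right (F : Finset (V × V)) (N : V → ℕ)
    (h : ∀ y, (univ.filter fun x => (x, y) ∈ F).card ≤ N y) : F.card ≤ ∑ y, N y := by
  have h1 : F.card = ∑ y : V, (univ.filter fun x => (x, y) ∈ F).card := by
    have h2 : F = univ.filter fun p : V × V => p ∈ F := by
      ext p
      simp
    calc F.card = (univ.filter fun p : V × V => p ∈ F).card := by rw [← h2]
      _ = _ := by
        rw [Finset.card_filter, Fintype.sum_prod_type_right]
        apply Finset.sum_congr rfl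
        intro y _
        rw [Finset.card_filter]
  rw [h1]
  exact Finset.sum_le_sum fun y _ => h y

/-- The number of pairs, by the first coordinate. -/
theorem card_eq_left (F : Finset (V × V)) :
    F.card = ∑ x : V, (univ.filter fun y => (x, y) ∈ F).card := by
  have h2 : F = univ.filter fun p : V × V => p ∈ F := by
    ext p
    simp
  calc F.card = (univ.filter fun p : V × V => p ∈ F).card := by rw [← h2]
    _ = _ := by
      rw [Finset.card_filter, Fintype.sum_prod_type]
      apply Finset.sum_congr rfl
      intro y _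
      rw [Finset.card_filter]

theorem bad_le {P Q Q' : V → V → Prop} (N : ℕ)
    (h : (univ.filter fun p : V × V => Q p.1 p.2 ∧ ¬ Q' p.1 p.2).card ≤ N) :
    bad P Q' ≤ bad P Q + N := by
  unfold bad
  calc (univ.filter fun p : V × V => P p.1 p.2 ∧ ¬ Q' p.1 p.2).card
      ≤ ((univ.filter fun p : V × V => P p.1 p.2 ∧ ¬ Q p.1 p.2) ∪
          (univ.filter fun p : V × V => Q p.1 p.2 ∧ ¬ Q' p.1 p.2)).card := by
        apply Finset.card_le_card
        intro p hp
        rw [Finset.mem_filter] at hp
        rw [Finset.mem_union, Finset.mem_filter, Finset.mem_filter]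
        by_cases hq : Q p.1 p.2
        · exact Or.inr ⟨Finset.mem_univ _, hq, hp.2.2⟩
        · exact Or.inl ⟨Finset.mem_univ _, hp.2.1, hq⟩
    _ ≤ _ := (Finset.card_union_le _ _).trans (by omega)

/-- A move of the second coordinate loses at most one pair for each `x`. -/
theorem del_right (he : Function.Injective e) (hn : ∀ v, e v < n) {P Q Q' : V → V → Prop}
    {L : Finset V} (hL : ∀ x y, P x y → x ∈ L) (hQ : ∀ x y, Q x y → P x y)
    (hQ' : ∀ x y y', P x y → Fr n e x y y' → Q x y' → Q' x y) :
    bad P Q' ≤ bad P Q + L.card := by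
  apply bad_le
  apply Finset.card_le_card_of_injOn (fun p : V × V => p.1)
  · intro p hp
    rw [Finset.coe_filter] at hp
    exact hL _ _ (hQ _ _ hp.2.1)
  · intro p hp q hq hpq
    rw [Finset.coe_filter] at hp hq
    obtain ⟨x, y⟩ := p
    obtain ⟨x', y'⟩ := q
    simp only at hpq
    subst hpq
    have h1 : ¬ Fr n e x y y' := fun h => hp.2.2 (hQ' _ _ _ (hQ _ _ hp.2.1) h hq.2.1)
    have h2 : ¬ Fr n e x y' y := fun h => hq.2.2 (hQ' _ _ _ (hQ _ _ hq.2.1) h hp.2.1)
    unfold Fr at h1 h2
    have h3 : y = y' := rk_inj he hn (le_antisymm (not_lt.mp h2) (not_lt.mp h1))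
    rw [h3]

/-- A finite set with at least `c + 2` elements has `c` elements strictly between its extreme
elements. -/
theorem exists_between {κ : V → ℕ} (hκ : Function.Injective κ) {F : Finset V} {c : ℕ}
    (h : c + 2 ≤ F.card) :
    ∃ a ∈ F, ∃ b ∈ F, κ a < κ b ∧ c ≤ (F.filter fun v => κ a < κ v ∧ κ v < κ b).card := by
  have hne : F.Nonempty := by
    rw [← Finset.card_pos]
    omega
  obtain ⟨a, ha, hamin⟩ := Finset.exists_min_image F κ hne
  obtain ⟨b, hb, hbmax⟩ := Finset.exists_max_image F κ hne
  have hsub : (F.erase a).erase b ⊆ F.filter fun v => κ a < κ v ∧ κ v < κ b := by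
    intro v hv
    rw [Finset.mem_erase, Finset.mem_erase] at hv
    obtain ⟨h1, h2, h3⟩ := hv
    rw [Finset.mem_filter]
    refine ⟨h3, lt_of_le_of_ne (hamin v h3) (fun h => h2 (hκ h).symm),
      lt_of_le_of_ne (hbmax v h3) (fun h => h1 (hκ h))⟩
  have hcard : c ≤ ((F.erase a).erase b).card := by
    have h1 := Finset.pred_card_le_card_erase (s := F.erase a) (a := b)
    have h2 := Finset.pred_card_le_card_erase (s := F) (a := a)
    omega
  refine ⟨a, ha, b, hb, ?_, hcard.trans (Finset.card_le_card hsub)⟩
  refine lt_of_le_of_ne (hamin b hb) ?_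
  intro h
  have hab : a = b := hκ h
  have h1 : F ⊆ {a} := by
    intro v hv
    rw [Finset.mem_singleton]
    have h2 := hamin v hv
    have h3 := hbmax v hv
    rw [← hab] at h3
    exact hκ (le_antisymm h3 h2)
  have h2 := Finset.card_le_card h1
  rw [Finset.card_singleton] at h2
  omega

/-- The elements of a finite set other than its largest one lie below it. -/
theorem exists_below {κ : V → ℕ} (hκ : Function.Injective κ) {F : Finset V} {c : ℕ}
    (h : c + 1 ≤ F.card) : ∃ b ∈ F, c ≤ (F.filter fun v => κ v < κ b).card := by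
  have hne : F.Nonempty := by
    rw [← Finset.card_pos]
    omega
  obtain ⟨b, hb, hbmax⟩ := Finset.exists_max_image F κ hne
  have hsub : F.erase b ⊆ F.filter fun v => κ v < κ b := by
    intro v hv
    rw [Finset.mem_erase] at hv
    rw [Finset.mem_filter]
    exact ⟨hv.2, lt_of_le_of_ne (hbmax v hv.2) (fun h => hv.1 (hκ h))⟩
  have h2 := Finset.card_erase_of_mem hb
  exact ⟨b, hb, by have := Finset.card_le_card hsub; omega⟩

theorem exists_above {κ : V → ℕ} (hκ : Function.Injective κ) {F : Finset V} {c : ℕ}
    (h : c + 1 ≤ F.card) : ∃ b ∈ F, c ≤ (F.filter fun v => κ b < κ v).card := by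
  have hne : F.Nonempty := by
    rw [← Finset.card_pos]
    omega
  obtain ⟨b, hb, hbmin⟩ := Finset.exists_min_image F κ hne
  have hsub : F.erase b ⊆ F.filter fun v => κ b < κ v := by
    intro v hv
    rw [Finset.mem_erase] at hv
    rw [Finset.mem_filter]
    exact ⟨hv.2, lt_of_le_of_ne (hbmin v hv.2) (fun h => hv.1 (hκ h).symm)⟩
  have h2 := Finset.card_erase_of_mem hb
  exact ⟨b, hb, by have := Finset.card_le_card hsub; omega⟩

/-- A move of the first coordinate which skips `c y` neighbours loses at most `c y + 1` pairs for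
each `y`. -/
theorem del_left (he : Function.Injective e) (hn : ∀ v, e v < n) {P Q Q' : V → V → Prop}
    (hP : ∀ x y, P x y → x ≠ y) (hQ : ∀ x y, Q x y → P x y) (c : V → ℕ)
    (hQ' : ∀ x y x', P x y → Fr n e x y x' → Q x' y →
      c y ≤ (univ.filter fun v => P v y ∧ Fr n e x y v ∧ rk n e y x' < rk n e y v).card →
      Q' x y) :
    bad P Q' ≤ bad P Q + ∑ y, (c y + 1) := by
  apply bad_le
  apply card_le_right
  intro y
  by_contra hcon
  rw [not_le] at hcon
  obtain ⟨a, ha, b, hb, hab, hcard⟩ := exists_between (κ := fun v => rk n e y v)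
    (fun v v' h => rk_inj he hn h) (c := c y) (Nat.succ_le_of_lt hcon)
  rw [Finset.mem_filter, Finset.mem_filter] at ha hb
  replace ha := And.intro ha.1 ha.2.2
  replace hb := And.intro hb.1 hb.2.2
  apply hb.2.2
  have hay : a ≠ y := hP _ _ (hQ _ _ ha.2.1)
  have hby : b ≠ y := hP _ _ (hQ _ _ hb.2.1)
  refine hQ' b y a (hQ _ _ hb.2.1) ((fr_iff he hn hby a).mpr ⟨rk_pos he hn hay, hab⟩) ha.2.1
    (hcard.trans ?_)
  apply Finset.card_le_card
  intro v hv
  rw [Finset.mem_filter, Finset.mem_filter, Finset.mem_filter] at hv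
  rw [Finset.mem_filter]
  refine ⟨Finset.mem_univ _, hQ _ _ hv.1.2.2.1, ?_, hv.2.1⟩
  rw [fr_iff he hn hby]
  exact ⟨lt_of_le_of_lt (Nat.zero_le _) hv.2.1, hv.2.2⟩

/-- The pairs without `c y` common candidates in the free arc. -/
theorem del_end (he : Function.Injective e) (hn : ∀ v, e v < n) {P Q' : V → V → Prop}
    (hP : ∀ x y, P x y → x ≠ y) (c : V → ℕ)
    (hQ' : ∀ x y, P x y → c y ≤ (univ.filter fun v => P v y ∧ Fr n e x y v).card → Q' x y) :
    bad P Q' ≤ ∑ y, c y := by
  unfold bad
  apply card_le_right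
  intro y
  by_contra hcon
  rw [not_le] at hcon
  obtain ⟨b, hb, hcard⟩ := exists_below (κ := fun v => rk n e y v)
    (fun v v' h => rk_inj he hn h) (c := c y) (Nat.succ_le_of_lt hcon)
  rw [Finset.mem_filter, Finset.mem_filter] at hb
  replace hb := And.intro hb.1 hb.2.2
  apply hb.2.2
  have hby : b ≠ y := hP _ _ hb.2.1
  refine hQ' b y hb.2.1 (hcard.trans ?_)
  apply Finset.card_le_card
  intro v hv
  rw [Finset.mem_filter, Finset.mem_filter, Finset.mem_filter] at hv
  rw [Finset.mem_filter]
  refine ⟨Finset.mem_univ _, hv.1.2.2.1, ?_⟩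
  rw [fr_iff he hn hby]
  exact ⟨rk_pos he hn (hP _ _ hv.1.2.2.1), hv.2⟩

/-- The start: a pair with `c y` further candidates behind it. -/
theorem exists_start (he : Function.Injective e) (hn : ∀ v, e v < n) {P Q : V → V → Prop}
    (hQ : ∀ x y, Q x y → P x y) (c : V → ℕ)
    (h : bad P Q + ∑ y, c y < (univ.filter fun p : V × V => P p.1 p.2).card) :
    ∃ x y, Q x y ∧ c y ≤ (univ.filter fun v => P v y ∧ rk n e y x < rk n e y v).card := by
  by_contra hcon
  push Not at hcon
  have h1 : (univ.filter fun p : V × V => Q p.1 p.2).card ≤ ∑ y, c y := by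
    apply card_le_right
    intro y
    by_contra hcon'
    rw [not_le] at hcon'
    have hcon2 : c y < (univ.filter fun x : V => Q x y).card := by
      refine lt_of_lt_of_le hcon' (Finset.card_le_card ?_)
      intro x hx
      rw [Finset.mem_filter, Finset.mem_filter] at hx
      rw [Finset.mem_filter]
      exact ⟨hx.1, hx.2.2⟩
    obtain ⟨b, hb, hcard⟩ := exists_above (κ := fun v => rk n e y v)
      (fun v v' h => rk_inj he hn h) (F := univ.filter fun x : V => Q x y) (c := c y)
      (by omega)
    rw [Finset.mem_filter] at hb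
    have h2 := hcon b y hb.2
    have h3 : (((univ : Finset V).filter fun x => Q x y).filter
        fun v => rk n e y b < rk n e y v).card ≤
        (univ.filter fun v => P v y ∧ rk n e y b < rk n e y v).card := by
      apply Finset.card_le_card
      intro v hv
      rw [Finset.mem_filter, Finset.mem_filter] at hv
      rw [Finset.mem_filter]
      exact ⟨Finset.mem_univ _, hQ _ _ hv.1.2, hv.2⟩
    omega
  have h2 : (univ.filter fun p : V × V => P p.1 p.2).card ≤
      bad P Q + (univ.filter fun p : V × V => Q p.1 p.2).card := by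
    unfold bad
    refine le_trans ?_ (Finset.card_union_le _ _)
    apply Finset.card_le_card
    intro p hp
    rw [Finset.mem_filter] at hp
    rw [Finset.mem_union, Finset.mem_filter, Finset.mem_filter]
    by_cases hq : Q p.1 p.2
    · exact Or.inr ⟨Finset.mem_univ _, hq⟩
    · exact Or.inl ⟨Finset.mem_univ _, hp.2, hq⟩
  omega

end deletion

end Pool.Agent.LKC
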