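import Mathlib

/-!
# Adding leaves greedily (helper60)
-/

set_option autoImplicit false
set_option linter.unusedSectionVars false

namespace Pool.Agent.LKC

open Finset
open scoped Classical

variable {V W : Type*} [Fintype V] [Fintype W]

/-- A partial embedding of a tree with `k + 1` vertices extends to the remaining vertices, if each
of them has only one neighbour and that neighbour is placed at a vertex of degree at least `k`. -/
theorem extend (G : SimpleGraph V) (T : SimpleGraph W) {k : ℕ} (hW : Fintype.card W = k + 1)
    (L : Finset V) (hL : ∀ x ∈ L, k ≤ G.degree x) :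
    ∀ (t : ℕ) (D : Finset W) (g : W → V), (univ \ D).card = t → Set.InjOn g D →
      (∀ u ∈ D, ∀ v ∈ D, T.Adj u v → G.Adj (g u) (g v)) →
      (∀ v, v ∉ D → ∃ u ∈ D, g u ∈ L ∧ ∀ z, T.Adj v z → z = u) →
      ∃ f : W → V, Function.Injective f ∧ ∀ u v, T.Adj u v → G.Adj (f u) (f v) := by
  intro t
  induction t with
  | zero =>
    intro D g hD hinj hadj _
    have h1 : ∀ v, v ∈ D := by
      intro v
      by_contra h
      have h2 : v ∈ univ \ D := Finset.mem_sdiff.mpr ⟨Finset.mem_univ _, h⟩
      rw [Finset.card_eq_zero.mp hD] at h2
      exact absurd h2 (Finset.notMem_empty _)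
    exact ⟨g, fun a b hab => hinj (h1 a) (h1 b) hab, fun u v h => hadj u (h1 u) v (h1 v) h⟩
  | succ t ih =>
    intro D g hD hinj hadj hleaf
    have hne : (univ \ D).Nonempty := by
      rw [← Finset.card_pos]
      omega
    obtain ⟨v, hv⟩ := hne
    have hvD : v ∉ D := (Finset.mem_sdiff.mp hv).2
    obtain ⟨u, huD, huL, hu⟩ := hleaf v hvD
    have hDk : D.card ≤ k := by
      have h1 : D ⊂ univ := by
        rw [Finset.ssubset_univ_iff]
        rintro rfl
        exact hvD (Finset.mem_univ _)
      have h2 := Finset.card_lt_card h1
      rw [Finset.card_univ, hW] at h2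
      omega
    obtain ⟨z, hz, hzD⟩ : ∃ z ∈ G.neighborFinset (g u), z ∉ D.image g := by
      by_contra hcon
      push Not at hcon
      have h1 : G.neighborFinset (g u) ⊆ (D.image g).erase (g u) := by
        intro z hz
        rw [Finset.mem_erase]
        refine ⟨?_, hcon z hz⟩
        rintro rfl
        rw [SimpleGraph.mem_neighborFinset] at hz
        exact G.loopless.irrefl _ hz
      have h2 := Finset.card_le_card h1
      rw [SimpleGraph.card_neighborFinset_eq_degree,
        Finset.card_erase_of_mem (Finset.mem_image_of_mem g huD)] at h2
      have h3 : (D.image g).card ≤ D.card := Finset.card_image_le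
      have h4 := hL _ huL
      have h5 : 0 < (D.image g).card := Finset.card_pos.mpr ⟨_, Finset.mem_image_of_mem g huD⟩
      omega
    have hzadj : G.Adj (g u) z := by rwa [SimpleGraph.mem_neighborFinset] at hz
    have hupd : ∀ a ∈ D, Function.update g v z a = g a := by
      intro a ha
      apply Function.update_of_ne
      rintro rfl
      exact hvD ha
    have hupv : Function.update g v z v = z := Function.update_self _ _ _
    apply ih (insert v D) (Function.update g v z)
    · have h1 : univ \ insert v D = (univ \ D).erase v := by
        ext a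
        simp only [Finset.mem_sdiff, Finset.mem_insert, Finset.mem_erase, Finset.mem_univ,
          true_and, not_or]
      rw [h1, Finset.card_erase_of_mem hv, hD]
      omega
    · intro a ha b hb hab
      rcases Finset.mem_insert.mp (Finset.mem_coe.mp ha) with rfl | ha' <;>
        rcases Finset.mem_insert.mp (Finset.mem_coe.mp hb) with rfl | hb'
      · rfl
      · exfalso
        rw [hupv, hupd b hb'] at hab
        exact hzD (hab ▸ Finset.mem_image_of_mem g hb')
      · exfalso
        rw [hupv, hupd a ha'] at hab
        exact hzD (hab ▸ Finset.mem_image_of_mem g ha')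
      · rw [hupd a ha', hupd b hb'] at hab
        exact hinj ha' hb' hab
    · intro a ha b hb hab
      rcases Finset.mem_insert.mp ha with rfl | ha' <;>
        rcases Finset.mem_insert.mp hb with rfl | hb'
      · exact absurd hab (T.loopless.irrefl _)
      · rw [hupv, hupd b hb', hu b hab]
        exact hzadj.symm
      · rw [hupv, hupd a ha', hu a hab.symm]
        exact hzadj
      · rw [hupd a ha', hupd b hb']
        exact hadj a ha' b hb' hab
    · intro v' hv'
      rw [Finset.mem_insert, not_or] at hv'
      obtain ⟨u', hu'D, hu'L, hu'⟩ := hleaf v' hv'.2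
      exact ⟨u', Finset.mem_insert_of_mem hu'D, by rw [hupd u' hu'D]; exact hu'L, hu'⟩

end Pool.Agent.LKC
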