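import Pool.Agent.LKC.TreeS
import Pool.Agent.LKC.Ext

/-!
# Embedding trees whose non-leaves outside a colour class lie on a path (helper60)
-/

set_option autoImplicit false
set_option linter.unusedSectionVars false

namespace Pool.Agent.LKC

open Finset
open scoped Classical
open Pool.Agent.LKS (exists_closer closer_unique)

variable {V W : Type*} [Fintype V] [Fintype W]

/-- The number of vertices of degree at least two. -/
noncomputable def nonleaves (T : SimpleGraph W) : ℕ :=
  (univ.filter fun v : W => 2 ≤ T.degree v).card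

theorem leaf_nbr {T : SimpleGraph W} {v u z : W} (hv : ¬ 2 ≤ T.degree v) (hu : T.Adj v u)
    (hz : T.Adj v z) : z = u := by
  by_contra h
  exact hv (two_le_degree hu hz (fun h' => h h'.symm))

/-- The pairs with first vertex in `L`. -/
theorem card_Pr (G : SimpleGraph V) (L : Finset V) {k : ℕ} (hL : ∀ x ∈ L, k ≤ G.degree x) :
    k * L.card ≤ (univ.filter fun p : V × V => Pr G L p.1 p.2).card := by
  rw [card_eq_left]
  calc k * L.card = ∑ x ∈ L, k := by rw [Finset.sum_const, smul_eq_mul, mul_comm]
    _ ≤ ∑ x ∈ L, G.degree x := Finset.sum_le_sum hL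
    _ ≤ ∑ x ∈ L, (univ.filter fun y => (x, y) ∈
          (univ.filter fun p : V × V => Pr G L p.1 p.2)).card := by
        apply Finset.sum_le_sum
        intro x hx
        rw [← SimpleGraph.card_neighborFinset_eq_degree]
        apply Finset.card_le_card
        intro y hy
        rw [SimpleGraph.mem_neighborFinset] at hy
        rw [Finset.mem_filter, Finset.mem_filter]
        exact ⟨Finset.mem_univ _, Finset.mem_univ _, hx, hy⟩
    _ ≤ _ := by
        apply Finset.sum_le_sum_of_subset
        exact Finset.subset_univ _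

variable {G : SimpleGraph V} {T : SimpleGraph W}

/-- The total number of labels. -/
theorem sum_lab {w c : ℕ → W} {Lab : ℕ → V → Finset W} {m : ℕ} {ix : W → ℕ}
    (hl : Lbl w c Lab m ix) (y : V) (A₀ : Finset W)
    (h1 : ∀ j, j < m → Lab j y ⊆ A₀) (h2 : ∀ j, j + 1 < m → c j ∈ A₀) :
    ∑ j ∈ range m, (Lab j y).card + (m - 1) ≤ A₀.card := by
  have h3 : ((range m).biUnion fun j => Lab j y).card = ∑ j ∈ range m, (Lab j y).card := by
    apply Finset.card_biUnion
    intro i hi j hj hij
    have hi' : i < m := Finset.mem_range.mp hi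
    have hj' : j < m := Finset.mem_range.mp hj
    show Disjoint (Lab i y) (Lab j y)
    rw [Finset.disjoint_left]
    intro z hz hz'
    exact hij ((hl.il i hi' y z hz).symm.trans (hl.il j hj' y z hz'))
  have h4 : ((range (m - 1)).image c).card = m - 1 := by
    rw [Finset.card_image_of_injOn, Finset.card_range]
    intro i hi j hj hij
    have hi' : i < m - 1 := Finset.mem_range.mp (Finset.mem_coe.mp hi)
    have hj' : j < m - 1 := Finset.mem_range.mp (Finset.mem_coe.mp hj)
    rw [← hl.ic i (by omega), ← hl.ic j (by omega), hij]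
  have h5 : Disjoint ((range m).biUnion fun j => Lab j y) ((range (m - 1)).image c) := by
    rw [Finset.disjoint_left]
    intro z hz hz'
    rw [Finset.mem_biUnion] at hz
    rw [Finset.mem_image] at hz'
    obtain ⟨i, hi, hzi⟩ := hz
    obtain ⟨j, hj, rfl⟩ := hz'
    rw [Finset.mem_range] at hi hj
    have h6 : j = i := (hl.ic j (by omega)).symm.trans (hl.il i hi y _ hzi)
    subst h6
    exact hl.cl j (by omega) y hzi
  rw [← h3, ← h4, ← Finset.card_union_of_disjoint h5]
  apply Finset.card_le_card
  intro z hz
  rcases Finset.mem_union.mp hz with hz | hz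
  · rw [Finset.mem_biUnion] at hz
    obtain ⟨i, hi, hzi⟩ := hz
    exact h1 i (Finset.mem_range.mp hi) hzi
  · rw [Finset.mem_image] at hz
    obtain ⟨j, hj, rfl⟩ := hz
    rw [Finset.mem_range] at hj
    exact h2 j (by omega)

/-- The main embedding theorem. -/
theorem main_cat (hT : T.IsTree) {k : ℕ} (hW : Fintype.card W = k + 1) {A : Finset W}
    (hA : ∀ a b, T.Adj a b → (a ∈ A ↔ b ∉ A))
    (hpath : ∃ (a b : W) (p : T.Walk a b), p.IsPath ∧ ∀ z, z ∉ A → 2 ≤ T.degree z →
      z ∈ p.support)
    (L : Finset V) (hL : ∀ x ∈ L, k ≤ G.degree x) (hne : L.Nonempty)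
    (hcount : (nonleaves T - 2) * L.card + (A.card - 1) * (univ \ L).card < k * L.card) :
    ∃ f : W → V, Function.Injective f ∧ ∀ u v, T.Adj u v → G.Adj (f u) (f v) := by
  -- positions on a circle
  set n := Fintype.card V with hn_def
  set e : V → ℕ := fun v => (Fintype.equivFin V v : ℕ) with he_def
  have he : Function.Injective e := by
    intro a b hab
    exact (Fintype.equivFin V).injective (Fin.ext hab)
  have hn : ∀ v, e v < n := fun v => (Fintype.equivFin V v).2
  by_cases hB : (Bp T A).Nonempty
  swap
  · -- a star with its centre in `A`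
    rw [Finset.not_nonempty_iff_eq_empty] at hB
    obtain ⟨x, hx⟩ := hne
    have hleafB : ∀ v, v ∉ A → ¬ 2 ≤ T.degree v := by
      intro v hv h
      have : v ∈ Bp T A := mem_Bp.mpr ⟨hv, h⟩
      rw [hB] at this
      exact absurd this (Finset.notMem_empty _)
    by_cases hAne : A.Nonempty
    · obtain ⟨z, hz⟩ := hAne
      -- all other vertices are leaves adjacent to `z`
      have hall : ∀ v, v ≠ z → T.Adj v z ∧ ∀ u, T.Adj v u → u = z := by
        intro v hv
        obtain ⟨b, hvb, hb⟩ := exists_closer hT z hv
        by_cases hvA : v ∈ A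
        · exfalso
          have hbA : b ∉ A := (hA v b hvb).mp hvA
          have hbz : b ≠ z := fun h => hbA (h ▸ hz)
          obtain ⟨b', hbb', hb'⟩ := exists_closer hT z hbz
          exact hleafB b hbA (two_le_degree hvb.symm hbb' (by rintro rfl; omega))
        · have h1 : b = z := by
            by_contra hbz
            obtain ⟨b', hbb', hb'⟩ := exists_closer hT z hbz
            have hbA : b ∈ A := by
              by_contra h
              exact hvA ((hA v b hvb).mpr h)
            have hb'A : b' ∉ A := (hA b b' hbb').mp hbA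
            have hb'z : b' ≠ z := fun h => hb'A (h ▸ hz)
            obtain ⟨b'', hbb'', hb''⟩ := exists_closer hT z hb'z
            exact hleafB b' hb'A (two_le_degree hbb'.symm hbb'' (by rintro rfl; omega))
          rw [h1] at hvb
          exact ⟨hvb, fun u hu => leaf_nbr (hleafB v hvA) hvb hu⟩
      apply extend G T hW L hL _ {z} (fun _ => x) rfl
      · intro a ha b hb _
        rw [Finset.coe_singleton, Set.mem_singleton_iff] at ha hb
        rw [ha, hb]
      · intro u hu v hv huv
        rw [Finset.mem_singleton] at hu hv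
        rw [hu, hv] at huv
        exact absurd huv (T.loopless.irrefl _)
      · intro v hv
        rw [Finset.mem_singleton] at hv
        exact ⟨z, Finset.mem_singleton_self z, hx, (hall v hv).2⟩
    · -- a single vertex
      rw [Finset.not_nonempty_iff_eq_empty] at hAne
      have hno : ∀ a b, ¬ T.Adj a b := by
        intro a b hab
        have := hA a b hab
        rw [hAne] at this
        simp at this
      have hsub : ∀ a b : W, a = b := by
        intro a b
        by_contra hab
        obtain ⟨z, hz, -⟩ := exists_closer hT b hab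
        exact hno _ _ hz
      exact ⟨fun _ => x, fun a b _ => hsub a b, fun u v huv => absurd huv (hno u v)⟩
  -- the general case
  obtain ⟨r, hr, hD⟩ := exists_root hT hB hpath
  obtain ⟨w, c, hw, hbw, hc⟩ := exists_blocks hA hT hr hD
  set m := (Bp T A).card with hm_def
  have hm1 : 1 ≤ m := Finset.card_pos.mpr hB
  have hrA : r ∉ A := (mem_Bp.mp hr).1
  have hwA : ∀ i, i < m → w i ∉ A := fun i hi => (mem_Bp.mp (hw i hi).1).1
  -- facts on vertices of `A`
  have hAfact : ∀ z ∈ A, T.dist r z / 2 < m ∧ T.Adj z (w (T.dist r z / 2)) ∧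
      T.dist r z = 2 * (T.dist r z / 2) + 1 := by
    intro z hz
    obtain ⟨b, hb, hzb, hd⟩ := parent_A hA hT hr hz
    obtain ⟨i, hi, hbi⟩ := hbw b hb
    have h1 := (hw i hi).2
    rw [hbi] at hd hzb
    have h2 : T.dist r z / 2 = i := by omega
    rw [h2]
    exact ⟨hi, hzb, by omega⟩
  set Lab : ℕ → V → Finset W := fun j y => univ.filter fun z => z ∈ A ∧
    T.dist r z = 2 * j + 1 ∧ (j + 1 < m → z ≠ c j) ∧ (2 ≤ T.degree z ∨ y ∉ L) with hLab
  have hmemLab : ∀ j y z, z ∈ Lab j y ↔ z ∈ A ∧ T.dist r z = 2 * j + 1 ∧
      (j + 1 < m → z ≠ c j) ∧ (2 ≤ T.degree z ∨ y ∉ L) := by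
    intro j y z
    rw [hLab]
    simp only [Finset.mem_filter, Finset.mem_univ, true_and]
  have hl : Lbl w c Lab m (fun v => T.dist r v / 2) := by
    refine ⟨?_, ?_, ?_, ?_, ?_, ?_⟩
    · intro j hj
      rw [(hw j hj).2]
      omega
    · intro j hj
      rw [(hc j hj).2.2.2]
      omega
    · intro j _ y z hz
      rw [((hmemLab j y z).mp hz).2.1]
      omega
    · intro j hj h
      exact hwA j (by omega) (h ▸ (hc j hj).1)
    · intro j hj y h
      exact hwA j hj ((hmemLab j y _).mp h).1
    · intro j hj y h
      exact ((hmemLab j y _).mp h).2.2.1 hj rfl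
  set A' : Finset W := A.filter fun z => 2 ≤ T.degree z with hA'
  have ht : nonleaves T = A'.card + m := by
    have h1 : (univ.filter fun v : W => 2 ≤ T.degree v) = A' ∪ Bp T A := by
      ext v
      rw [Finset.mem_union, mem_Bp, hA', Finset.mem_filter, Finset.mem_filter]
      by_cases hv : v ∈ A <;> simp [hv]
    have h2 : Disjoint A' (Bp T A) := by
      rw [Finset.disjoint_left]
      intro v hv hv'
      rw [hA', Finset.mem_filter] at hv
      exact (mem_Bp.mp hv').1 hv.1
    unfold nonleaves
    rw [h1, Finset.card_union_of_disjoint h2]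
  have hcA' : ∀ j, j + 1 < m → c j ∈ A' := by
    intro j hj
    rw [hA', Finset.mem_filter]
    refine ⟨(hc j hj).1, two_le_degree (hc j hj).2.1 (hc j hj).2.2.1 ?_⟩
    intro h
    have h1 := (hw j (by omega)).2
    have h2 := (hw (j + 1) hj).2
    rw [h] at h1
    omega
  have hsum1 : ∀ y ∈ L, ∑ j ∈ range m, (Lab j y).card + (m - 1) ≤ A'.card := by
    intro y hy
    apply sum_lab hl y A' _ hcA'
    intro j _ z hz
    rw [hmemLab] at hz
    rw [hA', Finset.mem_filter]
    refine ⟨hz.1, ?_⟩
    rcases hz.2.2.2 with h | h
    · exact h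
    · exact absurd hy h
  have hsum2 : ∀ y, ∑ j ∈ range m, (Lab j y).card + (m - 1) ≤ A.card := by
    intro y
    apply sum_lab hl y A _ (fun j hj => (hc j hj).1)
    intro j _ z hz
    exact ((hmemLab j y z).mp hz).1
  -- the embedding of the blocks
  obtain ⟨y, g, hg⟩ : ∃ y g, Emb0 G L w c Lab m 0 y g := by
    have hPr := card_Pr G L hL
    have hVcard : Fintype.card V = L.card + (univ \ L).card := by
      rw [Finset.card_univ_sdiff]
      have := Finset.card_le_univ L
      omega
    have hsplit : ∀ F : V → ℕ, ∑ y : V, F y = ∑ y ∈ L, F y + ∑ y ∈ univ \ L, F y := by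
      intro F
      rw [add_comm]
      exact (Finset.sum_sdiff (Finset.subset_univ L)).symm
    rcases Nat.lt_or_ge m 2 with hm2 | hm2
    · -- one block
      have hm : m = 1 := by omega
      by_cases hA'0 : A'.card = 0
      · obtain ⟨y, hy⟩ := hne
        obtain ⟨g, hg⟩ := exists_emb_one (G := G) (L := L) hl hm (y := y) (by
          have h1 := hsum1 y hy
          rw [hm, Finset.sum_range_one] at h1
          omega)
        exact ⟨y, g, hg⟩
      · have hex : ∃ y, (Lab 0 y).card ≤ (univ.filter fun v => Pr G L v y).card := by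
          by_contra hcon
          push Not at hcon
          have h1 : (univ.filter fun p : V × V => Pr G L p.1 p.2).card ≤
              ∑ y : V, ((Lab 0 y).card - 1) := by
            apply card_le_right
            intro y
            have h2 := hcon y
            have h3 : (univ.filter fun x => (x, y) ∈
                univ.filter fun p : V × V => Pr G L p.1 p.2) =
                univ.filter fun v => Pr G L v y := by
              ext x
              simp
            rw [h3]
            omega
          rw [hsplit] at h1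
          have h2 : ∑ y ∈ L, ((Lab 0 y).card - 1) ≤ (A'.card - 1) * L.card := by
            rw [mul_comm, ← smul_eq_mul, ← Finset.sum_const]
            apply Finset.sum_le_sum
            intro y hy
            have h1 := hsum1 y hy
            rw [hm, Finset.sum_range_one] at h1
            omega
          have h3 : ∑ y ∈ univ \ L, ((Lab 0 y).card - 1) ≤ (A.card - 1) * (univ \ L).card := by
            rw [mul_comm, ← smul_eq_mul, ← Finset.sum_const]
            apply Finset.sum_le_sum
            intro y hy
            have h1 := hsum2 y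
            rw [hm, Finset.sum_range_one] at h1
            omega
          have h4 : nonleaves T - 2 = A'.card - 1 := by omega
          rw [h4] at hcount
          omega
        obtain ⟨y, hy⟩ := hex
        obtain ⟨g, hg⟩ := exists_emb_one (G := G) (L := L) hl hm (y := y) hy
        exact ⟨y, g, hg⟩
    · -- at least two blocks
      obtain ⟨y, g, hg⟩ := exists_emb (G := G) (L := L) he hn hl hm2 (by
        have hcA : 1 ≤ A'.card := Finset.card_pos.mpr ⟨_, hcA' 0 (by omega)⟩
        rw [hsplit]
        have h2 : ∑ y ∈ L, ∑ j ∈ range m, (Lab j y).card ≤ (A'.card - (m - 1)) * L.card := by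
          rw [mul_comm, ← smul_eq_mul, ← Finset.sum_const]
          apply Finset.sum_le_sum
          intro y hy
          have h1 := hsum1 y hy
          omega
        have h3 : ∑ y ∈ univ \ L, ∑ j ∈ range m, (Lab j y).card ≤
            (A.card - (m - 1)) * (univ \ L).card := by
          rw [mul_comm, ← smul_eq_mul, ← Finset.sum_const]
          apply Finset.sum_le_sum
          intro y hy
          have h1 := hsum2 y
          omega
        have hy0 : ∀ y : V, m - 1 ≤ A.card := fun y => by
          have := hsum2 y
          omega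
        obtain ⟨x₀, hx₀⟩ := hne
        have h5 : m - 1 ≤ A'.card := by
          have := hsum1 x₀ hx₀
          omega
        have h6 := hy0 x₀
        have h7 : (m - 1) * L.card + (A'.card - (m - 1)) * L.card + (m - 2) * L.card =
            (nonleaves T - 2) * L.card := by
          rw [← add_mul, ← add_mul]
          congr 1
          omega
        have h8 : (A.card - (m - 1)) * (univ \ L).card + (m - 2) * (univ \ L).card =
            (A.card - 1) * (univ \ L).card := by
          rw [← add_mul]
          congr 1
          omega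
        have h9 : (m - 2) * Fintype.card V = (m - 2) * L.card + (m - 2) * (univ \ L).card := by
          rw [hVcard, mul_add]
        have h10 : (m - 2) * n = (m - 2) * Fintype.card V := rfl
        omega)
      exact ⟨y, g, hg⟩
  -- the remaining vertices
  set D : Finset W := univ.filter fun v => v ∈ RR w c Lab m 0 g with hDdef
  have hmemD : ∀ v, v ∈ D ↔ v ∈ RR w c Lab m 0 g := by
    intro v
    rw [hDdef, Finset.mem_filter]
    simp
  have hwD : ∀ i, i < m → w i ∈ D := by
    intro i hi
    rw [hmemD]
    exact ⟨i, Nat.zero_le _, hi, Or.inl rfl⟩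
  -- a vertex of `A` in `D`
  have hAD : ∀ z ∈ A, z ∈ D → z ∈ Lab (T.dist r z / 2) (g (w (T.dist r z / 2))) ∨
      (z = c (T.dist r z / 2) ∧ T.dist r z / 2 + 1 < m) := by
    intro z hz hzD
    rw [hmemD] at hzD
    obtain ⟨j, -, hj, h⟩ := hzD
    rcases h with h | h | ⟨h, h'⟩
    · exact absurd (h ▸ hz) (hwA j hj)
    · left
      have h1 := ((hmemLab j _ z).mp h).2.1
      have h2 : T.dist r z / 2 = j := by omega
      rw [h2]
      exact h
    · right
      have h1 := (hc j h').2.2.2
      rw [← h] at h1
      have h2 : T.dist r z / 2 = j := by omega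
      rw [h2]
      exact ⟨h, h'⟩
  have hAL : ∀ z ∈ A, z ∈ D → g z ∈ L ∧ G.Adj (g z) (g (w (T.dist r z / 2))) := by
    intro z hz hzD
    have hj := (hAfact z hz).1
    rcases hAD z hz hzD with h | ⟨h, h'⟩
    · exact hg.lab _ (Nat.zero_le _) hj z h
    · have h1 := hg.cc _ (Nat.zero_le _) h'
      rw [← h] at h1
      exact ⟨h1.1, h1.2.1⟩
  -- edges between `A` and the centres
  have hedge : ∀ z ∈ A, z ∈ D → ∀ j, j < m → T.Adj z (w j) → G.Adj (g z) (g (w j)) := by
    intro z hz hzD j hj hadj
    obtain ⟨h1, h2, h3⟩ := hAfact z hz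
    rcases hT.dist_eq_dist_add_one_of_adj r hadj with h4 | h4
    · rw [(hw j hj).2] at h4
      have h5 : T.dist r z / 2 = j := by omega
      have h6 := (hAL z hz hzD).2
      rw [h5] at h6
      exact h6
    · rw [(hw j hj).2] at h4
      have hj0 : T.dist r z / 2 + 1 = j := by omega
      have hjm : T.dist r z / 2 + 1 < m := by omega
      have h5 := hc _ hjm
      have h6 : z = c (T.dist r z / 2) := by
        apply closer_unique hT r (w := w j) hadj.symm
        · rw [← hj0]
          exact h5.2.2.1.symm
        · rw [(hw j hj).2]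
          omega
        · rw [(hw j hj).2, h5.2.2.2]
          omega
      have h7 := (hg.cc _ (Nat.zero_le _) hjm).2.2
      rw [← h6, hj0] at h7
      exact h7
  have hBD : ∀ v, v ∉ A → v ∈ D → ∃ j, j < m ∧ v = w j := by
    intro v hv hvD
    rw [hmemD] at hvD
    obtain ⟨j, -, hj, h⟩ := hvD
    rcases h with h | h | ⟨h, h'⟩
    · exact ⟨j, hj, h⟩
    · exact absurd ((hmemLab j _ v).mp h).1 hv
    · exact absurd (h ▸ (hc j h').1) hv
  apply extend G T hW L hL _ D g rfl
  · intro a ha b hb hab
    exact hg.inj ((hmemD a).mp ha) ((hmemD b).mp hb) hab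
  · intro u hu v hv huv
    by_cases huA : u ∈ A
    · have hvA : v ∉ A := (hA u v huv).mp huA
      obtain ⟨j, hj, rfl⟩ := hBD v hvA hv
      exact hedge u huA hu j hj huv
    · have hvA : v ∈ A := by
        by_contra h
        exact huA ((hA u v huv).mpr h)
      obtain ⟨j, hj, rfl⟩ := hBD u huA hu
      exact (hedge v hvA hv j hj huv.symm).symm
  · intro v hv
    by_cases hvA : v ∈ A
    · -- a leaf in `A` whose centre is placed in `L`
      obtain ⟨h1, h2, h3⟩ := hAfact v hvA
      have hnot : v ∉ Lab (T.dist r v / 2) (g (w (T.dist r v / 2))) := by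
        intro h
        exact hv ((hmemD v).mpr ⟨_, Nat.zero_le _, h1, Or.inr (Or.inl h)⟩)
      rw [hmemLab] at hnot
      have hcv : T.dist r v / 2 + 1 < m → v ≠ c (T.dist r v / 2) := by
        intro h h'
        exact hv ((hmemD v).mpr ⟨_, Nat.zero_le _, h1, Or.inr (Or.inr ⟨h', h⟩)⟩)
      have h4 : ¬ (2 ≤ T.degree v ∨ g (w (T.dist r v / 2)) ∉ L) :=
        fun h => hnot ⟨hvA, h3, hcv, h⟩
      rw [not_or, not_not] at h4
      exact ⟨w (T.dist r v / 2), hwD _ h1, h4.2, fun z hz => leaf_nbr h4.1 h2 hz⟩
    · -- a leaf outside `A`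
      have hvB : v ∉ Bp T A := by
        intro h
        obtain ⟨i, hi, hvi⟩ := hbw v h
        exact hv (hvi ▸ hwD i hi)
      have hdeg : ¬ 2 ≤ T.degree v := fun h => hvB (mem_Bp.mpr ⟨hvA, h⟩)
      have hvr : v ≠ r := by
        rintro rfl
        exact hvB hr
      obtain ⟨u, huA, hvu, hd, hdu⟩ := parent_B hA hT hr hvA hvr
      obtain ⟨h1, h2, h3⟩ := hAfact u huA
      have huD : u ∈ D := by
        rw [hmemD]
        refine ⟨T.dist r u / 2, Nat.zero_le _, h1, ?_⟩
        by_cases hcu : T.dist r u / 2 + 1 < m ∧ u = c (T.dist r u / 2)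
        · exact Or.inr (Or.inr ⟨hcu.2, hcu.1⟩)
        · right; left
          rw [hmemLab]
          exact ⟨huA, h3, fun h h' => hcu ⟨h, h'⟩, Or.inl hdu⟩
      exact ⟨u, huD, (hAL u huA huD).1, fun z hz => leaf_nbr hdeg hvu hz⟩

end Pool.Agent.LKC
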