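import Pool.Agent.LKC.TreeS

/-!
# The structure of a tree whose non-leaves form a caterpillar (helper60)
-/

set_option autoImplicit false
set_option linter.unusedSectionVars false

namespace Pool.Agent.LKC

open Finset
open scoped Classical
open Pool.Agent.LKS (exists_closer closer_unique)

variable {W : Type*} [Fintype W] {T : SimpleGraph W}

/-- Every non-leaf is on the path or adjacent to a vertex of the path. -/
def Cov (T : SimpleGraph W) {a b : W} (p : T.Walk a b) : Prop :=
  ∀ z, 2 ≤ T.degree z → z ∈ p.support ∨ ∃ u ∈ p.support, T.Adj z u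

theorem cov_reverse {a b : W} {p : T.Walk a b} (h : Cov T p) : Cov T p.reverse := by
  intro z hz
  have := h z hz
  simpa [SimpleGraph.Walk.support_reverse] using this

theorem cov_cons {a b c : W} {p : T.Walk a b} (h : Cov T p) (hc : T.Adj c a) :
    Cov T (SimpleGraph.Walk.cons hc p) := by
  intro z hz
  rw [SimpleGraph.Walk.support_cons]
  rcases h z hz with h1 | ⟨u, hu, hzu⟩
  · exact Or.inl (List.mem_cons_of_mem _ h1)
  · exact Or.inr ⟨u, List.mem_cons_of_mem _ hu, hzu⟩

theorem exists_nbr_not_mem (hT : T.IsTree) {a b : W} {p : T.Walk a b} (hp : p.IsPath)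
    (ha : 2 ≤ T.degree a) : ∃ z, T.Adj a z ∧ z ∉ p.support := by
  by_contra hcon
  push Not at hcon
  have h1 : T.neighborFinset a ⊆ {p.snd} := by
    intro z hz
    rw [SimpleGraph.mem_neighborFinset] at hz
    rw [Finset.mem_singleton]
    exact hT.isAcyclic.eq_snd_of_adj_start hp hz (hcon z hz)
  have h2 := Finset.card_le_card h1
  rw [SimpleGraph.card_neighborFinset_eq_degree, Finset.card_singleton] at h2
  omega

/-- A longest covering path. -/
theorem exists_max_cov (h : ∃ (a b : W) (p : T.Walk a b), p.IsPath ∧ Cov T p) :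
    ∃ (a b : W) (p : T.Walk a b), p.IsPath ∧ Cov T p ∧
      ∀ (a' b' : W) (p' : T.Walk a' b'), p'.IsPath → Cov T p' → p'.length ≤ p.length := by
  let Pd : ℕ → Prop := fun l => ∃ (a b : W) (p : T.Walk a b), p.IsPath ∧ Cov T p ∧ p.length = l
  obtain ⟨a, b, p, hp, hc⟩ := h
  have h1 : Pd p.length := ⟨a, b, p, hp, hc, rfl⟩
  have h2 : p.length ≤ Fintype.card W := hp.length_lt.le
  obtain ⟨a₁, b₁, p₁, hp₁, hc₁, hl₁⟩ := Nat.findGreatest_spec (P := Pd) h2 h1
  refine ⟨a₁, b₁, p₁, hp₁, hc₁, ?_⟩
  intro a' b' p' hp' hc'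
  rw [hl₁]
  exact Nat.le_findGreatest hp'.length_lt.le ⟨a', b', p', hp', hc', rfl⟩

section maxpath

variable {a b : W} {p : T.Walk a b} (hT : T.IsTree) (hp : p.IsPath) (hc : Cov T p)
  (hmax : ∀ (a' b' : W) (p' : T.Walk a' b'), p'.IsPath → Cov T p' → p'.length ≤ p.length)

include hT hp hc hmax

theorem start_leaf : ¬ 2 ≤ T.degree a := by
  intro ha
  obtain ⟨z, haz, hz⟩ := exists_nbr_not_mem hT hp ha
  have h1 := hmax _ _ (SimpleGraph.Walk.cons haz.symm p) (hp.cons hz) (cov_cons hc _)
  rw [SimpleGraph.Walk.length_cons] at h1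
  omega

theorem not_adj_start {z : W} (hz : z ∉ p.support) : ¬ T.Adj z a := by
  intro h
  have h1 := hmax _ _ (SimpleGraph.Walk.cons h p) (hp.cons hz) (cov_cons hc _)
  rw [SimpleGraph.Walk.length_cons] at h1
  omega

theorem second_nbr {z : W} (hz : z ∉ p.support) (hzv : T.Adj z (p.getVert 1))
    (hlen : 1 ≤ p.length) : ¬ 2 ≤ T.degree z := by
  intro hdeg
  have hleaf := start_leaf hT hp hc hmax
  cases p with
  | nil =>
    rw [SimpleGraph.Walk.length_nil] at hlen
    omega
  | @cons _ v₁ _ h0 p₁ =>
    rw [SimpleGraph.Walk.getVert_cons_succ, SimpleGraph.Walk.getVert_zero] at hzv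
    rw [SimpleGraph.Walk.support_cons, List.mem_cons, not_or] at hz
    rw [SimpleGraph.Walk.cons_isPath_iff] at hp
    have hq : (SimpleGraph.Walk.cons hzv p₁).IsPath := hp.1.cons hz.2
    obtain ⟨z', hzz', hz'⟩ := exists_nbr_not_mem hT hq hdeg
    have hq' : (SimpleGraph.Walk.cons hzz'.symm (SimpleGraph.Walk.cons hzv p₁)).IsPath :=
      hq.cons hz'
    have h1 := hmax _ _ _ hq' (by
      intro x hx
      have hxa : x ≠ a := by
        rintro rfl
        exact hleaf hx
      rcases hc x hx with h | ⟨u, hu, hxu⟩
      · rw [SimpleGraph.Walk.support_cons, List.mem_cons] at h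
        rcases h with h | h
        · exact absurd h hxa
        · left
          rw [SimpleGraph.Walk.support_cons, SimpleGraph.Walk.support_cons]
          exact List.mem_cons_of_mem _ (List.mem_cons_of_mem _ h)
      · rw [SimpleGraph.Walk.support_cons, List.mem_cons] at hu
        rcases hu with rfl | hu
        · left
          have hxv : x = v₁ := by
            by_contra hne
            exact hleaf (two_le_degree hxu.symm h0 hne)
          rw [hxv, SimpleGraph.Walk.support_cons, SimpleGraph.Walk.support_cons]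
          exact List.mem_cons_of_mem _ (List.mem_cons_of_mem _ p₁.start_mem_support)
        · right
          refine ⟨u, ?_, hxu⟩
          rw [SimpleGraph.Walk.support_cons, SimpleGraph.Walk.support_cons]
          exact List.mem_cons_of_mem _ (List.mem_cons_of_mem _ hu))
    rw [SimpleGraph.Walk.length_cons, SimpleGraph.Walk.length_cons,
      SimpleGraph.Walk.length_cons] at h1
    omega

end maxpath

/-- The blocks of a tree whose non-leaves form a caterpillar. -/
theorem exists_blocks2 (hT : T.IsTree) {A : Finset W}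
    (hA : ∀ a b, T.Adj a b → (a ∈ A ↔ b ∉ A)) (hne : (Bp T A).Nonempty)
    (hpath : ∃ (a b : W) (p : T.Walk a b), p.IsPath ∧ Cov T p) :
    ∃ (m : ℕ) (w c : ℕ → W), 1 ≤ m ∧
      (∀ j, j < m → w j ∈ Bp T A ∧ T.dist (w 0) (w j) = 2 * j) ∧
      (∀ j, j + 1 < m → c j ∈ A ∧ T.Adj (c j) (w j) ∧ T.Adj (c j) (w (j + 1)) ∧
        T.dist (w 0) (c j) = 2 * j + 1) ∧
      (∀ z ∈ Bp T A, (∃ j, j < m ∧ z = w j) ∨ ∃ j, j + 1 < m ∧ T.Adj z (c j)) ∧
      (∀ z ∈ A, 2 ≤ T.degree z → (∃ j, j + 1 < m ∧ z = c j) ∨ ∃ j, j < m ∧ T.Adj z (w j)) := by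
  obtain ⟨a, b, p, hp, hc, hmax⟩ := exists_max_cov hpath
  set s := p.length with hs
  have hmaxr : ∀ (a' b' : W) (p' : T.Walk a' b'), p'.IsPath → Cov T p' →
      p'.length ≤ p.reverse.length := by
    intro a' b' p' h1 h2
    rw [SimpleGraph.Walk.length_reverse]
    exact hmax a' b' p' h1 h2
  have hpr : p.reverse.IsPath := hp.reverse
  have hcr := cov_reverse hc
  -- basic facts
  have F0 : ¬ 2 ≤ T.degree (p.getVert 0) := by
    rw [SimpleGraph.Walk.getVert_zero]
    exact start_leaf hT hp hc hmax
  have F0' : ¬ 2 ≤ T.degree (p.getVert s) := by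
    rw [hs, SimpleGraph.Walk.getVert_length]
    exact start_leaf hT hpr hcr hmaxr
  have Fidx : ∀ z ∈ p.support, ∃ i, p.getVert i = z ∧ i ≤ s := fun z hz =>
    SimpleGraph.Walk.mem_support_iff_exists_getVert.mp hz
  have F3 : ∀ z u, z ∉ p.support → u ∈ p.support → T.Adj z u →
      ∃ i, 0 < i ∧ i < s ∧ u = p.getVert i := by
    intro z u hz hu hzu
    obtain ⟨i, hi, his⟩ := Fidx u hu
    refine ⟨i, ?_, ?_, hi.symm⟩
    · rcases Nat.eq_zero_or_pos i with h | h
      · exfalso
        rw [h, SimpleGraph.Walk.getVert_zero] at hi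
        rw [← hi] at hzu
        exact not_adj_start hT hp hc hmax hz hzu
      · exact h
    · rcases Nat.eq_or_lt_of_le his with h | h
      · exfalso
        rw [h, hs, SimpleGraph.Walk.getVert_length] at hi
        rw [← hi] at hzu
        refine not_adj_start hT hpr hcr hmaxr (z := z) ?_ hzu
        rw [SimpleGraph.Walk.support_reverse, List.mem_reverse]
        exact hz
      · exact h
  have F1 : ∀ z, z ∉ p.support → T.Adj z (p.getVert 1) → 1 ≤ s → ¬ 2 ≤ T.degree z :=
    fun z hz hadj h1 => second_nbr hT hp hc hmax hz hadj h1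
  have F1' : ∀ z, z ∉ p.support → T.Adj z (p.getVert (s - 1)) → 1 ≤ s → ¬ 2 ≤ T.degree z := by
    intro z hz hadj h1
    refine second_nbr hT hpr hcr hmaxr (z := z) ?_ ?_ ?_
    · rw [SimpleGraph.Walk.support_reverse, List.mem_reverse]
      exact hz
    · rw [SimpleGraph.Walk.getVert_reverse]
      exact hadj
    · rw [SimpleGraph.Walk.length_reverse]
      exact h1
  have Fadj : ∀ i, i < s → T.Adj (p.getVert i) (p.getVert (i + 1)) := fun i hi =>
    p.adj_getVert_succ hi
  have Finj : ∀ i j, i ≤ s → j ≤ s → p.getVert i = p.getVert j → i = j := by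
    intro i j hi hj hij
    exact hp.getVert_injOn hi hj hij
  have F2 : ∀ i, 0 < i → i < s → 2 ≤ T.degree (p.getVert i) := by
    intro i h1 h2
    have h3 := Fadj (i - 1) (by omega)
    have h4 : i - 1 + 1 = i := by omega
    rw [h4] at h3
    refine two_le_degree h3.symm (Fadj i h2) ?_
    intro h5
    have := Finj _ _ (by omega) (by omega) h5
    omega
  have Fpar : ∀ i, i < s → (p.getVert i ∈ A ↔ p.getVert (i + 1) ∉ A) := fun i hi =>
    hA _ _ (Fadj i hi)
  -- the indices of the centres
  have hgood : ∃ i, 0 < i ∧ i < s ∧ p.getVert i ∉ A := by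
    obtain ⟨z, hz⟩ := hne
    have hzA := (mem_Bp.mp hz).1
    have hzd := (mem_Bp.mp hz).2
    by_cases hzp : z ∈ p.support
    · obtain ⟨i, hi, his⟩ := Fidx z hzp
      refine ⟨i, ?_, ?_, by rw [hi]; exact hzA⟩
      · rcases Nat.eq_zero_or_pos i with h | h
        · exfalso
          rw [h] at hi
          rw [hi] at F0
          exact F0 hzd
        · exact h
      · rcases Nat.eq_or_lt_of_le his with h | h
        · exfalso
          rw [h] at hi
          rw [hi] at F0'
          exact F0' hzd
        · exact h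
    · rcases hc z hzd with h | ⟨u, hu, hzu⟩
      · exact absurd h hzp
      · obtain ⟨i, h1, h2, h3⟩ := F3 z u hzp hu hzu
        have huA : u ∈ A := by
          by_contra h
          exact hzA ((hA z u hzu).mpr h)
        have hi1 : i ≠ 1 := by
          rintro rfl
          rw [h3] at hzu
          exact F1 z hzp hzu (by omega) hzd
        refine ⟨i - 1, by omega, by omega, ?_⟩
        intro h4
        have h5 := (Fpar (i - 1) (by omega)).mp h4
        have h6 : i - 1 + 1 = i := by omega
        rw [h6, ← h3] at h5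
        exact h5 huA
  obtain ⟨i₀, hi₀, hi₀min⟩ : ∃ i₀, (0 < i₀ ∧ i₀ < s ∧ p.getVert i₀ ∉ A) ∧
      ∀ i, 0 < i → i < s → p.getVert i ∉ A → i₀ ≤ i :=
    ⟨Nat.find hgood, Nat.find_spec hgood, fun i h1 h2 h3 => Nat.find_min' hgood ⟨h1, h2, h3⟩⟩
  obtain ⟨i₁, hi₁, hi₁max⟩ : ∃ i₁, (0 < i₁ ∧ i₁ < s ∧ p.getVert i₁ ∉ A) ∧
      ∀ i, 0 < i → i < s → p.getVert i ∉ A → i ≤ i₁ := by
    refine ⟨Nat.findGreatest (fun i => 0 < i ∧ i < s ∧ p.getVert i ∉ A) s,
      Nat.findGreatest_spec (P := fun i => 0 < i ∧ i < s ∧ p.getVert i ∉ A) hi₀.2.1.le hi₀, ?_⟩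
    intro i h1 h2 h3
    exact Nat.le_findGreatest h2.le ⟨h1, h2, h3⟩
  have hi₀le : i₀ ≤ 2 := by
    by_contra hcon
    have h1 : p.getVert 1 ∈ A := by
      by_contra h
      have := hi₀min 1 (by omega) (by omega) h
      omega
    have h2 : p.getVert 2 ∈ A := by
      by_contra h
      have := hi₀min 2 (by omega) (by omega) h
      omega
    exact (Fpar 1 (by omega)).mp h1 h2
  have hi₁ge : s ≤ i₁ + 2 := by
    by_contra hcon
    have h1 : p.getVert (s - 1) ∈ A := by
      by_contra h
      have := hi₁max (s - 1) (by omega) (by omega) h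
      omega
    have h2 : p.getVert (s - 2) ∈ A := by
      by_contra h
      have := hi₁max (s - 2) (by omega) (by omega) h
      omega
    have h3 := (Fpar (s - 2) (by omega)).mp h2
    have h4 : s - 2 + 1 = s - 1 := by omega
    rw [h4] at h3
    exact h3 h1
  have hle : i₀ ≤ i₁ := hi₀min i₁ hi₁.1 hi₁.2.1 hi₁.2.2
  have hparity : ∀ t, i₀ + t ≤ s → (p.getVert (i₀ + t) ∈ A ↔ t % 2 = 1) := by
    intro t
    induction t with
    | zero =>
      intro _
      simp [hi₀.2.2]
    | succ t ih =>
      intro ht
      have h1 := ih (by omega)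
      have h2 := Fpar (i₀ + t) (by omega)
      have h3 : i₀ + (t + 1) = i₀ + t + 1 := by omega
      rw [h3]
      constructor
      · intro h4
        have h5 : ¬ p.getVert (i₀ + t) ∈ A := fun h => h2.mp h h4
        rw [h1] at h5
        omega
      · intro h4
        by_contra h5
        have h6 := h2.mpr h5
        rw [h1] at h6
        omega
  have heven : (i₁ - i₀) % 2 = 0 := by
    have h1 := hparity (i₁ - i₀) (by omega)
    have h2 : i₀ + (i₁ - i₀) = i₁ := by omega
    rw [h2] at h1
    by_contra h3
    exact hi₁.2.2 (h1.mpr (by omega))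
  have hdist : ∀ t, i₀ + t ≤ s → T.dist (p.getVert i₀) (p.getVert (i₀ + t)) = t := by
    intro t ht
    rw [dist_getVert hT hp (by omega) ht]
    omega
  refine ⟨(i₁ - i₀) / 2 + 1, fun j => p.getVert (i₀ + 2 * j), fun j => p.getVert (i₀ + 2 * j + 1),
    by omega, ?_, ?_, ?_, ?_⟩
  · intro j hj
    refine ⟨mem_Bp.mpr ⟨?_, F2 _ (by omega) (by omega)⟩, ?_⟩
    · intro h
      rw [hparity (2 * j) (by omega)] at h
      omega
    · simp only [mul_zero, add_zero]
      exact hdist (2 * j) (by omega)
  · intro j hj
    refine ⟨?_, (Fadj _ (by omega)).symm, ?_, ?_⟩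
    · show p.getVert (i₀ + 2 * j + 1) ∈ A
      rw [add_assoc, hparity (2 * j + 1) (by omega)]
      omega
    · have h1 := Fadj (i₀ + 2 * j + 1) (by omega)
      have h2 : i₀ + 2 * (j + 1) = i₀ + 2 * j + 1 + 1 := by ring
      simp only [h2]
      exact h1
    · simp only [mul_zero, add_zero]
      exact hdist (2 * j + 1) (by omega)
  · -- the non-leaves outside `A`
    intro z hz
    have hzA := (mem_Bp.mp hz).1
    have hzd := (mem_Bp.mp hz).2
    by_cases hzp : z ∈ p.support
    · left
      obtain ⟨i, hi, his⟩ := Fidx z hzp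
      have h1 : 0 < i := by
        rcases Nat.eq_zero_or_pos i with h | h
        · exfalso
          rw [h] at hi
          rw [hi] at F0
          exact F0 hzd
        · exact h
      have h2 : i < s := by
        rcases Nat.eq_or_lt_of_le his with h | h
        · exfalso
          rw [h] at hi
          rw [hi] at F0'
          exact F0' hzd
        · exact h
      have h3 := hi₀min i h1 h2 (by rw [hi]; exact hzA)
      have h4 := hi₁max i h1 h2 (by rw [hi]; exact hzA)
      have h5 : (i - i₀) % 2 = 0 := by
        have h6 := hparity (i - i₀) (by omega)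
        have h7 : i₀ + (i - i₀) = i := by omega
        rw [h7, hi] at h6
        by_contra h8
        exact hzA (h6.mpr (by omega))
      refine ⟨(i - i₀) / 2, by omega, ?_⟩
      have h6 : i₀ + 2 * ((i - i₀) / 2) = i := by omega
      simp only [h6]
      exact hi.symm
    · right
      rcases hc z hzd with h | ⟨u, hu, hzu⟩
      · exact absurd h hzp
      · obtain ⟨i, h1, h2, h3⟩ := F3 z u hzp hu hzu
        have huA : u ∈ A := by
          by_contra h
          exact hzA ((hA z u hzu).mpr h)
        have hi1 : i ≠ 1 := by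
          rintro rfl
          rw [h3] at hzu
          exact F1 z hzp hzu (by omega) hzd
        have his1 : i ≠ s - 1 := by
          rintro rfl
          rw [h3] at hzu
          exact F1' z hzp hzu (by omega) hzd
        rw [h3] at huA
        have h4 : p.getVert (i - 1) ∉ A := by
          intro h5
          have h6 := (Fpar (i - 1) (by omega)).mp h5
          have h7 : i - 1 + 1 = i := by omega
          rw [h7] at h6
          exact h6 huA
        have h5 : p.getVert (i + 1) ∉ A := (Fpar i h2).mp huA
        have h6 := hi₀min (i - 1) (by omega) (by omega) h4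
        have h7 := hi₁max (i + 1) (by omega) (by omega) h5
        have h8 : (i - i₀) % 2 = 1 := by
          have h9 := hparity (i - i₀) (by omega)
          have h10 : i₀ + (i - i₀) = i := by omega
          rw [h10] at h9
          exact h9.mp huA
        refine ⟨(i - i₀) / 2, by omega, ?_⟩
        have h9 : i₀ + 2 * ((i - i₀) / 2) + 1 = i := by omega
        simp only [h9]
        rw [← h3]
        exact hzu
  · -- the non-leaves in `A`
    intro z hzA hzd
    by_cases hzp : z ∈ p.support
    · obtain ⟨i, hi, his⟩ := Fidx z hzp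
      have h1 : 0 < i := by
        rcases Nat.eq_zero_or_pos i with h | h
        · exfalso
          rw [h] at hi
          rw [hi] at F0
          exact F0 hzd
        · exact h
      have h2 : i < s := by
        rcases Nat.eq_or_lt_of_le his with h | h
        · exfalso
          rw [h] at hi
          rw [hi] at F0'
          exact F0' hzd
        · exact h
      rcases Nat.lt_or_ge i i₀ with h3 | h3
      · right
        refine ⟨0, by omega, ?_⟩
        have h4 : i + 1 = i₀ := by omega
        have h5 := Fadj i h2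
        rw [h4, hi] at h5
        exact h5
      · rcases Nat.lt_or_ge i₁ i with h4 | h4
        · right
          refine ⟨(i₁ - i₀) / 2, by omega, ?_⟩
          have h5 : i₀ + 2 * ((i₁ - i₀) / 2) = i₁ := by omega
          simp only [h5]
          have h6 : i₁ + 1 = i := by omega
          have h7 := Fadj i₁ (by omega)
          rw [h6, hi] at h7
          exact h7.symm
        · left
          have h8 : (i - i₀) % 2 = 1 := by
            have h9 := hparity (i - i₀) (by omega)
            have h10 : i₀ + (i - i₀) = i := by omega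
            rw [h10, hi] at h9
            exact h9.mp hzA
          refine ⟨(i - i₀) / 2, by omega, ?_⟩
          have h9 : i₀ + 2 * ((i - i₀) / 2) + 1 = i := by omega
          simp only [h9]
          exact hi.symm
    · right
      rcases hc z hzd with h | ⟨u, hu, hzu⟩
      · exact absurd h hzp
      · obtain ⟨i, h1, h2, h3⟩ := F3 z u hzp hu hzu
        have huA : u ∉ A := (hA z u hzu).mp hzA
        rw [h3] at huA
        have h6 := hi₀min i h1 h2 huA
        have h7 := hi₁max i h1 h2 huA
        have h8 : (i - i₀) % 2 = 0 := by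
          have h9 := hparity (i - i₀) (by omega)
          have h10 : i₀ + (i - i₀) = i := by omega
          rw [h10] at h9
          by_contra h11
          exact huA (h9.mpr (by omega))
        refine ⟨(i - i₀) / 2, by omega, ?_⟩
        have h9 : i₀ + 2 * ((i - i₀) / 2) = i := by omega
        simp only [h9]
        rw [← h3]
        exact hzu

end Pool.Agent.LKC
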