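import Pool.Agent.LKC.Zig

/-!
# The zigzag embedding of a caterpillar with pendant vertices on both sides (helper60)

The blocks `0, …, m - 1` consist of a centre `w j`, a set `D j` of pendant neighbours of `w j`,
a connecting vertex `c j`, adjacent to `w j` and `w (j + 1)`, and a set `E j` of pendant neighbours
of `c j`.  The vertices `c j` and those of `D j` are placed in `L`, the others in `K`.
-/

set_option autoImplicit false
set_option linter.unusedSectionVars false

namespace Pool.Agent.LKC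

open Finset
open scoped Classical

section count

variable {V : Type*} [Fintype V] {n : ℕ} {e : V → ℕ}

theorem card_le_right_on (F : Finset (V × V)) (K : Finset V) (N : ℕ) (hF : ∀ p ∈ F, p.2 ∈ K)
    (h : ∀ y ∈ K, (univ.filter fun x => (x, y) ∈ F).card ≤ N) : F.card ≤ N * K.card := by
  have h1 := card_le_right F (fun y => if y ∈ K then N else 0) (by
    intro y
    by_cases hy : y ∈ K
    · rw [if_pos hy]
      exact h y hy
    · rw [if_neg hy, Nat.le_zero, Finset.card_eq_zero, Finset.filter_eq_empty_iff]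
      intro x _ hx
      exact hy (hF _ hx))
  refine h1.trans (le_of_eq ?_)
  rw [Finset.sum_ite_mem, Finset.univ_inter, Finset.sum_const, smul_eq_mul, mul_comm]

theorem card_le_left_on (F : Finset (V × V)) (K : Finset V) (N : ℕ) (hF : ∀ p ∈ F, p.1 ∈ K)
    (h : ∀ x ∈ K, (univ.filter fun y => (x, y) ∈ F).card ≤ N) : F.card ≤ N * K.card := by
  rw [card_eq_left]
  calc ∑ x : V, (univ.filter fun y => (x, y) ∈ F).card
      ≤ ∑ x : V, (if x ∈ K then N else 0) := by
        apply Finset.sum_le_sum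
        intro x _
        by_cases hx : x ∈ K
        · rw [if_pos hx]
          exact h x hx
        · rw [if_neg hx, Nat.le_zero, Finset.card_eq_zero, Finset.filter_eq_empty_iff]
          intro y _ hy
          exact hx (hF _ hy)
    _ = N * K.card := by
        rw [Finset.sum_ite_mem, Finset.univ_inter, Finset.sum_const, smul_eq_mul, mul_comm]

/-- A move of the second coordinate which skips `s` neighbours. -/
theorem del_right2 (he : Function.Injective e) (hn : ∀ v, e v < n) {P Q Q' : V → V → Prop}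
    {L : Finset V} (hL : ∀ x y, P x y → x ∈ L) (hQ : ∀ x y, Q x y → P x y) (s : ℕ)
    (hQ' : ∀ x y y', P x y → Fr n e x y y' → Q x y' →
      s ≤ (univ.filter fun v => P x v ∧ Fr n e x y v ∧ rk n e x v < rk n e x y').card →
      Q' x y) :
    bad P Q' ≤ bad P Q + (s + 1) * L.card := by
  apply bad_le
  apply card_le_left_on
  · intro p hp
    rw [Finset.mem_filter] at hp
    exact hL _ _ (hQ _ _ hp.2.1)
  · intro x _
    by_contra hcon
    rw [not_le] at hcon
    obtain ⟨a, ha, b, hb, hab, hcard⟩ := exists_between (κ := fun v => rk n e x v)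
      (fun v v' h => rk_inj he hn h) (c := s) (Nat.succ_le_of_lt hcon)
    rw [Finset.mem_filter, Finset.mem_filter] at ha hb
    replace ha := And.intro ha.1 ha.2.2
    replace hb := And.intro hb.1 hb.2.2
    apply ha.2.2
    refine hQ' x a b (hQ _ _ ha.2.1) hab hb.2.1 (hcard.trans ?_)
    apply Finset.card_le_card
    intro v hv
    rw [Finset.mem_filter, Finset.mem_filter, Finset.mem_filter] at hv
    rw [Finset.mem_filter]
    exact ⟨Finset.mem_univ _, hQ _ _ hv.1.2.2.1, hv.2.1, hv.2.2⟩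

theorem del_left2 (he : Function.Injective e) (hn : ∀ v, e v < n) {P Q Q' : V → V → Prop}
    {K : Finset V} (hK : ∀ x y, P x y → y ∈ K)
    (hP : ∀ x y, P x y → x ≠ y) (hQ : ∀ x y, Q x y → P x y) (s : ℕ)
    (hQ' : ∀ x y x', P x y → Fr n e x y x' → Q x' y →
      s ≤ (univ.filter fun v => P v y ∧ Fr n e x y v ∧ rk n e y x' < rk n e y v).card →
      Q' x y) :
    bad P Q' ≤ bad P Q + (s + 1) * K.card := by
  apply bad_le
  apply card_le_right_on
  · intro p hp
    rw [Finset.mem_filter] at hp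
    exact hK _ _ (hQ _ _ hp.2.1)
  intro y _
  by_contra hcon
  rw [not_le] at hcon
  obtain ⟨a, ha, b, hb, hab, hcard⟩ := exists_between (κ := fun v => rk n e y v)
    (fun v v' h => rk_inj he hn h) (c := s) (Nat.succ_le_of_lt hcon)
  rw [Finset.mem_filter, Finset.mem_filter] at ha hb
  replace ha := And.intro ha.1 ha.2.2
  replace hb := And.intro hb.1 hb.2.2
  apply hb.2.2
  have hay : a ≠ y := hP _ _ (hQ _ _ ha.2.1)
  have hby : b ≠ y := hP _ _ (hQ _ _ hb.2.1)
  refine hQ' b y a (hQ _ _ hb.2.1) ((fr_iff he hn hby a).mpr ⟨rk_pos he hn hay, hab⟩) ha.2.1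
    (hcard.trans ?_)
  apply Finset.card_le_card
  intro v hv
  rw [Finset.mem_filter, Finset.mem_filter, Finset.mem_filter] at hv
  rw [Finset.mem_filter]
  refine ⟨Finset.mem_univ _, hQ _ _ hv.1.2.2.1, ?_, hv.2.1⟩
  rw [fr_iff he hn hby]
  exact ⟨lt_of_le_of_lt (Nat.zero_le _) hv.2.1, hv.2.2⟩

theorem del_end2 (he : Function.Injective e) (hn : ∀ v, e v < n) {P Q' : V → V → Prop}
    {K : Finset V} (hK : ∀ x y, P x y → y ∈ K) (hP : ∀ x y, P x y → x ≠ y) (s : ℕ)
    (hQ' : ∀ x y, P x y → s ≤ (univ.filter fun v => P v y ∧ Fr n e x y v).card → Q' x y) :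
    bad P Q' ≤ s * K.card := by
  unfold bad
  apply card_le_right_on
  · intro p hp
    rw [Finset.mem_filter] at hp
    exact hK _ _ hp.2.1
  intro y _
  by_contra hcon
  rw [not_le] at hcon
  obtain ⟨b, hb, hcard⟩ := exists_below (κ := fun v => rk n e y v)
    (fun v v' h => rk_inj he hn h) (c := s) (Nat.succ_le_of_lt hcon)
  rw [Finset.mem_filter, Finset.mem_filter] at hb
  replace hb := And.intro hb.1 hb.2.2
  apply hb.2.2
  have hby : b ≠ y := hP _ _ hb.2.1
  refine hQ' b y hb.2.1 (hcard.trans ?_)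
  apply Finset.card_le_card
  intro v hv
  rw [Finset.mem_filter, Finset.mem_filter, Finset.mem_filter] at hv
  rw [Finset.mem_filter]
  refine ⟨Finset.mem_univ _, hv.1.2.2.1, ?_⟩
  rw [fr_iff he hn hby]
  exact ⟨rk_pos he hn (hP _ _ hv.1.2.2.1), hv.2⟩

theorem exists_start2 (he : Function.Injective e) (hn : ∀ v, e v < n) {P Q : V → V → Prop}
    {K : Finset V} (hK : ∀ x y, P x y → y ∈ K) (hQ : ∀ x y, Q x y → P x y) (s : ℕ)
    (h : bad P Q + s * K.card < (univ.filter fun p : V × V => P p.1 p.2).card) :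
    ∃ x y, Q x y ∧ s ≤ (univ.filter fun v => P v y ∧ rk n e y x < rk n e y v).card := by
  obtain ⟨x, y, h1, h2⟩ := exists_start (P := P) (Q := Q) he hn hQ
    (fun y => if y ∈ K then s else 0) (by
      rw [Finset.sum_ite_mem, Finset.univ_inter, Finset.sum_const, smul_eq_mul, mul_comm]
      exact h)
  rw [if_pos (hK _ _ (hQ _ _ h1))] at h2
  exact ⟨x, y, h1, h2⟩

end count

section zig

variable {V W : Type*} [Fintype V] (n : ℕ) (e : V → ℕ) (G : SimpleGraph V) (L K : Finset V)
  (w c : ℕ → W) (D E : ℕ → Finset W) (m : ℕ)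

/-- The pairs: an edge with its first vertex in `L` and its second vertex in `K`. -/
def Pr2 (x y : V) : Prop := x ∈ L ∧ y ∈ K ∧ G.Adj x y

/-- The labels of the blocks from `i` on. -/
def RR2 (i : ℕ) : Set W :=
  {v | ∃ j, i ≤ j ∧ j < m ∧ (v = w j ∨ v ∈ D j ∨ (j + 1 < m ∧ (v = c j ∨ v ∈ E j)))}

/-- `g` embeds the blocks from `i` on. -/
structure Emb2 (i : ℕ) (y : V) (g : W → V) : Prop where
  gw : g (w i) = y
  inj : Set.InjOn g (RR2 w c D E m i)
  wK : ∀ j, i ≤ j → j < m → g (w j) ∈ K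
  lab : ∀ j, i ≤ j → j < m → ∀ z ∈ D j, g z ∈ L ∧ G.Adj (g z) (g (w j))
  cc : ∀ j, i ≤ j → j + 1 < m →
    g (c j) ∈ L ∧ G.Adj (g (c j)) (g (w j)) ∧ G.Adj (g (c j)) (g (w (j + 1)))
  ee : ∀ j, i ≤ j → j + 1 < m → ∀ z ∈ E j, g z ∈ K ∧ G.Adj (g (c j)) (g z)

/-- The labels are distinct. -/
structure Lbl2 (ix : W → ℕ) : Prop where
  iw : ∀ j, j < m → ix (w j) = j
  ic : ∀ j, j + 1 < m → ix (c j) = j
  id : ∀ j, j < m → ∀ z ∈ D j, ix z = j
  ie : ∀ j, j + 1 < m → ∀ z ∈ E j, ix z = j
  wc : ∀ j, j + 1 < m → w j ≠ c j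
  wd : ∀ j, j < m → w j ∉ D j
  we : ∀ j, j + 1 < m → w j ∉ E j
  cd : ∀ j, j + 1 < m → c j ∉ D j
  ce : ∀ j, j + 1 < m → c j ∉ E j
  de : ∀ j, j + 1 < m → ∀ z ∈ D j, z ∉ E j

/-- The pairs from which the blocks from `i` on can be embedded in the free arc. -/
def Good2 (i : ℕ) (x y : V) : Prop :=
  Pr2 G L K x y ∧ ∃ g : W → V, Emb2 G L K w c D E m i y g ∧
    ∀ v ∈ RR2 w c D E m i, v ≠ w i → Fr n e x y (g v)

/-- The pairs `(x, y)` for which `y` can move to a good pair. -/
def Hop2 (i : ℕ) (x y : V) : Prop :=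
  Pr2 G L K x y ∧ ∃ y', Fr n e x y y' ∧ Good2 n e G L K w c D E m (i + 1) x y' ∧
    (E i).card ≤ (univ.filter fun v => Pr2 G L K x v ∧ Fr n e x y v ∧
      rk n e x v < rk n e x y').card

variable {n e G L K w c D E m}

theorem emb2_last {ix : W → ℕ} (hl : Lbl2 w c D E m ix) {i : ℕ} (hi : i + 1 = m) {y : V}
    (hy : y ∈ K) {h : W → V} (hinj : Set.InjOn h (D i)) (hh : ∀ z ∈ D i, Pr2 G L K (h z) y) :
    ∃ g : W → V, Emb2 G L K w c D E m i y g ∧
      ∀ v ∈ RR2 w c D E m i, v ≠ w i → ∃ z ∈ D i, g v = h z := by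
  have hRR : ∀ v ∈ RR2 w c D E m i, v = w i ∨ v ∈ D i := by
    rintro v ⟨j, h1, h2, h3⟩
    have hj : j = i := by omega
    subst hj
    rcases h3 with h3 | h3 | ⟨h3, h4⟩
    · exact Or.inl h3
    · exact Or.inr h3
    · omega
  have hne : ∀ z ∈ D i, z ≠ w i := by
    rintro z hz rfl
    exact hl.wd i (by omega) hz
  refine ⟨fun v => if v = w i then y else h v, ?_, ?_⟩
  · refine ⟨by simp, ?_, ?_, ?_, ?_, ?_⟩
    · intro a ha b hb hab
      rcases hRR a ha with ha | ha <;> rcases hRR b hb with hb | hb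
      · rw [ha, hb]
      · exfalso
        simp only [if_pos ha, if_neg (hne b hb)] at hab
        have := (hh b hb).2.2
        rw [← hab] at this
        exact G.loopless.irrefl _ this
      · exfalso
        simp only [if_pos hb, if_neg (hne a ha)] at hab
        have := (hh a ha).2.2
        rw [hab] at this
        exact G.loopless.irrefl _ this
      · simp only [if_neg (hne a ha), if_neg (hne b hb)] at hab
        exact hinj ha hb hab
    · intro j h1 h2
      have hj : j = i := by omega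
      subst hj
      simpa using hy
    · intro j h1 h2 z hz
      have hj : j = i := by omega
      subst hj
      simp only [if_true]
      rw [if_neg (hne z hz)]
      exact ⟨(hh z hz).1, (hh z hz).2.2⟩
    · intro j h1 h2
      omega
    · intro j h1 h2
      omega
  · intro v hv hvw
    rcases hRR v hv with h1 | h1
    · exact absurd h1 hvw
    · exact ⟨v, h1, by simp [if_neg hvw]⟩

theorem emb2_step (he : Function.Injective e) (hn : ∀ v, e v < n) {ix : W → ℕ}
    (hl : Lbl2 w c D E m ix) {i : ℕ} (hi : i + 1 < m) {x' y : V}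
    (hop : Hop2 n e G L K w c D E m i x' y)
    {h : W → V} (hinj : Set.InjOn h (D i))
    (hh : ∀ z ∈ D i, Pr2 G L K (h z) y ∧ rk n e y x' < rk n e y (h z)) :
    ∃ g : W → V, Emb2 G L K w c D E m i y g ∧
      ∀ v ∈ RR2 w c D E m i, v ≠ w i →
        (0 < rk n e y (g v) ∧ rk n e y (g v) ≤ rk n e y x') ∨ ∃ z ∈ D i, g v = h z := by
  obtain ⟨hx'y, y', hyy', ⟨hx'y', g', hg', hfr⟩, hE⟩ := hop
  obtain ⟨h', hinj', hh'⟩ := exists_inj _ _ hE y
  have hne : x' ≠ y := hx'y.2.2.ne
  have hne' : x' ≠ y' := hx'y'.2.2.ne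
  have hh'2 : ∀ z ∈ E i, Pr2 G L K x' (h' z) ∧ Fr n e x' y (h' z) ∧
      rk n e x' (h' z) < rk n e x' y' := fun z hz => (Finset.mem_filter.mp (hh' z hz)).2
  -- the vertices of `E i` are between `y` and `y'`
  have hEr : ∀ z ∈ E i, 0 < rk n e y (h' z) ∧ rk n e y (h' z) < rk n e y y' := by
    intro z hz
    obtain ⟨h1, h2, h3⟩ := hh'2 z hz
    have h4 := (fr_iff he hn hne (h' z)).mp h2
    refine ⟨h4.1, ?_⟩
    -- `y'` is in the free arc of `(x', h' z)`
    have h5 : Fr n e x' (h' z) y' := h3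
    have h6 : x' ≠ h' z := h1.2.2.ne
    have h7 := (fr_iff he hn hne y').mp hyy'
    by_contra hcon
    rw [not_lt] at hcon
    rcases Nat.eq_or_lt_of_le hcon with h8 | h8
    · have := rk_inj he hn h8
      rw [this] at h3
      exact lt_irrefl _ h3
    · -- compare positions
      have e1 := hn x'
      have e2 := hn y
      have e3 := hn y'
      have e4 := hn (h' z)
      have d1 : e x' ≠ e y := fun h => hne (he h)
      unfold Fr rk at *
      split_ifs at * <;> omega
  set g : W → V := fun v => if v = w i then y else if v = c i then x' else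
    if v ∈ D i then h v else if v ∈ E i then h' v else g' v with hg
  have hrx : 0 < rk n e y x' := rk_pos he hn hne
  have gw : g (w i) = y := by simp [hg]
  have gc : g (c i) = x' := by
    have := (hl.wc i hi).symm
    simp [hg, this]
  have gl : ∀ z ∈ D i, g z = h z := by
    intro z hz
    have h1 : z ≠ w i := fun h => hl.wd i (by omega) (h ▸ hz)
    have h2 : z ≠ c i := fun h => hl.cd i hi (h ▸ hz)
    simp [hg, h1, h2, hz]
  have ge : ∀ z ∈ E i, g z = h' z := by
    intro z hz
    have h1 : z ≠ w i := fun h => hl.we i (by omega) (h ▸ hz)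
    have h2 : z ≠ c i := fun h => hl.ce i hi (h ▸ hz)
    have h3 : z ∉ D i := fun h => hl.de i hi z h hz
    simp [hg, h1, h2, h3, hz]
  have gix : ∀ v, i < ix v → g v = g' v := by
    intro v hv
    have h1 : v ≠ w i := by
      rintro rfl
      rw [hl.iw i (by omega)] at hv
      exact lt_irrefl _ hv
    have h2 : v ≠ c i := by
      rintro rfl
      rw [hl.ic i hi] at hv
      exact lt_irrefl _ hv
    have h3 : v ∉ D i := by
      intro h3
      rw [hl.id i (by omega) v h3] at hv
      exact lt_irrefl _ hv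
    have h4 : v ∉ E i := by
      intro h4
      rw [hl.ie i hi v h4] at hv
      exact lt_irrefl _ hv
    simp [hg, h1, h2, h3, h4]
  have gwj : ∀ j, i < j → j < m → g (w j) = g' (w j) := by
    intro j h1 h2
    apply gix
    rw [hl.iw j h2]
    exact h1
  have gcj : ∀ j, i < j → j + 1 < m → g (c j) = g' (c j) := by
    intro j h1 h2
    apply gix
    rw [hl.ic j h2]
    exact h1
  have hRix : ∀ v ∈ RR2 w c D E m (i + 1), i < ix v := by
    rintro v ⟨j, h1, h2, h3⟩
    rcases h3 with rfl | h3 | ⟨h3, rfl | h4⟩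
    · rw [hl.iw j h2]
      omega
    · rw [hl.id j h2 v h3]
      omega
    · rw [hl.ic j h3]
      omega
    · rw [hl.ie j h3 v h4]
      omega
  have hRfr : ∀ v ∈ RR2 w c D E m (i + 1),
      rk n e y y' ≤ rk n e y (g' v) ∧ rk n e y (g' v) < rk n e y x' := by
    intro v hv
    have h7 := (fr_iff he hn hne y').mp hyy'
    by_cases hvw : v = w (i + 1)
    · rw [hvw, hg'.gw]
      exact ⟨le_refl _, h7.2⟩
    · have h1 := hfr v hv hvw
      have h2 := (fr_iff he hn hne (g' v)).mp (fr_trans_right hyy' h1)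
      refine ⟨?_, h2.2⟩
      have e1 := hn x'
      have e2 := hn y
      have e3 := hn y'
      have e4 := hn (g' v)
      have d1 : e x' ≠ e y := fun h => hne (he h)
      have d2 : e x' ≠ e y' := fun h => hne' (he h)
      clear hh'2 hEr
      unfold Fr rk at *
      split_ifs at * <;> omega
  have hyy'r : 0 < rk n e y y' := ((fr_iff he hn hne y').mp hyy').1
  have hyy'x : rk n e y y' < rk n e y x' := ((fr_iff he hn hne y').mp hyy').2
  have hRR : ∀ v ∈ RR2 w c D E m i,
      v = w i ∨ v = c i ∨ v ∈ D i ∨ v ∈ E i ∨ v ∈ RR2 w c D E m (i + 1) := by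
    rintro v ⟨j, h1, h2, h3⟩
    rcases Nat.eq_or_lt_of_le h1 with rfl | h1
    · rcases h3 with h3 | h3 | ⟨h3, h4 | h4⟩
      · exact Or.inl h3
      · exact Or.inr (Or.inr (Or.inl h3))
      · exact Or.inr (Or.inl h4)
      · exact Or.inr (Or.inr (Or.inr (Or.inl h4)))
    · exact Or.inr (Or.inr (Or.inr (Or.inr ⟨j, h1, h2, h3⟩)))
  refine ⟨g, ⟨gw, ?_, ?_, ?_, ?_, ?_⟩, ?_⟩
  · intro a ha b hb hab
    have hcl : ∀ v ∈ RR2 w c D E m i,
        (v = w i ∧ rk n e y (g v) = 0) ∨ (v = c i ∧ rk n e y (g v) = rk n e y x') ∨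
        (v ∈ D i ∧ g v = h v ∧ rk n e y x' < rk n e y (g v)) ∨
        (v ∈ E i ∧ g v = h' v ∧ 0 < rk n e y (g v) ∧ rk n e y (g v) < rk n e y y') ∨
        (v ∈ RR2 w c D E m (i + 1) ∧ g v = g' v ∧ rk n e y y' ≤ rk n e y (g v) ∧
          rk n e y (g v) < rk n e y x') := by
      intro v hv
      rcases hRR v hv with h1 | h1 | h1 | h1 | h1
      · left
        refine ⟨h1, ?_⟩
        rw [h1, gw, rk_self]
      · right; left
        refine ⟨h1, ?_⟩
        rw [h1, gc]
      · right; right; left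
        refine ⟨h1, gl v h1, ?_⟩
        rw [gl v h1]
        exact (hh v h1).2
      · right; right; right; left
        refine ⟨h1, ge v h1, ?_⟩
        rw [ge v h1]
        exact hEr v h1
      · right; right; right; right
        have h2 := gix v (hRix v h1)
        rw [h2]
        exact ⟨h1, rfl, hRfr v h1⟩
    have hr : rk n e y (g a) = rk n e y (g b) := by rw [hab]
    rcases hcl a ha with ⟨h1, h2⟩ | ⟨h1, h2⟩ | ⟨h1, h2, h3⟩ | ⟨h1, h2, h3, h4⟩ |
        ⟨h1, h2, h3, h4⟩ <;>
      rcases hcl b hb with ⟨k1, k2⟩ | ⟨k1, k2⟩ | ⟨k1, k2, k3⟩ | ⟨k1, k2, k3, k4⟩ |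
        ⟨k1, k2, k3, k4⟩
    · rw [h1, k1]
    · omega
    · omega
    · omega
    · omega
    · omega
    · rw [h1, k1]
    · omega
    · omega
    · omega
    · omega
    · omega
    · rw [h2, k2] at hab
      exact hinj h1 k1 hab
    · omega
    · omega
    · omega
    · omega
    · omega
    · rw [h2, k2] at hab
      exact hinj' h1 k1 hab
    · omega
    · omega
    · omega
    · omega
    · omega
    · rw [h2, k2] at hab
      exact hg'.inj h1 k1 hab
  · intro j h1 h2
    rcases Nat.eq_or_lt_of_le h1 with rfl | h1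
    · rw [gw]
      exact hx'y.2.1
    · rw [gwj j h1 h2]
      exact hg'.wK j h1 h2
  · intro j h1 h2 z hz
    rcases Nat.eq_or_lt_of_le h1 with rfl | h1
    · rw [gw, gl z hz]
      exact ⟨(hh z hz).1.1, (hh z hz).1.2.2⟩
    · rw [gwj j h1 h2, gix z (by rw [hl.id j h2 z hz]; exact h1)]
      exact hg'.lab j h1 h2 z hz
  · intro j h1 h2
    rcases Nat.eq_or_lt_of_le h1 with rfl | h1
    · rw [gc, gw, gwj (i + 1) (by omega) h2, hg'.gw]
      exact ⟨hx'y.1, hx'y.2.2, hx'y'.2.2⟩
    · rw [gwj j h1 (by omega), gwj (j + 1) (by omega) h2, gcj j h1 h2]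
      exact hg'.cc j h1 h2
  · intro j h1 h2 z hz
    rcases Nat.eq_or_lt_of_le h1 with rfl | h1
    · rw [gc, ge z hz]
      exact ⟨(hh'2 z hz).1.2.1, (hh'2 z hz).1.2.2⟩
    · rw [gcj j h1 h2, gix z (by rw [hl.ie j h2 z hz]; exact h1)]
      exact hg'.ee j h1 h2 z hz
  · intro v hv hvw
    rcases hRR v hv with h1 | h1 | h1 | h1 | h1
    · exact absurd h1 hvw
    · left
      rw [h1, gc]
      exact ⟨hrx, le_refl _⟩
    · exact Or.inr ⟨v, h1, gl v h1⟩
    · left
      rw [ge v h1]
      have := hEr v h1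
      omega
    · left
      rw [gix v (hRix v h1)]
      have := hRfr v h1
      omega

theorem bad_good2 (he : Function.Injective e) (hn : ∀ v, e v < n) {ix : W → ℕ}
    (hl : Lbl2 w c D E m ix) : ∀ t i, i + t + 1 = m →
      bad (Pr2 G L K) (Good2 n e G L K w c D E m i) ≤
        (∑ j ∈ Finset.Ico i (m - 1), ((E j).card + 1)) * L.card +
        (∑ j ∈ Finset.Ico i m, (D j).card + t) * K.card := by
  have hP : ∀ x y, Pr2 G L K x y → x ≠ y := fun x y h => h.2.2.ne
  have hK : ∀ x y, Pr2 G L K x y → y ∈ K := fun x y h => h.2.1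
  intro t
  induction t with
  | zero =>
    intro i hi
    have h1 : bad (Pr2 G L K) (Good2 n e G L K w c D E m i) ≤ (D i).card * K.card := by
      apply del_end2 he hn hK hP
      intro x y hxy hc
      obtain ⟨h, hinj, hh⟩ := exists_inj _ _ hc y
      obtain ⟨g, hg, hg2⟩ := emb2_last (G := G) (L := L) hl (by omega : i + 1 = m) hxy.2.1 hinj
        (fun z hz => (Finset.mem_filter.mp (hh z hz)).2.1)
      refine ⟨hxy, g, hg, ?_⟩
      intro v hv hvw
      obtain ⟨z, hz, hgz⟩ := hg2 v hv hvw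
      rw [hgz]
      exact (Finset.mem_filter.mp (hh z hz)).2.2
    have h3 : Finset.Ico i m = {i} := by
      ext j
      rw [Finset.mem_Ico, Finset.mem_singleton]
      omega
    rw [h3, Finset.sum_singleton, add_zero]
    omega
  | succ t ih =>
    intro i hi
    have h1 := ih (i + 1) (by omega)
    have h2 : bad (Pr2 G L K) (Hop2 n e G L K w c D E m i) ≤
        bad (Pr2 G L K) (Good2 n e G L K w c D E m (i + 1)) + ((E i).card + 1) * L.card := by
      apply del_right2 he hn (fun x y h => h.1) (fun x y h => h.1)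
      intro x y y' hxy hfr hgood hcard
      exact ⟨hxy, y', hfr, hgood, hcard⟩
    have h3 : bad (Pr2 G L K) (Good2 n e G L K w c D E m i) ≤
        bad (Pr2 G L K) (Hop2 n e G L K w c D E m i) + ((D i).card + 1) * K.card := by
      apply del_left2 he hn hK hP (fun x y h => h.1)
      intro x y x' hxy hfr hhop hc
      obtain ⟨h, hinj, hh⟩ := exists_inj _ _ hc y
      obtain ⟨g, hg, hg2⟩ := emb2_step he hn hl (by omega : i + 1 < m) hhop hinj
        (fun z hz => ⟨(Finset.mem_filter.mp (hh z hz)).2.1,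
          (Finset.mem_filter.mp (hh z hz)).2.2.2⟩)
      refine ⟨hxy, g, hg, ?_⟩
      intro v hv hvw
      have hne := hxy.2.2.ne
      rcases hg2 v hv hvw with h5 | ⟨z, hz, hgz⟩
      · rw [fr_iff he hn hne]
        rw [fr_iff he hn hne] at hfr
        exact ⟨h5.1, lt_of_le_of_lt h5.2 hfr.2⟩
      · rw [hgz]
        exact (Finset.mem_filter.mp (hh z hz)).2.2.1
    rw [Finset.sum_eq_sum_Ico_succ_bot (by omega : i < m),
      Finset.sum_eq_sum_Ico_succ_bot (by omega : i < m - 1)]
    calc bad (Pr2 G L K) (Good2 n e G L K w c D E m i)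
        ≤ (∑ j ∈ Finset.Ico (i + 1) (m - 1), ((E j).card + 1)) * L.card +
          (∑ j ∈ Finset.Ico (i + 1) m, (D j).card + t) * K.card +
          ((E i).card + 1) * L.card + ((D i).card + 1) * K.card := by omega
      _ = _ := by ring

/-- At least two blocks. -/
theorem exists_emb2 (he : Function.Injective e) (hn : ∀ v, e v < n) {ix : W → ℕ}
    (hl : Lbl2 w c D E m ix) (hm : 2 ≤ m)
    (h : (∑ j ∈ Finset.range (m - 1), ((E j).card + 1)) * L.card +
        (∑ j ∈ Finset.range m, (D j).card + (m - 2)) * K.card <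
      (univ.filter fun p : V × V => Pr2 G L K p.1 p.2).card) :
    ∃ y g, Emb2 G L K w c D E m 0 y g := by
  have h1 := bad_good2 (G := G) (L := L) (K := K) he hn hl (m - 2) 1 (by omega)
  have h2 : bad (Pr2 G L K) (Hop2 n e G L K w c D E m 0) ≤
      bad (Pr2 G L K) (Good2 n e G L K w c D E m 1) + ((E 0).card + 1) * L.card := by
    apply del_right2 he hn (fun x y h => h.1) (fun x y h => h.1)
    intro x y y' hxy hfr hgood hcard
    exact ⟨hxy, y', hfr, hgood, hcard⟩
  rw [Finset.range_eq_Ico, Finset.range_eq_Ico,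
    Finset.sum_eq_sum_Ico_succ_bot (by omega : 0 < m),
    Finset.sum_eq_sum_Ico_succ_bot (by omega : 0 < m - 1)] at h
  obtain ⟨x, y, hhop, hc⟩ := exists_start2 (P := Pr2 G L K) (Q := Hop2 n e G L K w c D E m 0)
    he hn (fun x y h => h.2.1) (fun x y h => h.1) (D 0).card (by
      calc bad (Pr2 G L K) (Hop2 n e G L K w c D E m 0) + (D 0).card * K.card
          ≤ (∑ j ∈ Finset.Ico (0 + 1) (m - 1), ((E j).card + 1)) * L.card +
            (∑ j ∈ Finset.Ico (0 + 1) m, (D j).card + (m - 2)) * K.card +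
            ((E 0).card + 1) * L.card + (D 0).card * K.card := by
              rw [zero_add]
              omega
        _ = ((E 0).card + 1 + ∑ j ∈ Finset.Ico (0 + 1) (m - 1), ((E j).card + 1)) * L.card +
            ((D 0).card + ∑ j ∈ Finset.Ico (0 + 1) m, (D j).card + (m - 2)) * K.card := by ring
        _ < _ := h)
  obtain ⟨h, hinj, hh⟩ := exists_inj _ _ hc y
  obtain ⟨g, hg, -⟩ := emb2_step he hn hl (by omega : 0 + 1 < m) hhop hinj
    (fun z hz => ⟨(Finset.mem_filter.mp (hh z hz)).2.1,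
      (Finset.mem_filter.mp (hh z hz)).2.2⟩)
  exact ⟨y, g, hg⟩

/-- One block. -/
theorem exists_emb2_one {ix : W → ℕ} (hl : Lbl2 w c D E m ix) (hm : m = 1) {y : V} (hy : y ∈ K)
    (h : (D 0).card ≤ (univ.filter fun v => Pr2 G L K v y).card) :
    ∃ g, Emb2 G L K w c D E m 0 y g := by
  obtain ⟨h, hinj, hh⟩ := exists_inj _ _ h y
  obtain ⟨g, hg, -⟩ := emb2_last (G := G) (L := L) hl (by omega : 0 + 1 = m) hy hinj
    (fun z hz => (Finset.mem_filter.mp (hh z hz)).2)
  exact ⟨g, hg⟩

end zig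

end Pool.Agent.LKC
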