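import Pool.Agent.LKC.Finish
import Pool.Agent.LKC.TreeS2
import Pool.Agent.LKC.Zig2

/-!
# Embedding trees whose non-leaves form a caterpillar (helper60)
-/

set_option autoImplicit false
set_option linter.unusedSectionVars false

namespace Pool.Agent.LKC

open Finset
open scoped Classical
open Pool.Agent.LKS (exists_closer closer_unique)

variable {V W : Type*} [Fintype V] [Fintype W]

/-- The vertices outside `L` with at least `γ` neighbours in `L`. -/
noncomputable def rich (G : SimpleGraph V) (L : Finset V) (γ : ℕ) : Finset V :=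
  (univ \ L).filter fun y => γ ≤ (G.neighborFinset y ∩ L).card

/-- The number of pairs with the second vertex in `L` or rich. -/
theorem card_Pr2 (G : SimpleGraph V) (L : Finset V) {k γ : ℕ} (hL : ∀ x ∈ L, k ≤ G.degree x) :
    k * L.card ≤ (univ.filter fun p : V × V => Pr2 G L (L ∪ rich G L γ) p.1 p.2).card +
      (γ - 1) * (univ \ (L ∪ rich G L γ)).card := by
  refine (card_Pr G L hL).trans ?_
  have h1 : (univ.filter fun p : V × V => Pr G L p.1 p.2) ⊆
      (univ.filter fun p : V × V => Pr2 G L (L ∪ rich G L γ) p.1 p.2) ∪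
      (univ.filter fun p : V × V => Pr G L p.1 p.2 ∧ p.2 ∈ univ \ (L ∪ rich G L γ)) := by
    intro p hp
    rw [Finset.mem_filter] at hp
    rw [Finset.mem_union, Finset.mem_filter, Finset.mem_filter]
    by_cases h : p.2 ∈ L ∪ rich G L γ
    · exact Or.inl ⟨Finset.mem_univ _, hp.2.1, h, hp.2.2⟩
    · exact Or.inr ⟨Finset.mem_univ _, hp.2, Finset.mem_sdiff.mpr ⟨Finset.mem_univ _, h⟩⟩
  refine (Finset.card_le_card h1).trans ((Finset.card_union_le _ _).trans ?_)
  apply Nat.add_le_add_left
  apply card_le_right_on
  · intro p hp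
    rw [Finset.mem_filter] at hp
    exact hp.2.2
  · intro y hy
    rw [Finset.mem_sdiff, Finset.mem_union, not_or] at hy
    have h2 : (univ.filter fun x => (x, y) ∈ univ.filter fun p : V × V =>
        Pr G L p.1 p.2 ∧ p.2 ∈ univ \ (L ∪ rich G L γ)) ⊆ G.neighborFinset y ∩ L := by
      intro x hx
      rw [Finset.mem_filter, Finset.mem_filter] at hx
      rw [Finset.mem_inter, SimpleGraph.mem_neighborFinset]
      exact ⟨hx.2.2.1.2.symm, hx.2.2.1.1⟩
    have h3 := Finset.card_le_card h2
    have h4 : ¬ γ ≤ (G.neighborFinset y ∩ L).card := by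
      intro h
      apply hy.2.2
      unfold rich
      rw [Finset.mem_filter, Finset.mem_sdiff]
      exact ⟨⟨Finset.mem_univ _, hy.2.1⟩, h⟩
    omega

variable {G : SimpleGraph V} {T : SimpleGraph W}

/-- The total number of labels. -/
theorem sum_lab2 {c : ℕ → W} {D : ℕ → Finset W} {m m' : ℕ} {ix : W → ℕ}
    (hic : ∀ j, j < m' → ix (c j) = j) (hid : ∀ j, j < m → ∀ z ∈ D j, ix z = j)
    (hcd : ∀ j, j < m' → j < m → c j ∉ D j) (A₀ : Finset W)
    (h1 : ∀ j, j < m → D j ⊆ A₀) (h2 : ∀ j, j < m' → c j ∈ A₀) :
    ∑ j ∈ range m, (D j).card + m' ≤ A₀.card := by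
  have h3 : ((range m).biUnion fun j => D j).card = ∑ j ∈ range m, (D j).card := by
    apply Finset.card_biUnion
    intro i hi j hj hij
    have hi' : i < m := Finset.mem_range.mp hi
    have hj' : j < m := Finset.mem_range.mp hj
    show Disjoint (D i) (D j)
    rw [Finset.disjoint_left]
    intro z hz hz'
    exact hij ((hid i hi' z hz).symm.trans (hid j hj' z hz'))
  have h4 : ((range m').image c).card = m' := by
    rw [Finset.card_image_of_injOn, Finset.card_range]
    intro i hi j hj hij
    have hi' : i < m' := Finset.mem_range.mp (Finset.mem_coe.mp hi)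
    have hj' : j < m' := Finset.mem_range.mp (Finset.mem_coe.mp hj)
    rw [← hic i hi', ← hic j hj', hij]
  have h5 : Disjoint ((range m).biUnion fun j => D j) ((range m').image c) := by
    rw [Finset.disjoint_left]
    intro z hz hz'
    rw [Finset.mem_biUnion] at hz
    rw [Finset.mem_image] at hz'
    obtain ⟨i, hi, hzi⟩ := hz
    obtain ⟨j, hj, rfl⟩ := hz'
    rw [Finset.mem_range] at hi hj
    have h6 : j = i := (hic j hj).symm.trans (hid i hi _ hzi)
    subst h6
    exact hcd j hj hi hzi
  have h6 : ((range m).biUnion fun j => D j) ∪ ((range m').image c) ⊆ A₀ := by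
    intro z hz
    rcases Finset.mem_union.mp hz with hz | hz
    · rw [Finset.mem_biUnion] at hz
      obtain ⟨i, hi, hzi⟩ := hz
      exact h1 i (Finset.mem_range.mp hi) hzi
    · rw [Finset.mem_image] at hz
      obtain ⟨j, hj, rfl⟩ := hz
      exact h2 j (Finset.mem_range.mp hj)
  calc ∑ j ∈ range m, (D j).card + m'
      = ((range m).biUnion fun j => D j).card + ((range m').image c).card := by rw [h3, h4]
    _ = (((range m).biUnion fun j => D j) ∪ ((range m').image c)).card :=
        (Finset.card_union_of_disjoint h5).symm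
    _ ≤ _ := Finset.card_le_card h6

theorem nonleaves_eq (T : SimpleGraph W) (A : Finset W) :
    nonleaves T = (A.filter fun z => 2 ≤ T.degree z).card + (Bp T A).card := by
  have h1 : (univ.filter fun v : W => 2 ≤ T.degree v) =
      (A.filter fun z => 2 ≤ T.degree z) ∪ Bp T A := by
    ext v
    rw [Finset.mem_union, mem_Bp, Finset.mem_filter, Finset.mem_filter]
    by_cases hv : v ∈ A <;> simp [hv]
  have h2 : Disjoint (A.filter fun z => 2 ≤ T.degree z) (Bp T A) := by
    rw [Finset.disjoint_left]
    intro v hv hv'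
    rw [Finset.mem_filter] at hv
    exact (mem_Bp.mp hv').1 hv.1
  unfold nonleaves
  rw [h1, Finset.card_union_of_disjoint h2]

/-- The case of a star with its centre in `A`. -/
theorem star_case (hT : T.IsTree) {k : ℕ} (hW : Fintype.card W = k + 1) {A : Finset W}
    (hA : ∀ a b, T.Adj a b → (a ∈ A ↔ b ∉ A)) (hB : ¬ (Bp T A).Nonempty)
    (L : Finset V) (hL : ∀ x ∈ L, k ≤ G.degree x) (hne : L.Nonempty)
    (hcount : (nonleaves T - 2) * L.card + (A.card - 1) * (univ \ L).card < k * L.card) :
    ∃ f : W → V, Function.Injective f ∧ ∀ u v, T.Adj u v → G.Adj (f u) (f v) := by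
  have hWne : Nonempty W := Fintype.card_pos_iff.mp (by omega)
  obtain ⟨w₀⟩ := hWne
  refine main_cat hT hW hA ⟨w₀, w₀, SimpleGraph.Walk.nil, SimpleGraph.Walk.IsPath.nil, ?_⟩ L hL
    hne hcount
  intro z hz hz2
  exact absurd ⟨z, mem_Bp.mpr ⟨hz, hz2⟩⟩ hB

/-- The embedding theorem for trees whose non-leaves form a caterpillar. -/
theorem main_lob (hT : T.IsTree) {k : ℕ} (hW : Fintype.card W = k + 1) {A : Finset W}
    (hA : ∀ a b, T.Adj a b → (a ∈ A ↔ b ∉ A))
    (hpath : ∃ (a b : W) (p : T.Walk a b), p.IsPath ∧ Cov T p)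
    (L : Finset V) (hL : ∀ x ∈ L, k ≤ G.degree x) (hne : L.Nonempty)
    (hcount : (nonleaves T - 2) * L.card + (A.card + bare T A - 1) * (univ \ L).card <
      k * L.card) :
    ∃ f : W → V, Function.Injective f ∧ ∀ u v, T.Adj u v → G.Adj (f u) (f v) := by
  by_cases hB : (Bp T A).Nonempty
  swap
  · refine star_case hT hW hA hB L hL hne ?_
    refine lt_of_le_of_lt (Nat.add_le_add_left (Nat.mul_le_mul_right _ ?_) _) hcount
    omega
  set n := Fintype.card V with hn_def
  set e : V → ℕ := fun v => (Fintype.equivFin V v : ℕ) with he_def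
  have he : Function.Injective e := by
    intro a b hab
    exact (Fintype.equivFin V).injective (Fin.ext hab)
  have hn : ∀ v, e v < n := fun v => (Fintype.equivFin V v).2
  obtain ⟨m, w, c, hm1, hw, hc, hBp, hAp⟩ := exists_blocks2 hT hA hB hpath
  set r := w 0 with hr_def
  have hr : r ∈ Bp T A := (hw 0 (by omega)).1
  have hrA : r ∉ A := (mem_Bp.mp hr).1
  have hwA : ∀ i, i < m → w i ∉ A := fun i hi => (mem_Bp.mp (hw i hi).1).1
  set A' : Finset W := A.filter fun z => 2 ≤ T.degree z with hA'
  set D : ℕ → Finset W := fun j => univ.filter fun z => z ∈ A ∧ 2 ≤ T.degree z ∧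
    T.Adj z (w j) ∧ ∀ i, i + 1 < m → z ≠ c i with hDdef
  set E : ℕ → Finset W := fun j => univ.filter fun z => z ∈ Bp T A ∧ T.Adj z (c j) ∧
    ∀ i, i < m → z ≠ w i with hEdef
  have hmemD : ∀ j z, z ∈ D j ↔ z ∈ A ∧ 2 ≤ T.degree z ∧ T.Adj z (w j) ∧
      ∀ i, i + 1 < m → z ≠ c i := by
    intro j z
    rw [hDdef]
    simp only [Finset.mem_filter, Finset.mem_univ, true_and]
  have hmemE : ∀ j z, z ∈ E j ↔ z ∈ Bp T A ∧ T.Adj z (c j) ∧ ∀ i, i < m → z ≠ w i := by
    intro j z
    rw [hEdef]
    simp only [Finset.mem_filter, Finset.mem_univ, true_and]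
  -- distances
  have hDd : ∀ j, j < m → ∀ z ∈ D j, T.dist r z = 2 * j + 1 := by
    intro j hj z hz
    obtain ⟨hzA, hzd, hadj, hzc⟩ := (hmemD j z).mp hz
    have h1 := (hw j hj).2
    rcases hT.dist_eq_dist_add_one_of_adj r hadj with h2 | h2
    · omega
    · exfalso
      have hj0 : 1 ≤ j := by
        by_contra h
        omega
      have h3 := hc (j - 1) (by omega)
      have h4 : j - 1 + 1 = j := by omega
      rw [h4] at h3
      refine hzc (j - 1) (by omega) (closer_unique hT r hadj.symm h3.2.2.1.symm h2 ?_)
      omega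
  have hEd : ∀ j, j + 1 < m → ∀ z ∈ E j, T.dist r z = 2 * j + 2 := by
    intro j hj z hz
    obtain ⟨hzB, hadj, hzw⟩ := (hmemE j z).mp hz
    have h1 := (hc j hj).2.2.2
    rcases hT.dist_eq_dist_add_one_of_adj r hadj with h2 | h2
    · omega
    · exfalso
      have h3 := hw j (by omega)
      refine hzw j (by omega) (closer_unique hT r hadj.symm (hc j hj).2.1 h2 ?_)
      omega
  set ix : W → ℕ := fun v => if v ∈ Bp T A ∧ ∀ i, i < m → v ≠ w i then (T.dist r v - 1) / 2
    else T.dist r v / 2 with hix
  have hixA : ∀ v ∈ A, ix v = T.dist r v / 2 := by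
    intro v hv
    rw [hix]
    simp only
    rw [if_neg]
    intro h
    exact (mem_Bp.mp h.1).1 hv
  have hl : Lbl2 w c D E m ix := by
    refine ⟨?_, ?_, ?_, ?_, ?_, ?_, ?_, ?_, ?_, ?_⟩
    · intro j hj
      rw [hix]
      simp only
      rw [if_neg (fun h => h.2 j hj rfl), (hw j hj).2]
      omega
    · intro j hj
      rw [hixA _ (hc j hj).1, (hc j hj).2.2.2]
      omega
    · intro j hj z hz
      rw [hixA _ ((hmemD j z).mp hz).1, hDd j hj z hz]
      omega
    · intro j hj z hz
      have h1 := (hmemE j z).mp hz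
      rw [hix]
      simp only
      rw [if_pos ⟨h1.1, h1.2.2⟩, hEd j hj z hz]
      omega
    · intro j hj h
      exact hwA j (by omega) (h ▸ (hc j hj).1)
    · intro j hj h
      exact hwA j hj ((hmemD j _).mp h).1
    · intro j hj h
      exact ((hmemE j _).mp h).2.2 j (by omega) rfl
    · intro j hj h
      exact ((hmemD j _).mp h).2.2.2 j hj rfl
    · intro j hj h
      exact (mem_Bp.mp ((hmemE j _).mp h).1).1 (hc j hj).1
    · intro j hj z hz hz'
      exact (mem_Bp.mp ((hmemE j z).mp hz').1).1 ((hmemD j z).mp hz).1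
  -- counting the labels
  have ht : nonleaves T = A'.card + (Bp T A).card := nonleaves_eq T A
  have hcA' : ∀ j, j + 1 < m → c j ∈ A' := by
    intro j hj
    rw [hA', Finset.mem_filter]
    refine ⟨(hc j hj).1, two_le_degree (hc j hj).2.1 (hc j hj).2.2.1 ?_⟩
    intro h
    have h1 := (hw j (by omega)).2
    have h2 := (hw (j + 1) hj).2
    rw [h] at h1
    omega
  have hsumD : ∑ j ∈ range m, (D j).card + (m - 1) ≤ A'.card := by
    apply sum_lab2 (c := c) (ix := ix) (fun j hj => hl.ic j (by omega)) hl.id
      (fun j hj _ => hl.cd j (by omega)) A'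
    · intro j _ z hz
      rw [hA', Finset.mem_filter]
      exact ⟨((hmemD j z).mp hz).1, ((hmemD j z).mp hz).2.1⟩
    · intro j hj
      exact hcA' j (by omega)
  have hsumE : ∑ j ∈ range (m - 1), (E j).card + m ≤ (Bp T A).card := by
    apply sum_lab2 (c := w) (ix := ix) (fun j hj => hl.iw j hj)
      (fun j hj => hl.ie j (by omega)) (fun j hj hj' => hl.we j (by omega)) (Bp T A)
    · intro j _ z hz
      exact ((hmemE j z).mp hz).1
    · intro j hj
      exact (hw j hj).1
  set γ := A.card + bare T A with hγ
  set K := L ∪ rich G L γ with hK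
  have hPr : k * L.card ≤ (univ.filter fun p : V × V => Pr2 G L K p.1 p.2).card +
      (γ - 1) * (univ \ K).card := card_Pr2 G L (γ := γ) hL
  have hKL : L ⊆ K := Finset.subset_union_left
  have hKcard : K.card + (univ \ K).card = L.card + (univ \ L).card := by
    have h1 := Finset.card_sdiff_add_card_eq_card (Finset.subset_univ K)
    have h2 := Finset.card_sdiff_add_card_eq_card (Finset.subset_univ L)
    omega
  have hKL2 : L.card ≤ K.card := Finset.card_le_card hKL
  -- the embedding of the blocks
  obtain ⟨y, g, hg⟩ : ∃ y g, Emb2 G L K w c D E m 0 y g := by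
    have hA'γ : A'.card ≤ γ := by
      have : A'.card ≤ A.card := Finset.card_filter_le _ _
      omega
    rcases Nat.lt_or_ge m 2 with hm2 | hm2
    · have hm : m = 1 := by omega
      have hD0 : (D 0).card ≤ A'.card := by
        have h1 := hsumD
        rw [hm, Finset.sum_range_one] at h1
        omega
      by_cases hA'0 : A'.card = 0
      · obtain ⟨y, hy⟩ := hne
        obtain ⟨g, hg⟩ := exists_emb2_one (G := G) (L := L) hl hm (hKL hy) (by omega)
        exact ⟨y, g, hg⟩
      · have hBp1 : (Bp T A).card ≤ 1 := by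
          apply Finset.card_le_one.mpr
          intro x hx y hy
          have h1 : ∀ z ∈ Bp T A, z = w 0 := by
            intro z hz
            rcases hBp z hz with ⟨j, hj, h⟩ | ⟨j, hj, h⟩
            · have : j = 0 := by omega
              rw [h, this]
            · omega
          rw [h1 x hx, h1 y hy]
        have hex : ∃ y ∈ K, (D 0).card ≤ (univ.filter fun v => Pr2 G L K v y).card := by
          by_contra hcon
          push Not at hcon
          have h1 : (univ.filter fun p : V × V => Pr2 G L K p.1 p.2).card ≤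
              (A'.card - 1) * K.card := by
            apply card_le_right_on
            · intro p hp
              rw [Finset.mem_filter] at hp
              exact hp.2.2.1
            · intro y hy
              have h2 := hcon y hy
              have h3 : (univ.filter fun x => (x, y) ∈
                  univ.filter fun p : V × V => Pr2 G L K p.1 p.2) =
                  univ.filter fun v => Pr2 G L K v y := by
                ext x
                simp
              rw [h3]
              omega
          have h4 : (A'.card - 1) * K.card + (γ - 1) * (univ \ K).card ≤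
              (nonleaves T - 2) * L.card + (γ - 1) * (univ \ L).card := by
            have h5 : nonleaves T - 2 = A'.card - 1 := by
              have : 1 ≤ (Bp T A).card := Finset.card_pos.mpr hB
              omega
            rw [h5]
            have h6 : A'.card - 1 ≤ γ - 1 := by omega
            obtain ⟨q, hq⟩ : ∃ q, K.card = L.card + q := ⟨K.card - L.card, by omega⟩
            have h7 : (univ \ L).card = q + (univ \ K).card := by omega
            rw [hq, h7]
            calc (A'.card - 1) * (L.card + q) + (γ - 1) * (univ \ K).card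
                = (A'.card - 1) * L.card + ((A'.card - 1) * q + (γ - 1) * (univ \ K).card) := by
                  ring
              _ ≤ (A'.card - 1) * L.card + ((γ - 1) * q + (γ - 1) * (univ \ K).card) := by
                  have := Nat.mul_le_mul_right q h6
                  omega
              _ = _ := by ring
          omega
        obtain ⟨y, hyK, hy⟩ := hex
        obtain ⟨g, hg⟩ := exists_emb2_one (G := G) (L := L) hl hm hyK hy
        exact ⟨y, g, hg⟩
    · obtain ⟨y, g, hg⟩ := exists_emb2 (G := G) (L := L) (K := K) he hn hl hm2 (by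
        have hcA : 1 ≤ A'.card := Finset.card_pos.mpr ⟨_, hcA' 0 (by omega)⟩
        have hb1 : 1 ≤ (Bp T A).card := Finset.card_pos.mpr hB
        have h1 : ∑ j ∈ range (m - 1), ((E j).card + 1) ≤ (Bp T A).card - 1 := by
          rw [Finset.sum_add_distrib, Finset.sum_const, Finset.card_range, smul_eq_mul, mul_one]
          omega
        have h2 : ∑ j ∈ range m, (D j).card + (m - 2) ≤ A'.card - 1 := by omega
        have h3 := Nat.mul_le_mul_right L.card h1
        have h4 := Nat.mul_le_mul_right K.card h2
        have h5 : ((Bp T A).card - 1) * L.card + (A'.card - 1) * K.card +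
            (γ - 1) * (univ \ K).card ≤
            (nonleaves T - 2) * L.card + (γ - 1) * (univ \ L).card := by
          have h6 : nonleaves T - 2 = ((Bp T A).card - 1) + (A'.card - 1) := by omega
          rw [h6]
          have h6 : A'.card - 1 ≤ γ - 1 := by omega
          obtain ⟨q, hq⟩ : ∃ q, K.card = L.card + q := ⟨K.card - L.card, by omega⟩
          have h7 : (univ \ L).card = q + (univ \ K).card := by omega
          rw [hq, h7]
          calc ((Bp T A).card - 1) * L.card + (A'.card - 1) * (L.card + q) +
                (γ - 1) * (univ \ K).card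
              = ((Bp T A).card - 1) * L.card + (A'.card - 1) * L.card +
                ((A'.card - 1) * q + (γ - 1) * (univ \ K).card) := by ring
            _ ≤ ((Bp T A).card - 1) * L.card + (A'.card - 1) * L.card +
                ((γ - 1) * q + (γ - 1) * (univ \ K).card) := by
                have := Nat.mul_le_mul_right q h6
                omega
            _ = _ := by ring
        omega)
      exact ⟨y, g, hg⟩
  -- the non-leaves
  have hBc : ∀ z ∈ Bp T A, (∃ j, j < m ∧ z = w j) ∨ ∃ j, j + 1 < m ∧ z ∈ E j := by
    intro z hz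
    by_cases h : ∃ j, j < m ∧ z = w j
    · exact Or.inl h
    · right
      rcases hBp z hz with h1 | ⟨j, hj, h1⟩
      · exact absurd h1 h
      · refine ⟨j, hj, (hmemE j z).mpr ⟨hz, h1, ?_⟩⟩
        intro i hi h2
        exact h ⟨i, hi, h2⟩
  have hAc : ∀ z ∈ A, 2 ≤ T.degree z →
      (∃ j, j + 1 < m ∧ z = c j) ∨ ∃ j, j < m ∧ z ∈ D j := by
    intro z hz hzd
    by_cases h : ∃ j, j + 1 < m ∧ z = c j
    · exact Or.inl h
    · right
      rcases hAp z hz hzd with h1 | ⟨j, hj, h1⟩
      · exact absurd h1 h
      · refine ⟨j, hj, (hmemD j z).mpr ⟨hz, hzd, h1, ?_⟩⟩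
        intro i hi h2
        exact h ⟨i, hi, h2⟩
  have hRR : ∀ v, 2 ≤ T.degree v → v ∈ RR2 w c D E m 0 := by
    intro v hv
    by_cases hvA : v ∈ A
    · rcases hAc v hvA hv with ⟨j, hj, h⟩ | ⟨j, hj, h⟩
      · exact ⟨j, Nat.zero_le _, by omega, Or.inr (Or.inr ⟨hj, Or.inl h⟩)⟩
      · exact ⟨j, Nat.zero_le _, hj, Or.inr (Or.inl h)⟩
    · rcases hBc v (mem_Bp.mpr ⟨hvA, hv⟩) with ⟨j, hj, h⟩ | ⟨j, hj, h⟩
      · exact ⟨j, Nat.zero_le _, hj, Or.inl h⟩
      · exact ⟨j, Nat.zero_le _, by omega, Or.inr (Or.inr ⟨hj, Or.inr h⟩)⟩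
  -- edges between non-leaves
  have hedge : ∀ u v, u ∈ A → 2 ≤ T.degree u → v ∈ Bp T A → T.Adj u v →
      G.Adj (g u) (g v) := by
    intro u v huA hud hvB huv
    rcases hAc u huA hud with ⟨i, hi, rfl⟩ | ⟨i, hi, hu⟩
    · -- `u = c i`
      have hdu := (hc i hi).2.2.2
      rcases hBc v hvB with ⟨j, hj, rfl⟩ | ⟨j, hj, hv⟩
      · have hdv := (hw j hj).2
        rcases hT.dist_eq_dist_add_one_of_adj r huv with h | h
        · have : i = j := by omega
          subst this
          exact (hg.cc i (Nat.zero_le _) hi).2.1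
        · have : j = i + 1 := by omega
          subst this
          exact (hg.cc i (Nat.zero_le _) hi).2.2
      · have hdv := hEd j hj v hv
        rcases hT.dist_eq_dist_add_one_of_adj r huv with h | h
        · exfalso
          have h1 : i = j + 1 := by omega
          have h2 := (hw i (by omega)).2
          refine ((hmemE j v).mp hv).2.2 i (by omega)
            (closer_unique hT r huv (hc i hi).2.1 h ?_)
          omega
        · have : i = j := by omega
          subst this
          exact (hg.ee i (Nat.zero_le _) hi v hv).2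
    · -- `u` pendant
      have hdu := hDd i hi u hu
      have huw := ((hmemD i u).mp hu).2.2.1
      rcases hBc v hvB with ⟨j, hj, rfl⟩ | ⟨j, hj, hv⟩
      · have hdv := (hw j hj).2
        rcases hT.dist_eq_dist_add_one_of_adj r huv with h | h
        · have : i = j := by omega
          subst this
          exact (hg.lab i (Nat.zero_le _) hi u hu).2
        · exfalso
          have h1 : j = i + 1 := by omega
          subst h1
          have h3 := hc i hj
          refine ((hmemD i u).mp hu).2.2.2 i hj
            (closer_unique hT r huv.symm h3.2.2.1.symm h ?_)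
          omega
      · exfalso
        have hdv := hEd j hj v hv
        rcases hT.dist_eq_dist_add_one_of_adj r huv with h | h
        · have h2 := (hw i hi).2
          refine ((hmemE j v).mp hv).2.2 i hi (closer_unique hT r huv huw h ?_)
          omega
        · have h3 := hc j hj
          refine ((hmemD i u).mp hu).2.2.2 j hj
            (closer_unique hT r huv.symm ((hmemE j v).mp hv).2.1 h ?_)
          omega
  apply finish hT hW hA hB L hL (g := g)
  · intro a ha b hb hab
    exact hg.inj (hRR a ha) (hRR b hb) hab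
  · intro u v hu hv huv
    by_cases huA : u ∈ A
    · exact hedge u v huA hu (mem_Bp.mpr ⟨(hA u v huv).mp huA, hv⟩) huv
    · have hvA : v ∈ A := by
        by_contra h
        exact huA ((hA u v huv).mpr h)
      exact (hedge v u hvA hv (mem_Bp.mpr ⟨huA, hu⟩) huv.symm).symm
  · intro z hz hzd
    rcases hAc z hz hzd with ⟨j, hj, rfl⟩ | ⟨j, hj, h⟩
    · exact (hg.cc j (Nat.zero_le _) hj).1
    · exact (hg.lab j (Nat.zero_le _) hj z h).1
  · intro b hb
    have h1 : g b ∈ K := by
      rcases hBc b hb with ⟨j, hj, rfl⟩ | ⟨j, hj, h⟩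
      · exact hg.wK j (Nat.zero_le _) hj
      · exact (hg.ee j (Nat.zero_le _) hj b h).1
    rw [hK, Finset.mem_union] at h1
    rcases h1 with h1 | h1
    · exact Or.inl h1
    · right
      unfold rich at h1
      exact (Finset.mem_filter.mp h1).2

end Pool.Agent.LKC
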