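import Pool.Agent.LKC.Sep

/-!
# From counts to proportions (helper60)
-/

set_option autoImplicit false
set_option linter.unusedSectionVars false

namespace Pool.Agent.LKC

open Finset
open scoped Classical
open Pool.Agent.LKS (exists_closer closer_unique)

variable {V W : Type*} [Fintype V] [Fintype W]
variable {G : SimpleGraph V} {T : SimpleGraph W}

theorem real_conv {c₁ c₂ k l n : ℕ} {r : ℝ} (hr : 0 < r) (hrn : r * n ≤ l) (hl : 0 < l)
    (hln : l ≤ n) (h : (c₁ : ℝ) * r + (c₂ : ℝ) * (1 - r) < k * r) :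
    c₁ * l + c₂ * (n - l) < k * l := by
  have hlR : (0 : ℝ) < l := by exact_mod_cast hl
  have h1 : (c₂ : ℝ) * ((n : ℝ) - l) * r ≤ (c₂ : ℝ) * (l * (1 - r)) := by
    have h2 : ((n : ℝ) - l) * r ≤ l * (1 - r) := by nlinarith
    have h3 : (0 : ℝ) ≤ c₂ := Nat.cast_nonneg _
    calc (c₂ : ℝ) * ((n : ℝ) - l) * r = c₂ * (((n : ℝ) - l) * r) := by ring
      _ ≤ _ := mul_le_mul_of_nonneg_left h2 h3
  have h4 : ((c₁ : ℝ) * l + c₂ * ((n : ℝ) - l)) * r < (k * l : ℝ) * r := by
    have h5 : (l : ℝ) * ((c₁ : ℝ) * r + (c₂ : ℝ) * (1 - r)) < l * (k * r) :=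
      mul_lt_mul_of_pos_left h hlR
    nlinarith
  have h6 : (c₁ : ℝ) * l + c₂ * ((n : ℝ) - l) < k * l := lt_of_mul_lt_mul_right h4 hr.le
  have h7 : ((c₁ * l + c₂ * (n - l) : ℕ) : ℝ) < ((k * l : ℕ) : ℝ) := by
    push_cast [Nat.cast_sub hln]
    exact h6
  exact_mod_cast h7

/-- A star embeds. -/
theorem star_embeds (hT : T.IsTree) {k : ℕ} (hW : Fintype.card W = k + 1)
    (ht : nonleaves T ≤ 1) (L : Finset V) (hL : ∀ x ∈ L, k ≤ G.degree x) (hne : L.Nonempty) :
    ∃ f : W → V, Function.Injective f ∧ ∀ u v, T.Adj u v → G.Adj (f u) (f v) := by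
  obtain ⟨x, hx⟩ := hne
  have hWne : Nonempty W := Fintype.card_pos_iff.mp (by omega)
  obtain ⟨r, hr⟩ : ∃ r : W, ∀ u, u ≠ r → ¬ 2 ≤ T.degree u := by
    by_cases h : ∃ r : W, 2 ≤ T.degree r
    · obtain ⟨r, hr⟩ := h
      refine ⟨r, ?_⟩
      intro u hu hu2
      apply hu
      unfold nonleaves at ht
      exact Finset.card_le_one.mp ht u (by simp [hu2]) r (by simp [hr])
    · push Not at h
      obtain ⟨w₀⟩ := hWne
      refine ⟨w₀, fun u _ hu => ?_⟩
      have := h u
      omega
  have hall : ∀ v, v ≠ r → ∀ u, T.Adj v u → u = r := by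
    intro v hv u hvu
    obtain ⟨b, hvb, hb⟩ := exists_closer hT r hv
    have h1 : b = r := by
      by_contra hbr
      obtain ⟨b', hbb', hb'⟩ := exists_closer hT r hbr
      exact hr b hbr (two_le_degree hvb.symm hbb' (by rintro rfl; omega))
    rw [h1] at hvb
    exact leaf_nbr (hr v hv) hvb hvu
  apply extend G T hW L hL _ {r} (fun _ => x) rfl
  · intro a ha b hb _
    rw [Finset.coe_singleton, Set.mem_singleton_iff] at ha hb
    rw [ha, hb]
  · intro u hu v hv huv
    rw [Finset.mem_singleton] at hu hv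
    rw [hu, hv] at huv
    exact absurd huv (T.loopless.irrefl _)
  · intro v hv
    rw [Finset.mem_singleton] at hv
    exact ⟨r, Finset.mem_singleton_self r, hx, hall v hv⟩

/-- Two non-leaves: then both classes have one. -/
theorem Bp_nonempty (hT : T.IsTree) {A : Finset W} (hA : ∀ a b, T.Adj a b → (a ∈ A ↔ b ∉ A))
    (ht : 2 ≤ nonleaves T) : (Bp T A).Nonempty := by
  unfold nonleaves at ht
  have ht' : 1 < (univ.filter fun v : W => 2 ≤ T.degree v).card := by omega
  obtain ⟨u, hu, v, hv, huv⟩ := Finset.one_lt_card.mp ht'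
  rw [Finset.mem_filter] at hu hv
  by_cases huA : u ∈ A
  · obtain ⟨b, hub, hb⟩ := exists_closer hT v huv
    have hbA := (hA u b hub).mp huA
    refine ⟨b, mem_Bp.mpr ⟨hbA, ?_⟩⟩
    by_cases hbv : b = v
    · rw [hbv]
      exact hv.2
    · obtain ⟨b', hbb', hb'⟩ := exists_closer hT v hbv
      exact two_le_degree hub.symm hbb' (by rintro rfl; omega)
  · exact ⟨u, mem_Bp.mpr ⟨huA, hu.2⟩⟩

theorem A_nonempty (hT : T.IsTree) {A : Finset W} (hA : ∀ a b, T.Adj a b → (a ∈ A ↔ b ∉ A))
    (ht : 2 ≤ nonleaves T) : A.Nonempty := by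
  obtain ⟨b, hb⟩ := Bp_nonempty hT hA ht
  have h := mem_Bp.mp hb
  have h1 : 0 < T.degree b := by omega
  rw [SimpleGraph.degree_pos_iff_exists_adj] at h1
  obtain ⟨z, hz⟩ := h1
  exact ⟨z, by
    by_contra hzA
    exact h.1 ((hA b z hz).mpr hzA)⟩

/-- The non-leaves outside `A` are fewer than the vertices of `A`. -/
theorem Bp_lt (hT : T.IsTree) {A : Finset W} (hA : ∀ a b, T.Adj a b → (a ∈ A ↔ b ∉ A))
    (hB : (Bp T A).Nonempty) : (Bp T A).card + 1 ≤ A.card := by
  obtain ⟨r, hr⟩ := hB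
  have h1 := Pool.Agent.LKS.sum_degree hT A hA
  set BL : Finset W := univ.filter fun x => x ∉ A ∧ ¬ 2 ≤ T.degree x with hBL
  have h2 : (univ.filter fun x => x ∉ A) = Bp T A ∪ BL := by
    ext v
    rw [Finset.mem_union, mem_Bp, hBL, Finset.mem_filter, Finset.mem_filter]
    by_cases hv : v ∈ A
    · simp [hv]
    · simp only [hv, not_false_eq_true, true_and, Finset.mem_univ, true_iff]
      exact em _
  have h3 : Disjoint (Bp T A) BL := by
    rw [Finset.disjoint_left]
    intro v hv hv'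
    rw [hBL, Finset.mem_filter] at hv'
    exact hv'.2.2 (mem_Bp.mp hv).2
  rw [h2, Finset.sum_union h3] at h1
  have h4 : (Bp T A).card * 2 ≤ ∑ x ∈ Bp T A, T.degree x := by
    rw [← smul_eq_mul, ← Finset.sum_const]
    exact Finset.sum_le_sum fun x hx => (mem_Bp.mp hx).2
  have h5 : BL.card ≤ ∑ x ∈ BL, T.degree x := by
    rw [Finset.card_eq_sum_ones]
    apply Finset.sum_le_sum
    intro x hx
    have hxr : x ≠ r := by
      rintro rfl
      rw [hBL, Finset.mem_filter] at hx
      exact hx.2.2 (mem_Bp.mp hr).2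
    obtain ⟨z, hxz, -⟩ := exists_closer hT r hxr
    exact (SimpleGraph.degree_pos_iff_exists_adj T x).mpr ⟨z, hxz⟩
  have h6 : A.card + ((Bp T A).card + BL.card) = Fintype.card W := by
    rw [← Finset.card_union_of_disjoint h3, ← h2]
    have h7 := Finset.card_filter_add_card_filter_not (s := (univ : Finset W)) (fun x => x ∈ A)
    have h8 : (univ.filter fun x => x ∈ A) = A := by
      ext v
      simp
    rw [h8, Finset.card_univ] at h7
    exact h7
  omega

theorem nonleaves_lt (hT : T.IsTree) {A : Finset W}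
    (hA : ∀ a b, T.Adj a b → (a ∈ A ↔ b ∉ A)) (hB : (Bp T A).Nonempty) :
    nonleaves T + 1 ≤ 2 * A.card := by
  have h1 := Bp_lt hT hA hB
  have h2 := nonleaves_eq T A
  have h3 : (A.filter fun z => 2 ≤ T.degree z).card ≤ A.card := Finset.card_filter_le _ _
  omega

/-- The two colour classes. -/
theorem exists_classes (hT : T.IsTree) :
    ∃ A : Finset W, (∀ a b, T.Adj a b → (a ∈ A ↔ b ∉ A)) ∧
      (∀ a b, T.Adj a b → (a ∈ Aᶜ ↔ b ∉ Aᶜ)) := by
  let col := hT.coloringTwo
  have hval : ∀ a b, T.Adj a b → col a ≠ col b := fun a b hab => col.valid hab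
  have htwo : ∀ x y : Fin 2, x ≠ y → (x = 0 ↔ ¬y = 0) := by decide
  set A₀ : Finset W := Finset.univ.filter fun w => col w = 0 with hA₀
  have h1 : ∀ a b : W, T.Adj a b → (a ∈ A₀ ↔ b ∉ A₀) := by
    intro a b hab
    rw [hA₀, Finset.mem_filter, Finset.mem_filter]
    have := htwo _ _ (hval a b hab)
    simp only [Finset.mem_univ, true_and]
    exact this
  refine ⟨A₀, h1, ?_⟩
  intro a b hab
  rw [Finset.mem_compl, Finset.mem_compl, not_not]
  have := h1 a b hab
  tauto

theorem bare_add (T : SimpleGraph W) (A : Finset W) :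
    bare T A + bare T Aᶜ = bare T (∅ : Finset W) := by
  unfold bare
  rw [← Finset.card_union_of_disjoint]
  · congr 1
    ext v
    simp only [Finset.mem_union, Finset.mem_filter, Finset.mem_univ, true_and,
      Finset.mem_compl, not_not, Finset.notMem_empty, not_false_eq_true]
    by_cases hv : v ∈ A <;> simp [hv]
  · rw [Finset.disjoint_left]
    intro v hv hv'
    rw [Finset.mem_filter] at hv hv'
    exact hv'.2.1 (Finset.mem_compl.mpr hv.2.1)

/-- The number of leaves is at least `d` times the number of non-leaves, if each non-leaf has at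
least `d` leaf neighbours. -/
theorem leaves_ge (T : SimpleGraph W) (d : ℕ)
    (h : ∀ v, 2 ≤ T.degree v → d ≤ (univ.filter fun z => T.Adj v z ∧ ¬ 2 ≤ T.degree z).card) :
    (d + 1) * nonleaves T ≤ Fintype.card W := by
  set N : Finset W := univ.filter fun v => 2 ≤ T.degree v with hN
  set Lf : W → Finset W := fun v => univ.filter fun z => T.Adj v z ∧ ¬ 2 ≤ T.degree z with hLf
  have h1 : (N.biUnion Lf).card = ∑ v ∈ N, (Lf v).card := by
    apply Finset.card_biUnion
    intro u hu v hv huv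
    show Disjoint (Lf u) (Lf v)
    rw [Finset.disjoint_left]
    intro z hz hz'
    rw [hLf] at hz hz'
    simp only [Finset.mem_filter, Finset.mem_univ, true_and] at hz hz'
    exact huv (leaf_nbr hz.2 hz'.1.symm hz.1.symm)
  have h2 : Disjoint N (N.biUnion Lf) := by
    rw [Finset.disjoint_left]
    intro z hz hz'
    rw [Finset.mem_biUnion] at hz'
    obtain ⟨v, -, hzv⟩ := hz'
    rw [hLf] at hzv
    simp only [Finset.mem_filter, Finset.mem_univ, true_and] at hzv
    rw [hN, Finset.mem_filter] at hz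
    exact hzv.2 hz.2
  have h3 : N.card * d ≤ ∑ v ∈ N, (Lf v).card := by
    rw [← smul_eq_mul, ← Finset.sum_const]
    apply Finset.sum_le_sum
    intro v hv
    rw [hN, Finset.mem_filter] at hv
    exact h v hv.2
  have h4 : (N ∪ N.biUnion Lf).card ≤ Fintype.card W := Finset.card_le_univ _
  rw [Finset.card_union_of_disjoint h2, h1] at h4
  have h5 : nonleaves T = N.card := rfl
  rw [h5]
  calc (d + 1) * N.card = N.card + N.card * d := by ring
    _ ≤ _ := by omega

end Pool.Agent.LKC
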