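import Pool.Agent.LKC.Cat

/-!
# From an embedding of the non-leaves to an embedding of the tree (helper60)
-/

set_option autoImplicit false
set_option linter.unusedSectionVars false

namespace Pool.Agent.LKC

open Finset
open scoped Classical
open Pool.Agent.LKS (exists_closer closer_unique)

variable {V W : Type*} [Fintype V] [Fintype W]

/-- Adding leaves inside a set `C` with enough candidates. -/
theorem add_leaves (G : SimpleGraph V) (T : SimpleGraph W) (C : Finset V) (γ : ℕ) :
    ∀ (t : ℕ) (D Λ : Finset W) (g : W → V), Λ.card = t → Disjoint D Λ → Set.InjOn g D →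
      (∀ u ∈ D, ∀ v ∈ D, T.Adj u v → G.Adj (g u) (g v)) →
      (∀ v ∈ Λ, ∃ u ∈ D, γ ≤ (G.neighborFinset (g u) ∩ C).card ∧ T.Adj v u ∧
        ∀ z, T.Adj v z → z = u) →
      ((D.image g) ∩ C).card + t ≤ γ →
      ∃ f : W → V, Set.InjOn f (D ∪ Λ : Finset W) ∧
        (∀ u ∈ D ∪ Λ, ∀ v ∈ D ∪ Λ, T.Adj u v → G.Adj (f u) (f v)) ∧
        (∀ u ∈ D, f u = g u) ∧ ∀ v ∈ Λ, f v ∈ C := by
  intro t
  induction t with
  | zero =>
    intro D Λ g hΛ _ hinj hadj _ _
    rw [Finset.card_eq_zero] at hΛ
    subst hΛ
    rw [Finset.union_empty]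
    exact ⟨g, hinj, hadj, fun _ _ => rfl, fun v hv => absurd hv (Finset.notMem_empty _)⟩
  | succ t ih =>
    intro D Λ g hΛ hdis hinj hadj hleaf hcount
    have hne : Λ.Nonempty := by
      rw [← Finset.card_pos]
      omega
    obtain ⟨v, hv⟩ := hne
    have hvD : v ∉ D := fun h => (Finset.disjoint_left.mp hdis h) hv
    obtain ⟨u, huD, hγ, hvu, hu⟩ := hleaf v hv
    obtain ⟨z, hz, hzD⟩ : ∃ z ∈ G.neighborFinset (g u) ∩ C, z ∉ D.image g := by
      by_contra hcon
      push Not at hcon
      have h1 : G.neighborFinset (g u) ∩ C ⊆ (D.image g) ∩ C := by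
        intro z hz
        rw [Finset.mem_inter]
        exact ⟨hcon z hz, (Finset.mem_inter.mp hz).2⟩
      have h2 := Finset.card_le_card h1
      omega
    rw [Finset.mem_inter, SimpleGraph.mem_neighborFinset] at hz
    have hupd : ∀ a ∈ D, Function.update g v z a = g a := by
      intro a ha
      apply Function.update_of_ne
      rintro rfl
      exact hvD ha
    have hupv : Function.update g v z v = z := Function.update_self _ _ _
    have himg : (insert v D).image (Function.update g v z) = insert z (D.image g) := by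
      rw [Finset.image_insert, hupv]
      congr 1
      apply Finset.image_congr
      intro a ha
      exact hupd a ha
    obtain ⟨f, hf1, hf2, hf3, hf4⟩ := ih (insert v D) (Λ.erase v) (Function.update g v z)
      (by rw [Finset.card_erase_of_mem hv, hΛ]; omega)
      (by
        rw [Finset.disjoint_left]
        intro a ha ha'
        rw [Finset.mem_erase] at ha'
        rcases Finset.mem_insert.mp ha with h | h
        · exact ha'.1 h
        · exact Finset.disjoint_left.mp hdis h ha'.2)
      (by
        intro a ha b hb hab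
        rcases Finset.mem_insert.mp (Finset.mem_coe.mp ha) with rfl | ha' <;>
          rcases Finset.mem_insert.mp (Finset.mem_coe.mp hb) with rfl | hb'
        · rfl
        · exfalso
          rw [hupv, hupd b hb'] at hab
          exact hzD (hab ▸ Finset.mem_image_of_mem g hb')
        · exfalso
          rw [hupv, hupd a ha'] at hab
          exact hzD (hab ▸ Finset.mem_image_of_mem g ha')
        · rw [hupd a ha', hupd b hb'] at hab
          exact hinj ha' hb' hab)
      (by
        intro a ha b hb hab
        rcases Finset.mem_insert.mp ha with rfl | ha' <;>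
          rcases Finset.mem_insert.mp hb with rfl | hb'
        · exact absurd hab (T.loopless.irrefl _)
        · rw [hupv, hupd b hb', hu b hab]
          exact hz.1.symm
        · rw [hupv, hupd a ha', hu a hab.symm]
          exact hz.1
        · rw [hupd a ha', hupd b hb']
          exact hadj a ha' b hb' hab)
      (by
        intro v' hv'
        obtain ⟨u', hu'D, h1, h2, h3⟩ := hleaf v' (Finset.mem_of_mem_erase hv')
        exact ⟨u', Finset.mem_insert_of_mem hu'D, by rw [hupd u' hu'D]; exact h1, h2, h3⟩)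
      (by
        rw [himg, Finset.insert_inter_of_mem hz.2]
        have := Finset.card_insert_le z (D.image g ∩ C)
        omega)
    have hDΛ : insert v D ∪ Λ.erase v = D ∪ Λ := by
      ext a
      simp only [Finset.mem_union, Finset.mem_insert, Finset.mem_erase]
      by_cases hav : a = v
      · subst hav
        simp [hv]
      · simp [hav]
    rw [hDΛ] at hf1 hf2
    refine ⟨f, hf1, hf2, ?_, ?_⟩
    · intro a ha
      rw [hf3 a (Finset.mem_insert_of_mem ha), hupd a ha]
    · intro a ha
      by_cases hav : a = v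
      · subst hav
        rw [hf3 a (Finset.mem_insert_self _ _), hupv]
        exact hz.2
      · exact hf4 a (Finset.mem_erase.mpr ⟨hav, ha⟩)

/-- The number of non-leaves outside `A` which have no leaf neighbour. -/
noncomputable def bare (T : SimpleGraph W) (A : Finset W) : ℕ :=
  (univ.filter fun b : W => b ∉ A ∧ 2 ≤ T.degree b ∧ ∀ z, T.Adj b z → 2 ≤ T.degree z).card

/-- An embedding of the non-leaves, with the ones in `A` placed in `L` and the other ones placed in
`L` or at vertices with many neighbours in `L`, extends to the tree. -/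
theorem finish {G : SimpleGraph V} {T : SimpleGraph W} (hT : T.IsTree) {k : ℕ}
    (hW : Fintype.card W = k + 1) {A : Finset W}
    (hA : ∀ a b, T.Adj a b → (a ∈ A ↔ b ∉ A)) (hne : (Bp T A).Nonempty)
    (L : Finset V) (hL : ∀ x ∈ L, k ≤ G.degree x) {g : W → V}
    (hinj : Set.InjOn g {v | 2 ≤ T.degree v})
    (hadj : ∀ u v, 2 ≤ T.degree u → 2 ≤ T.degree v → T.Adj u v → G.Adj (g u) (g v))
    (hgA : ∀ z ∈ A, 2 ≤ T.degree z → g z ∈ L)
    (hgB : ∀ b ∈ Bp T A, g b ∈ L ∨ A.card + bare T A ≤ (G.neighborFinset (g b) ∩ L).card) :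
    ∃ f : W → V, Function.Injective f ∧ ∀ u v, T.Adj u v → G.Adj (f u) (f v) := by
  obtain ⟨r, hr⟩ := hne
  set N : Finset W := univ.filter fun v => 2 ≤ T.degree v with hN
  have hmemN : ∀ v, v ∈ N ↔ 2 ≤ T.degree v := by
    intro v
    rw [hN, Finset.mem_filter]
    simp
  -- a leaf has a neighbour which is not a leaf
  have hnbr : ∀ v, ¬ 2 ≤ T.degree v → ∃ u, T.Adj v u ∧ 2 ≤ T.degree u ∧
      ∀ z, T.Adj v z → z = u := by
    intro v hv
    have hvr : v ≠ r := by
      rintro rfl
      exact hv (mem_Bp.mp hr).2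
    obtain ⟨u, hvu, hd⟩ := exists_closer hT r hvr
    refine ⟨u, hvu, ?_, fun z hz => leaf_nbr hv hvu hz⟩
    by_cases hur : u = r
    · rw [hur]
      exact (mem_Bp.mp hr).2
    · obtain ⟨u', huu', hd'⟩ := exists_closer hT r hur
      exact two_le_degree hvu.symm huu' (by rintro rfl; omega)
  -- the leaves in `A` whose neighbour is placed outside `L`
  set Λ : Finset W := univ.filter fun v => v ∈ A ∧ ¬ 2 ≤ T.degree v ∧
    ∃ b, T.Adj v b ∧ g b ∉ L with hΛ
  have hmemΛ : ∀ v, v ∈ Λ ↔ v ∈ A ∧ ¬ 2 ≤ T.degree v ∧ ∃ b, T.Adj v b ∧ g b ∉ L := by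
    intro v
    rw [hΛ, Finset.mem_filter]
    simp
  -- counting
  have hcount : ((N.image g) ∩ L).card + Λ.card ≤ A.card + bare T A := by
    set B₁ : Finset W := univ.filter fun b => b ∈ Bp T A ∧ g b ∈ L ∧
      ∃ z, T.Adj b z ∧ ¬ 2 ≤ T.degree z with hB₁
    set B₀ : Finset W := univ.filter fun b : W =>
      b ∉ A ∧ 2 ≤ T.degree b ∧ ∀ z, T.Adj b z → 2 ≤ T.degree z with hB₀
    set AL : Finset W := A.filter fun z => ¬ 2 ≤ T.degree z with hAL
    set AN : Finset W := A.filter fun z => 2 ≤ T.degree z with hAN
    have h1 : ((N.image g) ∩ L).card ≤ AN.card + B₁.card + B₀.card := by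
      have h2 : (N.image g) ∩ L ⊆ (AN ∪ B₁ ∪ B₀).image g := by
        intro x hx
        rw [Finset.mem_inter, Finset.mem_image] at hx
        obtain ⟨⟨v, hv, rfl⟩, hxL⟩ := hx
        rw [hmemN] at hv
        apply Finset.mem_image_of_mem
        rw [Finset.mem_union, Finset.mem_union]
        by_cases hvA : v ∈ A
        · left; left
          rw [hAN, Finset.mem_filter]
          exact ⟨hvA, hv⟩
        · by_cases hb : ∀ z, T.Adj v z → 2 ≤ T.degree z
          · right
            rw [hB₀, Finset.mem_filter]
            exact ⟨Finset.mem_univ _, hvA, hv, hb⟩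
          · left; right
            push Not at hb
            obtain ⟨z, hz, hz'⟩ := hb
            rw [hB₁, Finset.mem_filter]
            exact ⟨Finset.mem_univ _, mem_Bp.mpr ⟨hvA, hv⟩, hxL, z, hz, by omega⟩
      calc ((N.image g) ∩ L).card ≤ ((AN ∪ B₁ ∪ B₀).image g).card := Finset.card_le_card h2
        _ ≤ (AN ∪ B₁ ∪ B₀).card := Finset.card_image_le
        _ ≤ (AN ∪ B₁).card + B₀.card := Finset.card_union_le _ _
        _ ≤ AN.card + B₁.card + B₀.card := by
            have := Finset.card_union_le AN B₁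
            omega
    have h2 : Λ.card + B₁.card ≤ AL.card := by
      -- a leaf neighbour of each vertex of `B₁`
      have hφ : ∀ b, ∃ z, b ∈ B₁ → T.Adj b z ∧ ¬ 2 ≤ T.degree z := by
        intro b
        by_cases hb : b ∈ B₁
        · rw [hB₁, Finset.mem_filter] at hb
          obtain ⟨z, hz⟩ := hb.2.2.2
          exact ⟨z, fun _ => hz⟩
        · exact ⟨b, fun h => absurd h hb⟩
      choose φ hφ using hφ
      have hφinj : Set.InjOn φ B₁ := by
        intro x hx y hy hxy
        have h3 := hφ x hx
        have h4 := hφ y hy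
        rw [← hxy] at h4
        exact leaf_nbr h3.2 h4.1.symm h3.1.symm
      rw [← Finset.card_image_of_injOn hφinj, ← Finset.card_union_of_disjoint]
      · apply Finset.card_le_card
        intro v hv
        rw [hAL, Finset.mem_filter]
        rcases Finset.mem_union.mp hv with hv | hv
        · exact ⟨((hmemΛ v).mp hv).1, ((hmemΛ v).mp hv).2.1⟩
        · rw [Finset.mem_image] at hv
          obtain ⟨b, hb, rfl⟩ := hv
          have h3 := hφ b hb
          rw [hB₁, Finset.mem_filter] at hb
          have h4 := (mem_Bp.mp hb.2.1).1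
          refine ⟨?_, h3.2⟩
          by_contra h5
          exact h4 ((hA _ _ h3.1).mpr h5)
      · rw [Finset.disjoint_left]
        intro v hv hv'
        rw [Finset.mem_image] at hv'
        obtain ⟨b, hb, rfl⟩ := hv'
        have h3 := hφ b hb
        rw [hB₁, Finset.mem_filter] at hb
        obtain ⟨-, h4, b', hb', hb'L⟩ := (hmemΛ _).mp hv
        have h5 : b' = b := leaf_nbr h4 h3.1.symm hb'
        rw [h5] at hb'L
        exact hb'L hb.2.2.1
    have h3 : AL.card + AN.card = A.card := by
      rw [hAL, hAN, add_comm]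
      exact Finset.card_filter_add_card_filter_not _
    have h4 : B₀.card = bare T A := by
      rw [hB₀]
      unfold bare
      rfl
    omega
  obtain ⟨f, hf1, hf2, hf3, hf4⟩ := add_leaves G T L (A.card + bare T A) Λ.card N Λ g rfl
    (by
      rw [Finset.disjoint_left]
      intro v hv hv'
      exact ((hmemΛ v).mp hv').2.1 ((hmemN v).mp hv))
    (by
      intro a ha b hb hab
      exact hinj ((hmemN a).mp ha) ((hmemN b).mp hb) hab)
    (fun u hu v hv huv => hadj u v ((hmemN u).mp hu) ((hmemN v).mp hv) huv)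
    (by
      intro v hv
      obtain ⟨hvA, hvd, b, hvb, hbL⟩ := (hmemΛ v).mp hv
      obtain ⟨u, hvu, hu2, huz⟩ := hnbr v hvd
      have hbu : b = u := huz b hvb
      subst hbu
      have hbA : b ∉ A := (hA v b hvb).mp hvA
      refine ⟨b, (hmemN b).mpr hu2, ?_, hvb, huz⟩
      rcases hgB b (mem_Bp.mpr ⟨hbA, hu2⟩) with h | h
      · exact absurd h hbL
      · exact h)
    hcount
  apply extend G T hW L hL _ (N ∪ Λ) f rfl hf1 hf2
  intro v hv
  rw [Finset.mem_union, not_or, hmemN] at hv
  obtain ⟨u, hvu, hu2, huz⟩ := hnbr v hv.1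
  refine ⟨u, Finset.mem_union_left _ ((hmemN u).mpr hu2), ?_, huz⟩
  rw [hf3 u ((hmemN u).mpr hu2)]
  by_cases hvA : v ∈ A
  · by_contra h
    exact hv.2 ((hmemΛ v).mpr ⟨hvA, hv.1, u, hvu, h⟩)
  · have huA : u ∈ A := by
      by_contra h
      exact hvA ((hA v u hvu).mpr h)
    exact hgA u huA hu2

end Pool.Agent.LKC
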