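import Pool.Agent.LKC.Cat2

/-!
# General trees with many leaves (helper60)
-/

set_option autoImplicit false
set_option linter.unusedSectionVars false

namespace Pool.Agent.LKC

open Finset
open scoped Classical
open Pool.Agent.LKS (exists_closer closer_unique)

variable {V W : Type*} [Fintype V] [Fintype W]

/-- The pairs of `P` in `U × Y`. -/
noncomputable def prs (P : V → V → Prop) (U Y : Finset V) : ℕ :=
  ((U ×ˢ Y).filter fun p => P p.1 p.2).card

/-- Removing the vertices with few partners. -/
theorem prune (P : V → V → Prop) (α β : ℕ) : ∀ (t : ℕ) (U Y : Finset V),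
    U.card + Y.card = t → α * U.card + β * Y.card < prs P U Y →
    ∃ U' Y', U' ⊆ U ∧ Y' ⊆ Y ∧ U'.Nonempty ∧ Y'.Nonempty ∧
      (∀ x ∈ U', α < (Y'.filter fun y => P x y).card) ∧
      (∀ y ∈ Y', β < (U'.filter fun x => P x y).card) := by
  intro t
  induction t with
  | zero =>
    intro U Y h1 h2
    exfalso
    have hU : U = ∅ := Finset.card_eq_zero.mp (by omega)
    subst hU
    unfold prs at h2
    simp at h2
  | succ t ih =>
    intro U Y h1 h2
    by_cases hx : ∃ x ∈ U, (Y.filter fun y => P x y).card ≤ α
    · obtain ⟨x, hx, hxα⟩ := hx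
      obtain ⟨U', Y', a1, a2, a3⟩ := ih (U.erase x) Y
        (by rw [Finset.card_erase_of_mem hx]; have := Finset.card_pos.mpr ⟨x, hx⟩; omega) (by
          have h3 : prs P U Y ≤ prs P (U.erase x) Y + (Y.filter fun y => P x y).card := by
            unfold prs
            have h4 : ((U ×ˢ Y).filter fun p => P p.1 p.2) ⊆
                (((U.erase x) ×ˢ Y).filter fun p => P p.1 p.2) ∪
                (Y.filter fun y => P x y).image fun y => (x, y) := by
              intro p hp
              rw [Finset.mem_filter, Finset.mem_product] at hp
              rw [Finset.mem_union]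
              by_cases hpx : p.1 = x
              · right
                rw [Finset.mem_image]
                refine ⟨p.2, ?_, ?_⟩
                · rw [Finset.mem_filter]
                  exact ⟨hp.1.2, hpx ▸ hp.2⟩
                · rw [← hpx]
              · left
                rw [Finset.mem_filter, Finset.mem_product, Finset.mem_erase]
                exact ⟨⟨⟨hpx, hp.1.1⟩, hp.1.2⟩, hp.2⟩
            refine (Finset.card_le_card h4).trans ((Finset.card_union_le _ _).trans ?_)
            exact Nat.add_le_add_left Finset.card_image_le _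
          have h5 : α * U.card = α * (U.erase x).card + α := by
            rw [Finset.card_erase_of_mem hx]
            have := Finset.card_pos.mpr ⟨x, hx⟩
            obtain ⟨q, hq⟩ : ∃ q, U.card = q + 1 := ⟨U.card - 1, by omega⟩
            rw [hq]
            simp only [Nat.add_sub_cancel]
            ring
          omega)
      exact ⟨U', Y', a1.trans (Finset.erase_subset _ _), a2, a3⟩
    · by_cases hy : ∃ y ∈ Y, (U.filter fun x => P x y).card ≤ β
      · obtain ⟨y, hy, hyβ⟩ := hy
        obtain ⟨U', Y', a1, a2, a3⟩ := ih U (Y.erase y)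
          (by rw [Finset.card_erase_of_mem hy]; have := Finset.card_pos.mpr ⟨y, hy⟩; omega) (by
            have h3 : prs P U Y ≤ prs P U (Y.erase y) + (U.filter fun x => P x y).card := by
              unfold prs
              have h4 : ((U ×ˢ Y).filter fun p => P p.1 p.2) ⊆
                  ((U ×ˢ (Y.erase y)).filter fun p => P p.1 p.2) ∪
                  (U.filter fun x => P x y).image fun x => (x, y) := by
                intro p hp
                rw [Finset.mem_filter, Finset.mem_product] at hp
                rw [Finset.mem_union]
                by_cases hpy : p.2 = y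
                · right
                  rw [Finset.mem_image]
                  refine ⟨p.1, ?_, ?_⟩
                  · rw [Finset.mem_filter]
                    exact ⟨hp.1.1, hpy ▸ hp.2⟩
                  · rw [← hpy]
                · left
                  rw [Finset.mem_filter, Finset.mem_product, Finset.mem_erase]
                  exact ⟨⟨hp.1.1, hpy, hp.1.2⟩, hp.2⟩
              refine (Finset.card_le_card h4).trans ((Finset.card_union_le _ _).trans ?_)
              exact Nat.add_le_add_left Finset.card_image_le _
            have h5 : β * Y.card = β * (Y.erase y).card + β := by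
              rw [Finset.card_erase_of_mem hy]
              have := Finset.card_pos.mpr ⟨y, hy⟩
              obtain ⟨q, hq⟩ : ∃ q, Y.card = q + 1 := ⟨Y.card - 1, by omega⟩
              rw [hq]
              simp only [Nat.add_sub_cancel]
              ring
            omega)
        exact ⟨U', Y', a1, a2.trans (Finset.erase_subset _ _), a3⟩
      · push Not at hx hy
        have hne : ((U ×ˢ Y).filter fun p => P p.1 p.2).Nonempty := by
          rw [← Finset.card_pos]
          unfold prs at h2
          omega
        obtain ⟨p, hp⟩ := hne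
        rw [Finset.mem_filter, Finset.mem_product] at hp
        exact ⟨U, Y, subset_rfl, subset_rfl, ⟨p.1, hp.1.1⟩, ⟨p.2, hp.1.2⟩, hx, hy⟩

variable {G : SimpleGraph V} {T : SimpleGraph W}

/-- Greedy embedding of the non-leaves. -/
theorem greedy_aux (hT : T.IsTree) {r : W} (hr : 2 ≤ T.degree r) {N : Finset W}
    (hN : ∀ v, v ∈ N ↔ 2 ≤ T.degree v) (C : W → Finset V)
    (hC : ∀ u ∈ N, ∀ v ∈ N, T.Adj u v → ∀ x ∈ C u,
      N.card ≤ (G.neighborFinset x ∩ C v).card + 1) :
    ∀ (t : ℕ) (D : Finset W) (g : W → V), (N \ D).card = t → D ⊆ N → r ∈ D →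
      (∀ v ∈ D, v ≠ r → ∀ u, T.Adj v u → T.dist r v = T.dist r u + 1 → u ∈ D) →
      Set.InjOn g D → (∀ u ∈ D, ∀ v ∈ D, T.Adj u v → G.Adj (g u) (g v)) →
      (∀ v ∈ D, g v ∈ C v) →
      ∃ f : W → V, Set.InjOn f N ∧ (∀ u ∈ N, ∀ v ∈ N, T.Adj u v → G.Adj (f u) (f v)) ∧
        ∀ v ∈ N, f v ∈ C v := by
  intro t
  induction t with
  | zero =>
    intro D g hD hDN _ _ hinj hadj hgC
    have h1 : D = N := by
      apply Finset.Subset.antisymm hDN
      rw [← Finset.sdiff_eq_empty_iff_subset]
      exact Finset.card_eq_zero.mp hD
    subst h1
    exact ⟨g, hinj, hadj, hgC⟩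
  | succ t ih =>
    intro D g hD hDN hrD hcl hinj hadj hgC
    have hne : (N \ D).Nonempty := by
      rw [← Finset.card_pos]
      omega
    obtain ⟨v, hv, hvmin⟩ := Finset.exists_min_image (N \ D) (fun v => T.dist r v) hne
    rw [Finset.mem_sdiff] at hv
    have hvr : v ≠ r := fun h => hv.2 (h ▸ hrD)
    obtain ⟨u, hvu, hd⟩ := exists_closer hT r hvr
    have huN : u ∈ N := by
      rw [hN]
      by_cases hur : u = r
      · rw [hur]
        exact hr
      · obtain ⟨u', huu', hd'⟩ := exists_closer hT r hur
        exact two_le_degree hvu.symm huu' (by rintro rfl; omega)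
    have huD : u ∈ D := by
      by_contra h
      have := hvmin u (Finset.mem_sdiff.mpr ⟨huN, h⟩)
      omega
    have hDcard : D.card + 1 ≤ N.card := by
      have h1 : insert v D ⊆ N := by
        intro a ha
        rcases Finset.mem_insert.mp ha with rfl | ha
        · exact hv.1
        · exact hDN ha
      have h2 := Finset.card_le_card h1
      rw [Finset.card_insert_of_notMem hv.2] at h2
      exact h2
    obtain ⟨z, hz, hzD⟩ : ∃ z ∈ G.neighborFinset (g u) ∩ C v, z ∉ D.image g := by
      by_contra hcon
      push Not at hcon
      have h1 : G.neighborFinset (g u) ∩ C v ⊆ (D.image g).erase (g u) := by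
        intro z hz
        rw [Finset.mem_erase]
        refine ⟨?_, hcon z hz⟩
        rintro rfl
        rw [Finset.mem_inter, SimpleGraph.mem_neighborFinset] at hz
        exact G.loopless.irrefl _ hz.1
      have h2 := Finset.card_le_card h1
      rw [Finset.card_erase_of_mem (Finset.mem_image_of_mem g huD)] at h2
      have h3 : (D.image g).card ≤ D.card := Finset.card_image_le
      have h4 := hC u huN v hv.1 hvu.symm (g u) (hgC u huD)
      have h5 : 0 < (D.image g).card := Finset.card_pos.mpr ⟨_, Finset.mem_image_of_mem g huD⟩
      omega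
    rw [Finset.mem_inter, SimpleGraph.mem_neighborFinset] at hz
    have hupd : ∀ a ∈ D, Function.update g v z a = g a := by
      intro a ha
      apply Function.update_of_ne
      rintro rfl
      exact hv.2 ha
    have hupv : Function.update g v z v = z := Function.update_self _ _ _
    -- the only neighbour of `v` in `D` is `u`
    have honly : ∀ a ∈ D, T.Adj v a → a = u := by
      intro a ha hva
      rcases hT.dist_eq_dist_add_one_of_adj r hva with h | h
      · exact closer_unique hT r hva hvu h hd
      · exfalso
        have har : a ≠ r := by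
          rintro rfl
          rw [SimpleGraph.dist_self] at h
          omega
        exact hv.2 (hcl a ha har v hva.symm h)
    apply ih (insert v D) (Function.update g v z)
    · have h1 : N \ insert v D = (N \ D).erase v := by
        ext a
        simp only [Finset.mem_sdiff, Finset.mem_insert, Finset.mem_erase, not_or]
        tauto
      rw [h1, Finset.card_erase_of_mem (Finset.mem_sdiff.mpr hv), hD]
      omega
    · intro a ha
      rcases Finset.mem_insert.mp ha with rfl | ha
      · exact hv.1
      · exact hDN ha
    · exact Finset.mem_insert_of_mem hrD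
    · intro a ha har b hab hdab
      rcases Finset.mem_insert.mp ha with rfl | ha'
      · rw [closer_unique hT r hab hvu hdab hd]
        exact Finset.mem_insert_of_mem huD
      · exact Finset.mem_insert_of_mem (hcl a ha' har b hab hdab)
    · intro a ha b hb hab
      rcases Finset.mem_insert.mp (Finset.mem_coe.mp ha) with rfl | ha' <;>
        rcases Finset.mem_insert.mp (Finset.mem_coe.mp hb) with rfl | hb'
      · rfl
      · exfalso
        rw [hupv, hupd b hb'] at hab
        exact hzD (hab ▸ Finset.mem_image_of_mem g hb')
      · exfalso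
        rw [hupv, hupd a ha'] at hab
        exact hzD (hab ▸ Finset.mem_image_of_mem g ha')
      · rw [hupd a ha', hupd b hb'] at hab
        exact hinj ha' hb' hab
    · intro a ha b hb hab
      rcases Finset.mem_insert.mp ha with rfl | ha' <;>
        rcases Finset.mem_insert.mp hb with rfl | hb'
      · exact absurd hab (T.loopless.irrefl _)
      · rw [hupv, hupd b hb', honly b hb' hab]
        exact hz.1.symm
      · rw [hupv, hupd a ha', honly a ha' hab.symm]
        exact hz.1
      · rw [hupd a ha', hupd b hb']
        exact hadj a ha' b hb' hab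
    · intro a ha
      rcases Finset.mem_insert.mp ha with rfl | ha'
      · rw [hupv]
        exact hz.2
      · rw [hupd a ha']
        exact hgC a ha'

/-- The non-leaves outside `A` with a leaf neighbour are at most as many as the leaves in `A`. -/
theorem nonleaves_le {A : Finset W} (hA : ∀ a b, T.Adj a b → (a ∈ A ↔ b ∉ A)) :
    nonleaves T ≤ A.card + bare T A := by
  set B₁ : Finset W := univ.filter fun b => b ∈ Bp T A ∧
    ∃ z, T.Adj b z ∧ ¬ 2 ≤ T.degree z with hB₁
  set B₀ : Finset W := univ.filter fun b : W =>
    b ∉ A ∧ 2 ≤ T.degree b ∧ ∀ z, T.Adj b z → 2 ≤ T.degree z with hB₀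
  set AL : Finset W := A.filter fun z => ¬ 2 ≤ T.degree z with hAL
  set AN : Finset W := A.filter fun z => 2 ≤ T.degree z with hAN
  have h1 : (Bp T A).card ≤ B₁.card + B₀.card := by
    refine (Finset.card_le_card ?_).trans (Finset.card_union_le _ _)
    intro v hv
    have h := mem_Bp.mp hv
    rw [Finset.mem_union]
    by_cases hb : ∀ z, T.Adj v z → 2 ≤ T.degree z
    · right
      rw [hB₀, Finset.mem_filter]
      exact ⟨Finset.mem_univ _, h.1, h.2, hb⟩
    · left
      push Not at hb
      obtain ⟨z, hz, hz'⟩ := hb
      rw [hB₁, Finset.mem_filter]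
      exact ⟨Finset.mem_univ _, hv, z, hz, by omega⟩
  have h2 : B₁.card ≤ AL.card := by
    have hφ : ∀ b, ∃ z, b ∈ B₁ → T.Adj b z ∧ ¬ 2 ≤ T.degree z := by
      intro b
      by_cases hb : b ∈ B₁
      · rw [hB₁, Finset.mem_filter] at hb
        obtain ⟨z, hz⟩ := hb.2.2
        exact ⟨z, fun _ => hz⟩
      · exact ⟨b, fun h => absurd h hb⟩
    choose φ hφ using hφ
    apply Finset.card_le_card_of_injOn φ
    · intro b hb
      have h3 := hφ b hb
      have hb' : b ∈ B₁ := hb
      rw [hB₁, Finset.mem_filter] at hb'
      have h4 := (mem_Bp.mp hb'.2.1).1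
      rw [Finset.mem_coe, hAL, Finset.mem_filter]
      refine ⟨?_, h3.2⟩
      by_contra h5
      exact h4 ((hA _ _ h3.1).mpr h5)
    · intro x hx y hy hxy
      have h3 := hφ x hx
      have h4 := hφ y hy
      rw [← hxy] at h4
      exact leaf_nbr h3.2 h4.1.symm h3.1.symm
  have h3 : AL.card + AN.card = A.card := by
    rw [hAL, hAN, add_comm]
    exact Finset.card_filter_add_card_filter_not _
  have h4 : B₀.card = bare T A := by
    rw [hB₀]
    unfold bare
    rfl
  have h5 : nonleaves T = AN.card + (Bp T A).card := nonleaves_eq T A
  omega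

/-- The embedding theorem for general trees. -/
theorem main_gen (hT : T.IsTree) {k : ℕ} (hW : Fintype.card W = k + 1) {A : Finset W}
    (hA : ∀ a b, T.Adj a b → (a ∈ A ↔ b ∉ A))
    (L : Finset V) (hL : ∀ x ∈ L, k ≤ G.degree x) (hne : L.Nonempty)
    (hcount : 2 * (nonleaves T - 2) * L.card + (A.card + bare T A - 1) * (univ \ L).card <
      k * L.card) :
    ∃ f : W → V, Function.Injective f ∧ ∀ u v, T.Adj u v → G.Adj (f u) (f v) := by
  by_cases hB : (Bp T A).Nonempty
  swap
  · refine star_case hT hW hA hB L hL hne ?_
    refine lt_of_le_of_lt (Nat.add_le_add (Nat.mul_le_mul_right _ ?_)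
      (Nat.mul_le_mul_right _ ?_)) hcount
    · omega
    · omega
  obtain ⟨r, hr⟩ := id hB
  have hr2 := (mem_Bp.mp hr).2
  set N : Finset W := univ.filter fun v => 2 ≤ T.degree v with hNdef
  have hN : ∀ v, v ∈ N ↔ 2 ≤ T.degree v := by
    intro v
    rw [hNdef, Finset.mem_filter]
    simp
  have hNcard : N.card = nonleaves T := rfl
  have hrN : r ∈ N := (hN r).mpr hr2
  set γ := A.card + bare T A with hγ
  set K := L ∪ rich G L γ with hK
  have hPr : k * L.card ≤ (univ.filter fun p : V × V => Pr2 G L K p.1 p.2).card +
      (γ - 1) * (univ \ K).card := card_Pr2 G L (γ := γ) hL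
  have hKL : L ⊆ K := Finset.subset_union_left
  have hKcard : K.card + (univ \ K).card = L.card + (univ \ L).card := by
    have h1 := Finset.card_sdiff_add_card_eq_card (Finset.subset_univ K)
    have h2 := Finset.card_sdiff_add_card_eq_card (Finset.subset_univ L)
    omega
  have hKL2 : L.card ≤ K.card := Finset.card_le_card hKL
  have htγ : nonleaves T ≤ γ := nonleaves_le hA
  -- it suffices to embed the non-leaves
  suffices hsuf : ∃ (U Y : Finset V) (g : W → V), U ⊆ L ∧ Y ⊆ K ∧ Set.InjOn g N ∧
      (∀ u ∈ N, ∀ v ∈ N, T.Adj u v → G.Adj (g u) (g v)) ∧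
      ∀ v ∈ N, g v ∈ (if v ∈ A then U else Y) by
    obtain ⟨U, Y, g, hU, hY, hinj, hadj, hg⟩ := hsuf
    apply finish hT hW hA hB L hL (g := g)
    · intro a ha b hb hab
      exact hinj ((hN a).mpr ha) ((hN b).mpr hb) hab
    · intro u v hu hv huv
      exact hadj u ((hN u).mpr hu) v ((hN v).mpr hv) huv
    · intro z hz hzd
      have := hg z ((hN z).mpr hzd)
      rw [if_pos hz] at this
      exact hU this
    · intro b hb
      have h1 := hg b ((hN b).mpr (mem_Bp.mp hb).2)
      rw [if_neg (mem_Bp.mp hb).1] at h1
      have h2 := hY h1
      rw [hK, Finset.mem_union] at h2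
      rcases h2 with h2 | h2
      · exact Or.inl h2
      · right
        unfold rich at h2
        exact (Finset.mem_filter.mp h2).2
  rcases Nat.lt_or_ge (nonleaves T) 2 with ht | ht
  · -- a star
    obtain ⟨x, hx⟩ := hne
    have hone : ∀ v ∈ N, v = r := by
      intro v hv
      have h1 : N.card ≤ 1 := by omega
      exact Finset.card_le_one.mp h1 v hv r hrN
    refine ⟨L, K, fun _ => x, subset_rfl, subset_rfl, ?_, ?_, ?_⟩
    · intro a ha b hb _
      rw [hone a ha, hone b hb]
    · intro u hu v hv huv
      rw [hone u hu, hone v hv] at huv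
      exact absurd huv (T.loopless.irrefl _)
    · intro v _
      by_cases hvA : v ∈ A
      · rw [if_pos hvA]
        exact hx
      · rw [if_neg hvA]
        exact hKL hx
  · obtain ⟨U, Y, hU, hY, hUne, hYne, hUd, hYd⟩ := prune (fun x y => G.Adj x y)
      (nonleaves T - 2) (nonleaves T - 2) _ L K rfl (by
      have h1 : (univ.filter fun p : V × V => Pr2 G L K p.1 p.2).card ≤
          prs (fun x y => G.Adj x y) L K := by
        unfold prs
        apply Finset.card_le_card
        intro p hp
        rw [Finset.mem_filter] at hp
        rw [Finset.mem_filter, Finset.mem_product]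
        exact ⟨⟨hp.2.1, hp.2.2.1⟩, hp.2.2.2⟩
      have h2 : (nonleaves T - 2) * L.card + (nonleaves T - 2) * K.card +
          (γ - 1) * (univ \ K).card ≤
          2 * (nonleaves T - 2) * L.card + (γ - 1) * (univ \ L).card := by
        have h6 : nonleaves T - 2 ≤ γ - 1 := by omega
        obtain ⟨q, hq⟩ : ∃ q, K.card = L.card + q := ⟨K.card - L.card, by omega⟩
        have h7 : (univ \ L).card = q + (univ \ K).card := by omega
        rw [hq, h7]
        calc (nonleaves T - 2) * L.card + (nonleaves T - 2) * (L.card + q) +
              (γ - 1) * (univ \ K).card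
            = 2 * (nonleaves T - 2) * L.card +
              ((nonleaves T - 2) * q + (γ - 1) * (univ \ K).card) := by ring
          _ ≤ 2 * (nonleaves T - 2) * L.card + ((γ - 1) * q + (γ - 1) * (univ \ K).card) := by
              have := Nat.mul_le_mul_right q h6
              omega
          _ = _ := by ring
      omega)
    have hC : ∀ u ∈ N, ∀ v ∈ N, T.Adj u v → ∀ x ∈ (if u ∈ A then U else Y),
        N.card ≤ (G.neighborFinset x ∩ (if v ∈ A then U else Y)).card + 1 := by
      intro u _ v _ huv x hx
      by_cases huA : u ∈ A
      · have hvA : v ∉ A := (hA u v huv).mp huA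
        rw [if_pos huA] at hx
        rw [if_neg hvA]
        have h1 := hUd x hx
        have h2 : (Y.filter fun y => G.Adj x y) ⊆ G.neighborFinset x ∩ Y := by
          intro z hz
          rw [Finset.mem_filter] at hz
          rw [Finset.mem_inter, SimpleGraph.mem_neighborFinset]
          exact ⟨hz.2, hz.1⟩
        have h3 := Finset.card_le_card h2
        omega
      · have hvA : v ∈ A := by
          by_contra h
          exact huA ((hA u v huv).mpr h)
        rw [if_neg huA] at hx
        rw [if_pos hvA]
        have h1 := hYd x hx
        have h2 : (U.filter fun y => G.Adj y x) ⊆ G.neighborFinset x ∩ U := by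
          intro z hz
          rw [Finset.mem_filter] at hz
          rw [Finset.mem_inter, SimpleGraph.mem_neighborFinset]
          exact ⟨hz.2.symm, hz.1⟩
        have h3 := Finset.card_le_card h2
        omega
    obtain ⟨y, hy⟩ := hYne
    have hrA := (mem_Bp.mp hr).1
    obtain ⟨g, hg1, hg2, hg3⟩ := greedy_aux hT hr2 hN (fun v => if v ∈ A then U else Y) hC
      (N \ {r}).card {r} (fun _ => y) rfl
      (by
        intro a ha
        rw [Finset.mem_singleton] at ha
        rw [ha]
        exact hrN)
      (Finset.mem_singleton_self r)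
      (by
        intro v hv hvr
        rw [Finset.mem_singleton] at hv
        exact absurd hv hvr)
      (by
        intro a ha b hb _
        rw [Finset.coe_singleton, Set.mem_singleton_iff] at ha hb
        rw [ha, hb])
      (by
        intro u hu v hv huv
        rw [Finset.mem_singleton] at hu hv
        rw [hu, hv] at huv
        exact absurd huv (T.loopless.irrefl _))
      (by
        intro v hv
        rw [Finset.mem_singleton] at hv
        rw [hv, if_neg hrA]
        exact hy)
    exact ⟨U, Y, g, hU, hY, hg1, hg2, hg3⟩

end Pool.Agent.LKC
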