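import Pool.Agent.LKC.Conv

/-!
# The Komlós–Sós conjecture for caterpillars, lobsters and leafy trees: proofs (helper60)
-/

set_option autoImplicit false
set_option linter.unusedSectionVars false

namespace Pool.Agent.LKC

open Finset
open scoped Classical

/-- The number of vertices of degree at least `k`. -/
noncomputable def big {V : Type} [Fintype V] (G : SimpleGraph V) (k : ℕ) : ℕ :=
  (Finset.univ.filter fun v : V => k ≤ G.degree v).card

/-- `A` is one of the two colour classes of the bipartite graph `T`. -/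
def IsColourClass {W : Type} (T : SimpleGraph W) (A : Finset W) : Prop :=
  ∀ a b : W, T.Adj a b → (a ∈ A ↔ b ∉ A)

/-- `G` contains `T`. -/
def Contains {V W : Type} (G : SimpleGraph V) (T : SimpleGraph W) : Prop :=
  ∃ f : W → V, Function.Injective f ∧ ∀ a b, T.Adj a b → G.Adj (f a) (f b)

/-- All vertices with property `S` lie on one path of `T`. -/
def OnPath {W : Type} (T : SimpleGraph W) (S : W → Prop) : Prop :=
  ∃ (x y : W) (p : T.Walk x y), p.IsPath ∧ ∀ z, S z → z ∈ p.support

/-- There is a path of `T` such that every non-leaf lies on it or is adjacent to one of its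
vertices. For a tree `T` this says that `T` is a lobster. -/
def Lobster {W : Type} [Fintype W] (T : SimpleGraph W) : Prop :=
  ∃ (x y : W) (p : T.Walk x y), p.IsPath ∧
    ∀ z, 2 ≤ T.degree z → z ∈ p.support ∨ ∃ u ∈ p.support, T.Adj z u

section

variable {V W : Type} [Fintype V] [Fintype W] {G : SimpleGraph V} {T : SimpleGraph W}

theorem half_of_le {k : ℕ} {r : ℝ} (hr : 1 / 2 ≤ r) (hL : r * Fintype.card V ≤ big G k) :
    Fintype.card V ≤ 2 * big G k := by
  have h1 : (0 : ℝ) ≤ Fintype.card V := Nat.cast_nonneg _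
  have h2 : (Fintype.card V : ℝ) ≤ ((2 * big G k : ℕ) : ℝ) := by
    push_cast
    nlinarith
  exact_mod_cast h2

/-- The data used in all proofs. -/
theorem setup (G : SimpleGraph V) {k : ℕ} {r : ℝ} [Nonempty V] (hr : 0 < r)
    (hL : r * Fintype.card V ≤ big G k) :
    ∃ L : Finset V, (∀ x ∈ L, k ≤ G.degree x) ∧ L.Nonempty ∧
      r * Fintype.card V ≤ L.card ∧ L.card ≤ Fintype.card V ∧
      (univ \ L).card = Fintype.card V - L.card := by
  refine ⟨univ.filter fun v : V => k ≤ G.degree v, ?_, ?_, hL, Finset.card_le_univ _, ?_⟩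
  · intro x hx
    exact (Finset.mem_filter.mp hx).2
  · rw [← Finset.card_pos]
    have h1 : (0 : ℝ) < Fintype.card V := by exact_mod_cast Fintype.card_pos
    have h2 : (0 : ℝ) < big G k := lt_of_lt_of_le (mul_pos hr h1) hL
    exact_mod_cast h2
  · rw [Finset.card_univ_sdiff]

theorem path_case [Nonempty V] {k : ℕ} {r : ℝ} (hr : 0 < r)
    (hL : r * Fintype.card V ≤ big G k) (hT : T.IsTree) (hW : Fintype.card W = k + 1)
    {A : Finset W} (hA : IsColourClass T A)
    (hpath : ∃ (a b : W) (p : T.Walk a b), p.IsPath ∧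
      ∀ z, z ∉ A → 2 ≤ T.degree z → z ∈ p.support)
    (h : ((nonleaves T : ℝ) - 2) * r + ((A.card : ℝ) - 1) * (1 - r) < k * r ∨
      ((A.card : ℝ) - 1) * (1 + r) < r * (k + 1)) : Contains G T := by
  obtain ⟨L, hLd, hne, hLr, hLn, hS⟩ := setup G hr hL
  rcases Nat.lt_or_ge (nonleaves T) 2 with ht | ht
  · exact star_embeds hT hW (by omega) L hLd hne
  · have hB := Bp_nonempty hT hA ht
    have hAne := A_nonempty hT hA ht
    have ha : 1 ≤ A.card := Finset.card_pos.mpr hAne
    have h1 : ((nonleaves T : ℝ) - 2) * r + ((A.card : ℝ) - 1) * (1 - r) < k * r := by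
      rcases h with h | h
      · exact h
      · have h2 : ((nonleaves T + 1 : ℕ) : ℝ) ≤ ((2 * A.card : ℕ) : ℝ) := by
          exact_mod_cast nonleaves_lt hT hA hB
        push_cast at h2
        nlinarith
    apply main_cat hT hW hA hpath L hLd hne
    rw [hS]
    apply real_conv hr hLr (Finset.card_pos.mpr hne) hLn
    rw [Nat.cast_sub ht, Nat.cast_sub ha]
    push_cast
    exact h1

theorem lob_case [Nonempty V] {k : ℕ} {r : ℝ} (hr : 0 < r)
    (hL : r * Fintype.card V ≤ big G k) (hT : T.IsTree) (hW : Fintype.card W = k + 1)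
    {A : Finset W} (hA : IsColourClass T A)
    (hpath : ∃ (a b : W) (p : T.Walk a b), p.IsPath ∧
      ∀ z, 2 ≤ T.degree z → z ∈ p.support ∨ ∃ u ∈ p.support, T.Adj z u)
    (h : ((nonleaves T : ℝ) - 2) * r + ((A.card : ℝ) + bare T A - 1) * (1 - r) < k * r) :
    Contains G T := by
  obtain ⟨L, hLd, hne, hLr, hLn, hS⟩ := setup G hr hL
  rcases Nat.lt_or_ge (nonleaves T) 2 with ht | ht
  · exact star_embeds hT hW (by omega) L hLd hne
  · have hAne := A_nonempty hT hA ht
    have ha : 1 ≤ A.card + bare T A := by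
      have := Finset.card_pos.mpr hAne
      omega
    apply main_lob hT hW hA hpath L hLd hne
    rw [hS]
    apply real_conv hr hLr (Finset.card_pos.mpr hne) hLn
    rw [Nat.cast_sub ht, Nat.cast_sub ha]
    push_cast
    exact h

theorem gen_case [Nonempty V] {k : ℕ} {r : ℝ} (hr : 0 < r)
    (hL : r * Fintype.card V ≤ big G k) (hT : T.IsTree) (hW : Fintype.card W = k + 1)
    {A : Finset W} (hA : IsColourClass T A)
    (h : 2 * ((nonleaves T : ℝ) - 2) * r + ((A.card : ℝ) + bare T A - 1) * (1 - r) < k * r ∨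
      (2 * ((nonleaves T : ℝ) - 2) + ((Bp T A).card - 1)) * r +
        ((A.card : ℝ) - 1) * (1 - r) < k * r ∨
      ((A.card : ℝ) - 1) * (1 + 4 * r) < r * (k + 3)) : Contains G T := by
  obtain ⟨L, hLd, hne, hLr, hLn, hS⟩ := setup G hr hL
  rcases Nat.lt_or_ge (nonleaves T) 2 with ht | ht
  · exact star_embeds hT hW (by omega) L hLd hne
  · have hB := Bp_nonempty hT hA ht
    have hAne := A_nonempty hT hA ht
    have ha : 1 ≤ A.card := Finset.card_pos.mpr hAne
    have hb : 1 ≤ (Bp T A).card := Finset.card_pos.mpr hB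
    have h' : 2 * ((nonleaves T : ℝ) - 2) * r +
        ((A.card : ℝ) + bare T A - 1) * (1 - r) < k * r ∨
      (2 * ((nonleaves T : ℝ) - 2) + ((Bp T A).card - 1)) * r +
        ((A.card : ℝ) - 1) * (1 - r) < k * r := by
      rcases h with h | h | h
      · exact Or.inl h
      · exact Or.inr h
      · right
        have h2 : ((nonleaves T + 1 : ℕ) : ℝ) ≤ ((2 * A.card : ℕ) : ℝ) := by
          exact_mod_cast nonleaves_lt hT hA hB
        have h3 : (((Bp T A).card + 1 : ℕ) : ℝ) ≤ (A.card : ℝ) := by
          exact_mod_cast Bp_lt hT hA hB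
        push_cast at h2 h3
        nlinarith
    rcases h' with h | h
    · apply main_gen hT hW hA L hLd hne
      rw [hS]
      apply real_conv hr hLr (Finset.card_pos.mpr hne) hLn
      rw [Nat.cast_sub (by omega), Nat.cast_mul, Nat.cast_sub ht]
      push_cast
      exact h
    · apply main_sep hT hW hA L hLd hne
      rw [hS]
      apply real_conv hr hLr (Finset.card_pos.mpr hne) hLn
      rw [Nat.cast_sub ha, Nat.cast_add, Nat.cast_mul, Nat.cast_sub ht, Nat.cast_sub hb]
      push_cast
      exact h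

/-- Caterpillars. -/
theorem cat_half [Nonempty V] {k : ℕ} (hL : Fintype.card V ≤ 2 * big G k) (hT : T.IsTree)
    (hW : Fintype.card W = k + 1)
    (hpath : ∃ (a b : W) (p : T.Walk a b), p.IsPath ∧ ∀ z, 2 ≤ T.degree z → z ∈ p.support)
    (ht : 2 * nonleaves T ≤ k + 4) : Contains G T := by
  have hL' : (1 / 2 : ℝ) * Fintype.card V ≤ big G k := by
    have : (Fintype.card V : ℝ) ≤ ((2 * big G k : ℕ) : ℝ) := by exact_mod_cast hL
    push_cast at this
    linarith
  have key : ∀ A : Finset W, IsColourClass T A → A.card + nonleaves T ≤ k + 2 →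
      Contains G T := by
    intro A hA hle
    obtain ⟨a, b, p, hp, hall⟩ := hpath
    apply path_case (r := 1 / 2) (by norm_num) hL' hT hW hA
      ⟨a, b, p, hp, fun z _ hz => hall z hz⟩
    left
    have h1 : ((A.card + nonleaves T : ℕ) : ℝ) ≤ ((k + 2 : ℕ) : ℝ) := by exact_mod_cast hle
    push_cast at h1
    linarith
  obtain ⟨A, hA, hA'⟩ := exists_classes hT
  have hc : A.card + Aᶜ.card = k + 1 := by rw [Finset.card_add_card_compl, hW]
  rcases Nat.lt_or_ge (k + 2) (A.card + nonleaves T) with h | h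
  · exact key Aᶜ hA' (by omega)
  · exact key A hA h

/-- Lobsters. -/
theorem lob_half [Nonempty V] {k : ℕ} (hL : Fintype.card V ≤ 2 * big G k) (hT : T.IsTree)
    (hW : Fintype.card W = k + 1)
    (hpath : ∃ (a b : W) (p : T.Walk a b), p.IsPath ∧
      ∀ z, 2 ≤ T.degree z → z ∈ p.support ∨ ∃ u ∈ p.support, T.Adj z u)
    (ht : 2 * nonleaves T + bare T ∅ ≤ k + 4) : Contains G T := by
  have hL' : (1 / 2 : ℝ) * Fintype.card V ≤ big G k := by
    have : (Fintype.card V : ℝ) ≤ ((2 * big G k : ℕ) : ℝ) := by exact_mod_cast hL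
    push_cast at this
    linarith
  have key : ∀ A : Finset W, IsColourClass T A → A.card + bare T A + nonleaves T ≤ k + 2 →
      Contains G T := by
    intro A hA hle
    apply lob_case (r := 1 / 2) (by norm_num) hL' hT hW hA hpath
    have h1 : ((A.card + bare T A + nonleaves T : ℕ) : ℝ) ≤ ((k + 2 : ℕ) : ℝ) := by
      exact_mod_cast hle
    push_cast at h1
    linarith
  obtain ⟨A, hA, hA'⟩ := exists_classes hT
  have hc : A.card + Aᶜ.card = k + 1 := by rw [Finset.card_add_card_compl, hW]
  have hb := bare_add T A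
  rcases Nat.lt_or_ge (k + 2) (A.card + bare T A + nonleaves T) with h | h
  · exact key Aᶜ hA' (by omega)
  · exact key A hA h

/-- General trees. -/
theorem gen_half [Nonempty V] {k : ℕ} (hL : Fintype.card V ≤ 2 * big G k) (hT : T.IsTree)
    (hW : Fintype.card W = k + 1)
    (ht : 4 * nonleaves T + bare T ∅ ≤ k + 8 ∨ 5 * nonleaves T ≤ k + 10) : Contains G T := by
  have hL' : (1 / 2 : ℝ) * Fintype.card V ≤ big G k := by
    have : (Fintype.card V : ℝ) ≤ ((2 * big G k : ℕ) : ℝ) := by exact_mod_cast hL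
    push_cast at this
    linarith
  have key : ∀ A : Finset W, IsColourClass T A →
      (A.card + bare T A + 2 * nonleaves T ≤ k + 4 ∨
        A.card + (Bp T A).card + 2 * nonleaves T ≤ k + 5) → Contains G T := by
    intro A hA hle
    apply gen_case (r := 1 / 2) (by norm_num) hL' hT hW hA
    rcases hle with hle | hle
    · left
      have h1 : ((A.card + bare T A + 2 * nonleaves T : ℕ) : ℝ) ≤ ((k + 4 : ℕ) : ℝ) := by
        exact_mod_cast hle
      push_cast at h1
      linarith
    · right; left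
      have h1 : ((A.card + (Bp T A).card + 2 * nonleaves T : ℕ) : ℝ) ≤ ((k + 5 : ℕ) : ℝ) := by
        exact_mod_cast hle
      push_cast at h1
      linarith
  obtain ⟨A, hA, hA'⟩ := exists_classes hT
  have hc : A.card + Aᶜ.card = k + 1 := by rw [Finset.card_add_card_compl, hW]
  rcases ht with ht | ht
  · have hb := bare_add T A
    rcases Nat.lt_or_ge (k + 4) (A.card + bare T A + 2 * nonleaves T) with h | h
    · exact key Aᶜ hA' (Or.inl (by omega))
    · exact key A hA (Or.inl h)
  · have hBp : (Bp T A).card + (Bp T Aᶜ).card = nonleaves T := by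
      have h1 := nonleaves_eq T A
      have h2 : (A.filter fun z => 2 ≤ T.degree z) = Bp T Aᶜ := by
        ext v
        rw [Finset.mem_filter, mem_Bp, Finset.mem_compl, not_not]
      rw [h2] at h1
      omega
    rcases Nat.lt_or_ge (k + 5) (A.card + (Bp T A).card + 2 * nonleaves T) with h | h
    · exact key Aᶜ hA' (Or.inr (by omega))
    · exact key A hA (Or.inr h)

theorem bare_zero (h : ∀ v, 2 ≤ T.degree v → ∃ z, T.Adj v z ∧ T.degree z = 1) :
    bare T (∅ : Finset W) = 0 := by
  unfold bare
  rw [Finset.card_eq_zero, Finset.filter_eq_empty_iff]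
  intro v _ hv
  obtain ⟨z, hz, hz1⟩ := h v hv.2.1
  have := hv.2.2 z hz
  omega

end

end Pool.Agent.LKC
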