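import Pool.Agent.LKC.Gen

/-!
# General trees: the non-leaves inside the large vertices, or a bipartite embedding (helper60)
-/

set_option autoImplicit false
set_option linter.unusedSectionVars false

namespace Pool.Agent.LKC

open Finset
open scoped Classical
open Pool.Agent.LKS (exists_closer closer_unique)

variable {V W : Type*} [Fintype V] [Fintype W]
variable {G : SimpleGraph V} {T : SimpleGraph W}

/-- Greedy embedding of a set of vertices which is closed under parents. -/
theorem greedy_gen (hT : T.IsTree) {r : W} {N : Finset W}
    (hN : ∀ v ∈ N, v ≠ r → ∀ u, T.Adj v u → T.dist r v = T.dist r u + 1 → u ∈ N)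
    (C : W → Finset V)
    (hC : ∀ (D : Finset W) (g : W → V), D ⊆ N → Set.InjOn g D → (∀ v ∈ D, g v ∈ C v) →
      ∀ u ∈ D, ∀ v ∈ N, v ∉ D → T.Adj u v → ∃ z ∈ G.neighborFinset (g u) ∩ C v,
        z ∉ D.image g) :
    ∀ (t : ℕ) (D : Finset W) (g : W → V), (N \ D).card = t → D ⊆ N → r ∈ D →
      (∀ v ∈ D, v ≠ r → ∀ u, T.Adj v u → T.dist r v = T.dist r u + 1 → u ∈ D) →
      Set.InjOn g D → (∀ u ∈ D, ∀ v ∈ D, T.Adj u v → G.Adj (g u) (g v)) →
      (∀ v ∈ D, g v ∈ C v) →
      ∃ f : W → V, Set.InjOn f N ∧ (∀ u ∈ N, ∀ v ∈ N, T.Adj u v → G.Adj (f u) (f v)) ∧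
        ∀ v ∈ N, f v ∈ C v := by
  intro t
  induction t with
  | zero =>
    intro D g hD hDN _ _ hinj hadj hgC
    have h1 : D = N := by
      apply Finset.Subset.antisymm hDN
      rw [← Finset.sdiff_eq_empty_iff_subset]
      exact Finset.card_eq_zero.mp hD
    subst h1
    exact ⟨g, hinj, hadj, hgC⟩
  | succ t ih =>
    intro D g hD hDN hrD hcl hinj hadj hgC
    have hne : (N \ D).Nonempty := by
      rw [← Finset.card_pos]
      omega
    obtain ⟨v, hv, hvmin⟩ := Finset.exists_min_image (N \ D) (fun v => T.dist r v) hne
    rw [Finset.mem_sdiff] at hv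
    have hvr : v ≠ r := fun h => hv.2 (h ▸ hrD)
    obtain ⟨u, hvu, hd⟩ := exists_closer hT r hvr
    have huN : u ∈ N := hN v hv.1 hvr u hvu hd
    have huD : u ∈ D := by
      by_contra h
      have := hvmin u (Finset.mem_sdiff.mpr ⟨huN, h⟩)
      omega
    obtain ⟨z, hz, hzD⟩ := hC D g hDN hinj hgC u huD v hv.1 hv.2 hvu.symm
    rw [Finset.mem_inter, SimpleGraph.mem_neighborFinset] at hz
    have hupd : ∀ a ∈ D, Function.update g v z a = g a := by
      intro a ha
      apply Function.update_of_ne
      rintro rfl
      exact hv.2 ha
    have hupv : Function.update g v z v = z := Function.update_self _ _ _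
    have honly : ∀ a ∈ D, T.Adj v a → a = u := by
      intro a ha hva
      rcases hT.dist_eq_dist_add_one_of_adj r hva with h | h
      · exact closer_unique hT r hva hvu h hd
      · exfalso
        have har : a ≠ r := by
          rintro rfl
          rw [SimpleGraph.dist_self] at h
          omega
        exact hv.2 (hcl a ha har v hva.symm h)
    apply ih (insert v D) (Function.update g v z)
    · have h1 : N \ insert v D = (N \ D).erase v := by
        ext a
        simp only [Finset.mem_sdiff, Finset.mem_insert, Finset.mem_erase, not_or]
        tauto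
      rw [h1, Finset.card_erase_of_mem (Finset.mem_sdiff.mpr hv), hD]
      omega
    · intro a ha
      rcases Finset.mem_insert.mp ha with rfl | ha
      · exact hv.1
      · exact hDN ha
    · exact Finset.mem_insert_of_mem hrD
    · intro a ha har b hab hdab
      rcases Finset.mem_insert.mp ha with rfl | ha'
      · rw [closer_unique hT r hab hvu hdab hd]
        exact Finset.mem_insert_of_mem huD
      · exact Finset.mem_insert_of_mem (hcl a ha' har b hab hdab)
    · intro a ha b hb hab
      rcases Finset.mem_insert.mp (Finset.mem_coe.mp ha) with rfl | ha' <;>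
        rcases Finset.mem_insert.mp (Finset.mem_coe.mp hb) with rfl | hb'
      · rfl
      · exfalso
        rw [hupv, hupd b hb'] at hab
        exact hzD (hab ▸ Finset.mem_image_of_mem g hb')
      · exfalso
        rw [hupv, hupd a ha'] at hab
        exact hzD (hab ▸ Finset.mem_image_of_mem g ha')
      · rw [hupd a ha', hupd b hb'] at hab
        exact hinj ha' hb' hab
    · intro a ha b hb hab
      rcases Finset.mem_insert.mp ha with rfl | ha' <;>
        rcases Finset.mem_insert.mp hb with rfl | hb'
      · exact absurd hab (T.loopless.irrefl _)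
      · rw [hupv, hupd b hb', honly b hb' hab]
        exact hz.1.symm
      · rw [hupv, hupd a ha', honly a ha' hab.symm]
        exact hz.1
      · rw [hupd a ha', hupd b hb']
        exact hadj a ha' b hb' hab
    · intro a ha
      rcases Finset.mem_insert.mp ha with rfl | ha'
      · rw [hupv]
        exact hz.2
      · rw [hupd a ha']
        exact hgC a ha'

theorem prs_univ (L : Finset V) {k : ℕ} (hL : ∀ x ∈ L, k ≤ G.degree x) :
    k * L.card ≤ prs (fun x y => G.Adj x y) L L + prs (fun x y => G.Adj x y) L (univ \ L) := by
  refine (card_Pr G L hL).trans ?_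
  unfold prs
  refine le_trans ?_ (Finset.card_union_le _ _)
  apply Finset.card_le_card
  intro p hp
  rw [Finset.mem_filter] at hp
  rw [Finset.mem_union, Finset.mem_filter, Finset.mem_filter, Finset.mem_product,
    Finset.mem_product, Finset.mem_sdiff]
  by_cases h : p.2 ∈ L
  · exact Or.inl ⟨⟨hp.2.1, h⟩, hp.2.2⟩
  · exact Or.inr ⟨⟨hp.2.1, Finset.mem_univ _, h⟩, hp.2.2⟩

/-- The second embedding theorem for general trees. -/
theorem main_sep (hT : T.IsTree) {k : ℕ} (hW : Fintype.card W = k + 1) {A : Finset W}
    (hA : ∀ a b, T.Adj a b → (a ∈ A ↔ b ∉ A))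
    (L : Finset V) (hL : ∀ x ∈ L, k ≤ G.degree x) (hne : L.Nonempty)
    (hcount : (2 * (nonleaves T - 2) + ((Bp T A).card - 1)) * L.card +
      (A.card - 1) * (univ \ L).card < k * L.card) :
    ∃ f : W → V, Function.Injective f ∧ ∀ u v, T.Adj u v → G.Adj (f u) (f v) := by
  by_cases hB : (Bp T A).Nonempty
  swap
  · refine star_case hT hW hA hB L hL hne ?_
    refine lt_of_le_of_lt (Nat.add_le_add (Nat.mul_le_mul_right _ ?_) le_rfl) hcount
    omega
  obtain ⟨r, hr⟩ := id hB
  have hr2 := (mem_Bp.mp hr).2
  have hrA := (mem_Bp.mp hr).1
  have hPr := prs_univ (G := G) L hL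
  by_cases hcase : 2 * (nonleaves T - 2) * L.card < prs (fun x y => G.Adj x y) L L
  · -- the non-leaves fit into `L`
    set N : Finset W := univ.filter fun v => 2 ≤ T.degree v with hNdef
    have hN : ∀ v, v ∈ N ↔ 2 ≤ T.degree v := by
      intro v
      rw [hNdef, Finset.mem_filter]
      simp
    have hNcard : N.card = nonleaves T := rfl
    have hrN : r ∈ N := (hN r).mpr hr2
    obtain ⟨U, Y, hU, hY, hUne, hYne, hUd, hYd⟩ := prune (fun x y => G.Adj x y)
      (nonleaves T - 2) (nonleaves T - 2) _ L L rfl (by
        have : (nonleaves T - 2) * L.card + (nonleaves T - 2) * L.card =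
          2 * (nonleaves T - 2) * L.card := by ring
        omega)
    have hC : ∀ u ∈ N, ∀ v ∈ N, T.Adj u v → ∀ x ∈ (if u ∈ A then U else Y),
        N.card ≤ (G.neighborFinset x ∩ (if v ∈ A then U else Y)).card + 1 := by
      intro u _ v _ huv x hx
      by_cases huA : u ∈ A
      · have hvA : v ∉ A := (hA u v huv).mp huA
        rw [if_pos huA] at hx
        rw [if_neg hvA]
        have h1 := hUd x hx
        have h2 : (Y.filter fun y => G.Adj x y) ⊆ G.neighborFinset x ∩ Y := by
          intro z hz
          rw [Finset.mem_filter] at hz
          rw [Finset.mem_inter, SimpleGraph.mem_neighborFinset]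
          exact ⟨hz.2, hz.1⟩
        have h3 := Finset.card_le_card h2
        omega
      · have hvA : v ∈ A := by
          by_contra h
          exact huA ((hA u v huv).mpr h)
        rw [if_neg huA] at hx
        rw [if_pos hvA]
        have h1 := hYd x hx
        have h2 : (U.filter fun y => G.Adj y x) ⊆ G.neighborFinset x ∩ U := by
          intro z hz
          rw [Finset.mem_filter] at hz
          rw [Finset.mem_inter, SimpleGraph.mem_neighborFinset]
          exact ⟨hz.2.symm, hz.1⟩
        have h3 := Finset.card_le_card h2
        omega
    obtain ⟨y, hy⟩ := hYne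
    obtain ⟨g, hg1, hg2, hg3⟩ := greedy_aux hT hr2 hN (fun v => if v ∈ A then U else Y) hC
      (N \ {r}).card {r} (fun _ => y) rfl
      (by
        intro a ha
        rw [Finset.mem_singleton] at ha
        rw [ha]
        exact hrN)
      (Finset.mem_singleton_self r)
      (by
        intro v hv hvr
        rw [Finset.mem_singleton] at hv
        exact absurd hv hvr)
      (by
        intro a ha b hb _
        rw [Finset.coe_singleton, Set.mem_singleton_iff] at ha hb
        rw [ha, hb])
      (by
        intro u hu v hv huv
        rw [Finset.mem_singleton] at hu hv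
        rw [hu, hv] at huv
        exact absurd huv (T.loopless.irrefl _))
      (by
        intro v hv
        rw [Finset.mem_singleton] at hv
        rw [hv, if_neg hrA]
        exact hy)
    apply finish hT hW hA hB L hL (g := g)
    · intro a ha b hb hab
      exact hg1 ((hN a).mpr ha) ((hN b).mpr hb) hab
    · intro u v hu hv huv
      exact hg2 u ((hN u).mpr hu) v ((hN v).mpr hv) huv
    · intro z hz hzd
      have := hg3 z ((hN z).mpr hzd)
      rw [if_pos hz] at this
      exact hU this
    · intro b hb
      have h1 := hg3 b ((hN b).mpr (mem_Bp.mp hb).2)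
      rw [if_neg (mem_Bp.mp hb).1] at h1
      exact Or.inl (hY h1)
  · -- a bipartite embedding
    set N : Finset W := A ∪ Bp T A with hNdef
    have hrN : r ∈ N := Finset.mem_union_right _ hr
    have hNcl : ∀ v ∈ N, v ≠ r → ∀ u, T.Adj v u → T.dist r v = T.dist r u + 1 → u ∈ N := by
      intro v hv hvr u hvu hd
      by_cases hvA : v ∈ A
      · obtain ⟨b, hb, hvb, hdb⟩ := parent_A hA hT hr hvA
        rw [closer_unique hT r hvu hvb hd hdb]
        exact Finset.mem_union_right _ hb
      · apply Finset.mem_union_left
        by_contra h
        exact hvA ((hA v u hvu).mpr h)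
    obtain ⟨U, Y, hU, hY, hUne, hYne, hUd, hYd⟩ := prune (fun x y => G.Adj x y)
      ((Bp T A).card - 1) (A.card - 1) _ L (univ \ L) rfl (by
        have h1 : (2 * (nonleaves T - 2) + ((Bp T A).card - 1)) * L.card =
          2 * (nonleaves T - 2) * L.card + ((Bp T A).card - 1) * L.card := by ring
        omega)
    have hUY : ∀ x ∈ U, x ∉ Y := fun x hx hx' => (Finset.mem_sdiff.mp (hY hx')).2 (hU hx)
    obtain ⟨y, hy⟩ := hYne
    obtain ⟨g, hg1, hg2, hg3⟩ := greedy_gen (G := G) hT hNcl
      (fun v => if v ∈ A then U else Y)
      (by
        intro D g hDN hinj hgC u hu v hv hvD huv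
        by_cases huA : u ∈ A
        · have hvA : v ∉ A := (hA u v huv).mp huA
          have hvB : v ∈ Bp T A := by
            rcases Finset.mem_union.mp hv with h | h
            · exact absurd h hvA
            · exact h
          have hgu := hgC u hu
          simp only [if_pos huA] at hgu
          simp only [if_neg hvA]
          by_contra hcon
          push Not at hcon
          have h1 : (Y.filter fun y => G.Adj (g u) y) ⊆
              (((Bp T A).erase v).filter fun b => b ∈ D).image g := by
            intro z hz
            rw [Finset.mem_filter] at hz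
            have h2 := hcon z (by
              rw [Finset.mem_inter, SimpleGraph.mem_neighborFinset]
              exact ⟨hz.2, hz.1⟩)
            rw [Finset.mem_image] at h2
            obtain ⟨b, hb, hbz⟩ := h2
            rw [Finset.mem_image]
            refine ⟨b, ?_, hbz⟩
            rw [Finset.mem_filter, Finset.mem_erase]
            refine ⟨⟨?_, ?_⟩, hb⟩
            · rintro rfl
              exact hvD hb
            · rcases Finset.mem_union.mp (hDN hb) with h | h
              · exfalso
                have h3 := hgC b hb
                simp only [if_pos h] at h3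
                rw [hbz] at h3
                exact hUY z h3 hz.1
              · exact h
          have h3 := Finset.card_le_card h1
          have h4 : ((((Bp T A).erase v).filter fun b => b ∈ D).image g).card ≤
              (Bp T A).card - 1 := by
            refine Finset.card_image_le.trans ((Finset.card_filter_le _ _).trans ?_)
            rw [Finset.card_erase_of_mem hvB]
          have h5 := hUd (g u) hgu
          omega
        · have hvA : v ∈ A := by
            by_contra h
            exact huA ((hA u v huv).mpr h)
          have hgu := hgC u hu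
          simp only [if_neg huA] at hgu
          simp only [if_pos hvA]
          by_contra hcon
          push Not at hcon
          have h1 : (U.filter fun x => G.Adj x (g u)) ⊆
              ((A.erase v).filter fun b => b ∈ D).image g := by
            intro z hz
            rw [Finset.mem_filter] at hz
            have h2 := hcon z (by
              rw [Finset.mem_inter, SimpleGraph.mem_neighborFinset]
              exact ⟨hz.2.symm, hz.1⟩)
            rw [Finset.mem_image] at h2
            obtain ⟨b, hb, hbz⟩ := h2
            rw [Finset.mem_image]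
            refine ⟨b, ?_, hbz⟩
            rw [Finset.mem_filter, Finset.mem_erase]
            refine ⟨⟨?_, ?_⟩, hb⟩
            · rintro rfl
              exact hvD hb
            · by_contra h
              have h3 := hgC b hb
              simp only [if_neg h] at h3
              rw [hbz] at h3
              exact hUY z hz.1 h3
          have h3 := Finset.card_le_card h1
          have h4 : (((A.erase v).filter fun b => b ∈ D).image g).card ≤ A.card - 1 := by
            refine Finset.card_image_le.trans ((Finset.card_filter_le _ _).trans ?_)
            rw [Finset.card_erase_of_mem hvA]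
          have h5 := hYd (g u) hgu
          omega)
      (N \ {r}).card {r} (fun _ => y) rfl
      (by
        intro a ha
        rw [Finset.mem_singleton] at ha
        rw [ha]
        exact hrN)
      (Finset.mem_singleton_self r)
      (by
        intro v hv hvr
        rw [Finset.mem_singleton] at hv
        exact absurd hv hvr)
      (by
        intro a ha b hb _
        rw [Finset.coe_singleton, Set.mem_singleton_iff] at ha hb
        rw [ha, hb])
      (by
        intro u hu v hv huv
        rw [Finset.mem_singleton] at hu hv
        rw [hu, hv] at huv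
        exact absurd huv (T.loopless.irrefl _))
      (by
        intro v hv
        rw [Finset.mem_singleton] at hv
        rw [hv, if_neg hrA]
        exact hy)
    apply extend G T hW L hL _ N g rfl hg1 hg2
    intro v hv
    rw [hNdef, Finset.mem_union, not_or] at hv
    have hvd : ¬ 2 ≤ T.degree v := fun h => hv.2 (mem_Bp.mpr ⟨hv.1, h⟩)
    have hvr : v ≠ r := by
      rintro rfl
      exact hv.2 hr
    obtain ⟨u, huA, hvu, -, -⟩ := parent_B hA hT hr hv.1 hvr
    refine ⟨u, Finset.mem_union_left _ huA, ?_, fun z hz => leaf_nbr hvd hvu hz⟩
    have h1 := hg3 u (Finset.mem_union_left _ huA)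
    simp only [if_pos huA] at h1
    exact hU h1

end Pool.Agent.LKC
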