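import Pool.Agent.LKC.Arc

/-!
# The zigzag embedding of a caterpillar (helper60)

The blocks `0, …, m - 1` consist of a centre `w j`, a set `Lab j y` of neighbours of the centre
(which may depend on the place `y` of the centre) and a connecting vertex `c j`, adjacent to
`w j` and `w (j + 1)`.  The centres are placed anywhere, the other vertices in `L`.
-/

set_option autoImplicit false
set_option linter.unusedSectionVars false

namespace Pool.Agent.LKC

open Finset
open scoped Classical

theorem exists_inj {V W : Type*} (s : Finset W) (t : Finset V) (h : s.card ≤ t.card) (y : V) :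
    ∃ f : W → V, Set.InjOn f s ∧ ∀ z ∈ s, f z ∈ t := by
  obtain ⟨φ⟩ := Function.Embedding.nonempty_of_card_le (α := s) (β := t)
    (by rw [Fintype.card_coe, Fintype.card_coe]; exact h)
  refine ⟨fun z => if hz : z ∈ s then (φ ⟨z, hz⟩ : V) else y, ?_, ?_⟩
  · intro a ha b hb hab
    have ha' : a ∈ s := ha
    have hb' : b ∈ s := hb
    simp only [dif_pos ha', dif_pos hb'] at hab
    have := φ.injective (Subtype.ext hab)
    exact congrArg Subtype.val this
  · intro z hz
    simp only [dif_pos hz]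
    exact (φ ⟨z, hz⟩).2

section zig

variable {V W : Type*} [Fintype V] (n : ℕ) (e : V → ℕ) (G : SimpleGraph V) (L : Finset V)
  (w c : ℕ → W) (Lab : ℕ → V → Finset W) (m : ℕ)

/-- The pairs: an edge with its first vertex in `L`. -/
def Pr (x y : V) : Prop := x ∈ L ∧ G.Adj x y

/-- The labels of the blocks from `i` on. -/
def RR (i : ℕ) (g : W → V) : Set W :=
  {v | ∃ j, i ≤ j ∧ j < m ∧ (v = w j ∨ v ∈ Lab j (g (w j)) ∨ (v = c j ∧ j + 1 < m))}

/-- `g` embeds the blocks from `i` on. -/
structure Emb0 (i : ℕ) (y : V) (g : W → V) : Prop where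
  gw : g (w i) = y
  inj : Set.InjOn g (RR w c Lab m i g)
  lab : ∀ j, i ≤ j → j < m → ∀ z ∈ Lab j (g (w j)), g z ∈ L ∧ G.Adj (g z) (g (w j))
  cc : ∀ j, i ≤ j → j + 1 < m →
    g (c j) ∈ L ∧ G.Adj (g (c j)) (g (w j)) ∧ G.Adj (g (c j)) (g (w (j + 1)))

/-- The labels are distinct. -/
structure Lbl (ix : W → ℕ) : Prop where
  iw : ∀ j, j < m → ix (w j) = j
  ic : ∀ j, j + 1 < m → ix (c j) = j
  il : ∀ j, j < m → ∀ y, ∀ z ∈ Lab j y, ix z = j
  wc : ∀ j, j + 1 < m → w j ≠ c j
  wl : ∀ j, j < m → ∀ y, w j ∉ Lab j y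
  cl : ∀ j, j + 1 < m → ∀ y, c j ∉ Lab j y

/-- The pairs from which the blocks from `i` on can be embedded in the free arc. -/
def Good (i : ℕ) (x y : V) : Prop :=
  Pr G L x y ∧ ∃ g : W → V, Emb0 G L w c Lab m i y g ∧
    ∀ v ∈ RR w c Lab m i g, v ≠ w i → Fr n e x y (g v)

/-- The pairs `(x, y)` for which `y` can move to a good pair. -/
def Hop (i : ℕ) (x y : V) : Prop :=
  Pr G L x y ∧ ∃ y', Fr n e x y y' ∧ Good n e G L w c Lab m i x y'

variable {n e G L w c Lab m}

theorem emb_last {ix : W → ℕ} (hl : Lbl w c Lab m ix) {i : ℕ} (hi : i + 1 = m) {y : V}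
    {h : W → V} (hinj : Set.InjOn h (Lab i y)) (hh : ∀ z ∈ Lab i y, Pr G L (h z) y) :
    ∃ g : W → V, Emb0 G L w c Lab m i y g ∧
      ∀ v ∈ RR w c Lab m i g, v ≠ w i → ∃ z ∈ Lab i y, g v = h z := by
  refine ⟨fun v => if v = w i then y else h v, ?_, ?_⟩
  · have hRR : ∀ v ∈ RR w c Lab m i (fun v => if v = w i then y else h v),
        v = w i ∨ v ∈ Lab i y := by
      rintro v ⟨j, h1, h2, h3⟩
      have hj : j = i := by omega
      subst hj
      rcases h3 with h3 | h3 | h3
      · exact Or.inl h3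
      · right
        simpa using h3
      · omega
    have hne : ∀ z ∈ Lab i y, z ≠ w i := by
      rintro z hz rfl
      exact hl.wl i (by omega) y hz
    refine ⟨by simp, ?_, ?_, ?_⟩
    · intro a ha b hb hab
      rcases hRR a ha with ha | ha <;> rcases hRR b hb with hb | hb
      · rw [ha, hb]
      · exfalso
        simp only [if_pos ha, if_neg (hne b hb)] at hab
        have := (hh b hb).2
        rw [← hab] at this
        exact G.loopless.irrefl _ this
      · exfalso
        simp only [if_pos hb, if_neg (hne a ha)] at hab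
        have := (hh a ha).2
        rw [hab] at this
        exact G.loopless.irrefl _ this
      · simp only [if_neg (hne a ha), if_neg (hne b hb)] at hab
        exact hinj ha hb hab
    · intro j h1 h2 z hz
      have hj : j = i := by omega
      subst hj
      simp only [if_true] at hz ⊢
      rw [if_neg (hne z hz)]
      exact hh z hz
    · intro j h1 h2
      omega
  · rintro v ⟨j, h1, h2, h3⟩ hv
    have hj : j = i := by omega
    subst hj
    rcases h3 with h3 | h3 | h3
    · exact absurd h3 hv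
    · simp only [if_true] at h3
      exact ⟨v, h3, by simp [if_neg hv]⟩
    · omega

theorem emb_step (he : Function.Injective e) (hn : ∀ v, e v < n) {ix : W → ℕ}
    (hl : Lbl w c Lab m ix) {i : ℕ} (hi : i + 1 < m) {x' y : V}
    (hop : Hop n e G L w c Lab m (i + 1) x' y)
    {h : W → V} (hinj : Set.InjOn h (Lab i y))
    (hh : ∀ z ∈ Lab i y, Pr G L (h z) y ∧ rk n e y x' < rk n e y (h z)) :
    ∃ g : W → V, Emb0 G L w c Lab m i y g ∧
      ∀ v ∈ RR w c Lab m i g, v ≠ w i →
        (0 < rk n e y (g v) ∧ rk n e y (g v) ≤ rk n e y x') ∨ ∃ z ∈ Lab i y, g v = h z := by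
  obtain ⟨hx'y, y', hyy', hx'y', g', hg', hfr⟩ := hop
  have hne : x' ≠ y := hx'y.2.ne
  set g : W → V := fun v => if v = w i then y else if v = c i then x' else
    if v ∈ Lab i y then h v else g' v with hg
  have hrx : 0 < rk n e y x' := rk_pos he hn hne
  have gw : g (w i) = y := by simp [hg]
  have gc : g (c i) = x' := by
    have := (hl.wc i hi).symm
    simp [hg, this]
  have gl : ∀ z ∈ Lab i y, g z = h z := by
    intro z hz
    have h1 : z ≠ w i := fun h => hl.wl i (by omega) y (h ▸ hz)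
    have h2 : z ≠ c i := fun h => hl.cl i hi y (h ▸ hz)
    simp [hg, h1, h2, hz]
  have gix : ∀ v, i < ix v → g v = g' v := by
    intro v hv
    have h1 : v ≠ w i := by
      rintro rfl
      rw [hl.iw i (by omega)] at hv
      exact lt_irrefl _ hv
    have h2 : v ≠ c i := by
      rintro rfl
      rw [hl.ic i hi] at hv
      exact lt_irrefl _ hv
    have h3 : v ∉ Lab i y := by
      intro h3
      rw [hl.il i (by omega) y v h3] at hv
      exact lt_irrefl _ hv
    simp [hg, h1, h2, h3]
  have gwj : ∀ j, i < j → j < m → g (w j) = g' (w j) := by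
    intro j h1 h2
    apply gix
    rw [hl.iw j h2]
    exact h1
  have hRix : ∀ v ∈ RR w c Lab m (i + 1) g', i < ix v := by
    rintro v ⟨j, h1, h2, h3⟩
    rcases h3 with rfl | h3 | ⟨rfl, h3⟩
    · rw [hl.iw j h2]
      omega
    · rw [hl.il j h2 _ v h3]
      omega
    · rw [hl.ic j h3]
      omega
  have hRfr : ∀ v ∈ RR w c Lab m (i + 1) g',
      0 < rk n e y (g' v) ∧ rk n e y (g' v) < rk n e y x' := by
    intro v hv
    rw [← fr_iff he hn hne]
    by_cases hvw : v = w (i + 1)
    · rw [hvw, hg'.gw]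
      exact hyy'
    · exact fr_trans_right hyy' (hfr v hv hvw)
  have hRR : ∀ v ∈ RR w c Lab m i g,
      v = w i ∨ v = c i ∨ v ∈ Lab i y ∨ v ∈ RR w c Lab m (i + 1) g' := by
    rintro v ⟨j, h1, h2, h3⟩
    rcases Nat.eq_or_lt_of_le h1 with rfl | h1
    · rcases h3 with h3 | h3 | h3
      · exact Or.inl h3
      · rw [gw] at h3
        exact Or.inr (Or.inr (Or.inl h3))
      · exact Or.inr (Or.inl h3.1)
    · right; right; right
      rw [gwj j h1 h2] at h3
      exact ⟨j, h1, h2, h3⟩
  refine ⟨g, ⟨gw, ?_, ?_, ?_⟩, ?_⟩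
  · -- the four classes of vertices are separated by their distance from `y`
    intro a ha b hb hab
    have hcl : ∀ v ∈ RR w c Lab m i g,
        (v = w i ∧ rk n e y (g v) = 0) ∨ (v = c i ∧ rk n e y (g v) = rk n e y x') ∨
        (v ∈ Lab i y ∧ g v = h v ∧ rk n e y x' < rk n e y (g v)) ∨
        (v ∈ RR w c Lab m (i + 1) g' ∧ g v = g' v ∧ 0 < rk n e y (g v) ∧
          rk n e y (g v) < rk n e y x') := by
      intro v hv
      rcases hRR v hv with h1 | h1 | h1 | h1
      · left
        refine ⟨h1, ?_⟩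
        rw [h1, gw, rk_self]
      · right; left
        refine ⟨h1, ?_⟩
        rw [h1, gc]
      · right; right; left
        refine ⟨h1, gl v h1, ?_⟩
        rw [gl v h1]
        exact (hh v h1).2
      · right; right; right
        have h2 := gix v (hRix v h1)
        rw [h2]
        exact ⟨h1, rfl, hRfr v h1⟩
    have hr : rk n e y (g a) = rk n e y (g b) := by rw [hab]
    rcases hcl a ha with ⟨h1, h2⟩ | ⟨h1, h2⟩ | ⟨h1, h2, h3⟩ | ⟨h1, h2, h3, h4⟩ <;>
      rcases hcl b hb with ⟨k1, k2⟩ | ⟨k1, k2⟩ | ⟨k1, k2, k3⟩ | ⟨k1, k2, k3, k4⟩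
    · rw [h1, k1]
    · omega
    · omega
    · omega
    · omega
    · rw [h1, k1]
    · omega
    · omega
    · omega
    · omega
    · rw [h2, k2] at hab
      exact hinj h1 k1 hab
    · omega
    · omega
    · omega
    · omega
    · rw [h2, k2] at hab
      exact hg'.inj h1 k1 hab
  · intro j h1 h2 z hz
    rcases Nat.eq_or_lt_of_le h1 with rfl | h1
    · rw [gw] at hz ⊢
      rw [gl z hz]
      exact (hh z hz).1
    · rw [gwj j h1 h2] at hz ⊢
      rw [gix z (by rw [hl.il j h2 _ z hz]; exact h1)]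
      exact hg'.lab j h1 h2 z hz
  · intro j h1 h2
    rcases Nat.eq_or_lt_of_le h1 with rfl | h1
    · rw [gc, gw, gwj (i + 1) (by omega) h2, hg'.gw]
      exact ⟨hx'y.1, hx'y.2, hx'y'.2⟩
    · rw [gwj j h1 (by omega), gwj (j + 1) (by omega) h2, gix (c j) (by rw [hl.ic j h2]; exact h1)]
      exact hg'.cc j h1 h2
  · intro v hv hvw
    rcases hRR v hv with h1 | h1 | h1 | h1
    · exact absurd h1 hvw
    · left
      rw [h1, gc]
      exact ⟨hrx, le_refl _⟩
    · exact Or.inr ⟨v, h1, gl v h1⟩
    · left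
      rw [gix v (hRix v h1)]
      exact ⟨(hRfr v h1).1, (hRfr v h1).2.le⟩

theorem bad_good (he : Function.Injective e) (hn : ∀ v, e v < n) {ix : W → ℕ}
    (hl : Lbl w c Lab m ix) : ∀ t i, i + t + 1 = m →
      bad (Pr G L) (Good n e G L w c Lab m i) ≤
        t * L.card + ∑ y : V, ∑ j ∈ Finset.Ico i m, (Lab j y).card + t * Fintype.card V := by
  have hP : ∀ x y, Pr G L x y → x ≠ y := fun x y h => h.2.ne
  intro t
  induction t with
  | zero =>
    intro i hi
    have h1 : bad (Pr G L) (Good n e G L w c Lab m i) ≤ ∑ y : V, (Lab i y).card := by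
      apply del_end he hn hP
      intro x y hxy hc
      obtain ⟨h, hinj, hh⟩ := exists_inj _ _ hc y
      obtain ⟨g, hg, hg2⟩ := emb_last (G := G) (L := L) hl (by omega : i + 1 = m) hinj
        (fun z hz => (Finset.mem_filter.mp (hh z hz)).2.1)
      refine ⟨hxy, g, hg, ?_⟩
      intro v hv hvw
      obtain ⟨z, hz, hgz⟩ := hg2 v hv hvw
      rw [hgz]
      exact (Finset.mem_filter.mp (hh z hz)).2.2
    have h2 : ∑ y : V, ∑ j ∈ Finset.Ico i m, (Lab j y).card = ∑ y : V, (Lab i y).card := by
      apply Finset.sum_congr rfl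
      intro y _
      have h3 : Finset.Ico i m = {i} := by
        ext j
        rw [Finset.mem_Ico, Finset.mem_singleton]
        omega
      rw [h3, Finset.sum_singleton]
    rw [h2]
    omega
  | succ t ih =>
    intro i hi
    have h1 := ih (i + 1) (by omega)
    have h2 : bad (Pr G L) (Hop n e G L w c Lab m (i + 1)) ≤
        bad (Pr G L) (Good n e G L w c Lab m (i + 1)) + L.card := by
      apply del_right he hn (fun x y h => h.1) (fun x y h => h.1)
      intro x y y' hxy hfr hgood
      exact ⟨hxy, y', hfr, hgood⟩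
    have h3 : bad (Pr G L) (Good n e G L w c Lab m i) ≤
        bad (Pr G L) (Hop n e G L w c Lab m (i + 1)) + ∑ y : V, ((Lab i y).card + 1) := by
      apply del_left he hn hP (fun x y h => h.1)
      intro x y x' hxy hfr hhop hc
      obtain ⟨h, hinj, hh⟩ := exists_inj _ _ hc y
      obtain ⟨g, hg, hg2⟩ := emb_step he hn hl (by omega : i + 1 < m) hhop hinj
        (fun z hz => ⟨(Finset.mem_filter.mp (hh z hz)).2.1,
          (Finset.mem_filter.mp (hh z hz)).2.2.2⟩)
      refine ⟨hxy, g, hg, ?_⟩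
      intro v hv hvw
      have hne := hxy.2.ne
      rcases hg2 v hv hvw with h5 | ⟨z, hz, hgz⟩
      · rw [fr_iff he hn hne]
        rw [fr_iff he hn hne] at hfr
        exact ⟨h5.1, lt_of_le_of_lt h5.2 hfr.2⟩
      · rw [hgz]
        exact (Finset.mem_filter.mp (hh z hz)).2.2.1
    have h4 : ∑ y : V, ∑ j ∈ Finset.Ico i m, (Lab j y).card =
        ∑ y : V, (Lab i y).card + ∑ y : V, ∑ j ∈ Finset.Ico (i + 1) m, (Lab j y).card := by
      rw [← Finset.sum_add_distrib]
      apply Finset.sum_congr rfl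
      intro y _
      rw [Finset.sum_eq_sum_Ico_succ_bot (by omega : i < m)]
    have h5 : ∑ y : V, ((Lab i y).card + 1) = ∑ y : V, (Lab i y).card + Fintype.card V := by
      rw [Finset.sum_add_distrib]
      simp
    rw [h4]
    rw [h5] at h3
    have h6 : (t + 1) * L.card = t * L.card + L.card := by ring
    have h7 : (t + 1) * Fintype.card V = t * Fintype.card V + Fintype.card V := by ring
    rw [h6, h7]
    omega

/-- At least two blocks. -/
theorem exists_emb (he : Function.Injective e) (hn : ∀ v, e v < n) {ix : W → ℕ}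
    (hl : Lbl w c Lab m ix) (hm : 2 ≤ m)
    (h : (m - 1) * L.card + ∑ y : V, ∑ j ∈ Finset.range m, (Lab j y).card +
      (m - 2) * Fintype.card V < (univ.filter fun p : V × V => Pr G L p.1 p.2).card) :
    ∃ y g, Emb0 G L w c Lab m 0 y g := by
  have h1 := bad_good (G := G) (L := L) he hn hl (m - 2) 1 (by omega)
  have h2 : bad (Pr G L) (Hop n e G L w c Lab m 1) ≤
      bad (Pr G L) (Good n e G L w c Lab m 1) + L.card := by
    apply del_right he hn (fun x y h => h.1) (fun x y h => h.1)
    intro x y y' hxy hfr hgood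
    exact ⟨hxy, y', hfr, hgood⟩
  have h4 : ∑ y : V, ∑ j ∈ Finset.range m, (Lab j y).card =
      ∑ y : V, (Lab 0 y).card + ∑ y : V, ∑ j ∈ Finset.Ico 1 m, (Lab j y).card := by
    rw [← Finset.sum_add_distrib]
    apply Finset.sum_congr rfl
    intro y _
    rw [Finset.range_eq_Ico, Finset.sum_eq_sum_Ico_succ_bot (by omega : 0 < m)]
  have h6 : (m - 1) * L.card = (m - 2) * L.card + L.card := by
    have : m - 1 = (m - 2) + 1 := by omega
    rw [this]
    ring
  rw [h4, h6] at h
  obtain ⟨x, y, hhop, hc⟩ := exists_start (P := Pr G L) (Q := Hop n e G L w c Lab m 1) he hn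
    (fun x y h => h.1) (fun y => (Lab 0 y).card) (by omega)
  obtain ⟨h, hinj, hh⟩ := exists_inj _ _ hc y
  obtain ⟨g, hg, -⟩ := emb_step he hn hl (by omega : 0 + 1 < m) hhop hinj
    (fun z hz => ⟨(Finset.mem_filter.mp (hh z hz)).2.1,
      (Finset.mem_filter.mp (hh z hz)).2.2⟩)
  exact ⟨y, g, hg⟩

/-- One block. -/
theorem exists_emb_one {ix : W → ℕ} (hl : Lbl w c Lab m ix) (hm : m = 1) {y : V}
    (h : (Lab 0 y).card ≤ (univ.filter fun v => Pr G L v y).card) :
    ∃ g, Emb0 G L w c Lab m 0 y g := by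
  obtain ⟨h, hinj, hh⟩ := exists_inj _ _ h y
  obtain ⟨g, hg, -⟩ := emb_last (G := G) (L := L) hl (by omega : 0 + 1 = m) hinj
    (fun z hz => (Finset.mem_filter.mp (hh z hz)).2)
  exact ⟨g, hg⟩

end zig

end Pool.Agent.LKC
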