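import Pool.Agent.LKS.Tree
import Pool.Agent.LKC.Zig

/-!
# The structure of a tree whose non-leaves outside a colour class lie on a path (helper60)
-/

set_option autoImplicit false
set_option linter.unusedSectionVars false

namespace Pool.Agent.LKC

open Finset
open scoped Classical
open Pool.Agent.LKS (exists_closer closer_unique)

variable {W : Type*} {T : SimpleGraph W}

theorem length_eq_dist (hT : T.IsTree) {a b : W} {p : T.Walk a b} (hp : p.IsPath) :
    p.length = T.dist a b := by
  obtain ⟨q, hq, hql⟩ := (hT.connected a b).exists_path_of_dist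
  have h1 : (⟨p, hp⟩ : T.Path a b) = ⟨q, hq⟩ := (hT.isAcyclic.subsingleton_path a b).elim _ _
  have h2 : p = q := congrArg Subtype.val h1
  rw [h2, hql]

theorem dist_getVert (hT : T.IsTree) {a b : W} {p : T.Walk a b} (hp : p.IsPath) {i j : ℕ}
    (hij : i ≤ j) (hj : j ≤ p.length) : T.dist (p.getVert i) (p.getVert j) = j - i := by
  have h1 := ((hp.drop i).take (j - i))
  have h2 := length_eq_dist hT h1
  rw [SimpleGraph.Walk.take_length, SimpleGraph.Walk.drop_length,
    SimpleGraph.Walk.drop_getVert] at h2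
  have h3 : i + (j - i) = j := by omega
  rw [h3] at h2
  rw [← h2]
  omega

section

variable [Fintype W]

/-- The vertices outside `A` which are not leaves. -/
noncomputable def Bp (T : SimpleGraph W) (A : Finset W) : Finset W :=
  univ.filter fun b => b ∉ A ∧ 2 ≤ T.degree b

theorem mem_Bp {A : Finset W} {b : W} : b ∈ Bp T A ↔ b ∉ A ∧ 2 ≤ T.degree b := by
  simp [Bp]

theorem two_le_degree {b x y : W} (hx : T.Adj b x) (hy : T.Adj b y) (hxy : x ≠ y) :
    2 ≤ T.degree b := by
  rw [← SimpleGraph.card_neighborFinset_eq_degree]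
  have h2 : ({x, y} : Finset W) ⊆ T.neighborFinset b := by
    intro z hz
    rw [SimpleGraph.mem_neighborFinset]
    rcases Finset.mem_insert.mp hz with rfl | hz
    · exact hx
    · rw [Finset.mem_singleton.mp hz]
      exact hy
  calc 2 = ({x, y} : Finset W).card := (Finset.card_pair hxy).symm
    _ ≤ _ := Finset.card_le_card h2

/-- A root from which the non-leaves outside `A` have distinct distances. -/
theorem exists_root (hT : T.IsTree) {A : Finset W} (hne : (Bp T A).Nonempty)
    (hpath : ∃ (a b : W) (p : T.Walk a b), p.IsPath ∧ ∀ z, z ∉ A → 2 ≤ T.degree z →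
      z ∈ p.support) :
    ∃ r ∈ Bp T A, ∀ x ∈ Bp T A, ∀ y ∈ Bp T A, T.dist r x = T.dist r y → x = y := by
  obtain ⟨a, b, p, hp, hall⟩ := hpath
  have hidx : ∀ z ∈ Bp T A, ∃ i, p.getVert i = z ∧ i ≤ p.length := by
    intro z hz
    have h1 := hall z (mem_Bp.mp hz).1 (mem_Bp.mp hz).2
    exact SimpleGraph.Walk.mem_support_iff_exists_getVert.mp h1
  have hex : ∃ i, i ≤ p.length ∧ p.getVert i ∈ Bp T A := by
    obtain ⟨z, hz⟩ := hne
    obtain ⟨i, h1, h2⟩ := hidx z hz
    exact ⟨i, h2, h1 ▸ hz⟩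
  obtain ⟨h1, h2⟩ := Nat.find_spec hex
  refine ⟨p.getVert (Nat.find hex), h2, ?_⟩
  intro x hx y hy hxy
  obtain ⟨i, hi, hil⟩ := hidx x hx
  obtain ⟨j, hj, hjl⟩ := hidx y hy
  have hi0 : Nat.find hex ≤ i := Nat.find_min' hex ⟨hil, hi ▸ hx⟩
  have hj0 : Nat.find hex ≤ j := Nat.find_min' hex ⟨hjl, hj ▸ hy⟩
  rw [← hi, ← hj, dist_getVert hT hp hi0 hil, dist_getVert hT hp hj0 hjl] at hxy
  have h3 : i = j := by omega
  rw [← hi, ← hj, h3]

variable {A : Finset W} (hA : ∀ a b, T.Adj a b → (a ∈ A ↔ b ∉ A))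

include hA

theorem parity (hT : T.IsTree) {r : W} (hr : r ∉ A) :
    ∀ (d : ℕ) (v : W), T.dist r v = d → (v ∈ A ↔ d % 2 = 1) := by
  intro d
  induction d with
  | zero =>
    intro v hv
    have h1 : v = r := by
      by_contra h
      obtain ⟨z, -, hz⟩ := exists_closer hT r h
      omega
    subst h1
    simp [hr]
  | succ d ih =>
    intro v hv
    have hvr : v ≠ r := by
      rintro rfl
      rw [SimpleGraph.dist_self] at hv
      omega
    obtain ⟨z, hvz, hz⟩ := exists_closer hT r hvr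
    have h1 := ih z (by omega)
    have h2 := hA v z hvz
    rw [h2, h1]
    omega

/-- The parent of a vertex of `A` is a non-leaf outside `A`. -/
theorem parent_A (hT : T.IsTree) {r : W} (hr : r ∈ Bp T A) {z : W} (hz : z ∈ A) :
    ∃ b ∈ Bp T A, T.Adj z b ∧ T.dist r z = T.dist r b + 1 := by
  have hrA : r ∉ A := (mem_Bp.mp hr).1
  have hzr : z ≠ r := fun h => hrA (h ▸ hz)
  obtain ⟨b, hzb, hb⟩ := exists_closer hT r hzr
  refine ⟨b, ?_, hzb, hb⟩
  by_cases hbr : b = r
  · rw [hbr]
    exact hr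
  · obtain ⟨b', hbb', hb'⟩ := exists_closer hT r hbr
    rw [mem_Bp]
    refine ⟨(hA z b hzb).mp hz, two_le_degree hzb.symm hbb' ?_⟩
    rintro rfl
    omega

/-- The parent of a vertex outside `A`, other than the root, is in `A` and is not a leaf. -/
theorem parent_B (hT : T.IsTree) {r : W} (hr : r ∈ Bp T A) {v : W} (hv : v ∉ A) (hvr : v ≠ r) :
    ∃ u ∈ A, T.Adj v u ∧ T.dist r v = T.dist r u + 1 ∧ 2 ≤ T.degree u := by
  obtain ⟨u, hvu, hu⟩ := exists_closer hT r hvr
  have huA : u ∈ A := by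
    by_contra h
    exact hv ((hA v u hvu).mpr h)
  have hur : u ≠ r := fun h => (mem_Bp.mp hr).1 (h ▸ huA)
  obtain ⟨b, hub, hb⟩ := exists_closer hT r hur
  refine ⟨u, huA, hvu, hu, two_le_degree hvu.symm hub ?_⟩
  rintro rfl
  omega

omit hA in
/-- A finite set of natural numbers which is closed downwards. -/
theorem eq_range_card (S : Finset ℕ) (h : ∀ i, i + 1 ∈ S → i ∈ S) : S = range S.card := by
  have h1 : ∀ i j, j ≤ i → i ∈ S → j ∈ S := by
    intro i
    induction i with
    | zero =>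
      intro j hj hi
      have : j = 0 := by omega
      rw [this]
      exact hi
    | succ i ih =>
      intro j hj hi
      rcases Nat.eq_or_lt_of_le hj with rfl | hj
      · exact hi
      · exact ih j (by omega) (h i hi)
  have h2 : ∀ i ∈ S, i < S.card := by
    intro i hi
    have h3 : range (i + 1) ⊆ S := by
      intro j hj
      rw [Finset.mem_range] at hj
      exact h1 i j (by omega) hi
    have h4 := Finset.card_le_card h3
    rw [Finset.card_range] at h4
    omega
  apply Finset.eq_of_subset_of_card_le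
  · intro i hi
    rw [Finset.mem_range]
    exact h2 i hi
  · rw [Finset.card_range]

/-- The blocks. -/
theorem exists_blocks (hT : T.IsTree) {r : W} (hr : r ∈ Bp T A)
    (hD : ∀ x ∈ Bp T A, ∀ y ∈ Bp T A, T.dist r x = T.dist r y → x = y) :
    ∃ w c : ℕ → W,
      (∀ i, i < (Bp T A).card → w i ∈ Bp T A ∧ T.dist r (w i) = 2 * i) ∧
      (∀ b ∈ Bp T A, ∃ i, i < (Bp T A).card ∧ b = w i) ∧
      (∀ i, i + 1 < (Bp T A).card → c i ∈ A ∧ T.Adj (c i) (w i) ∧ T.Adj (c i) (w (i + 1)) ∧
        T.dist r (c i) = 2 * i + 1) := by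
  set m := (Bp T A).card with hm
  have hrA : r ∉ A := (mem_Bp.mp hr).1
  have heven : ∀ b ∈ Bp T A, T.dist r b = 2 * (T.dist r b / 2) := by
    intro b hb
    have h1 := parity hA hT hrA _ b rfl
    have h2 : ¬ (b ∈ A) := (mem_Bp.mp hb).1
    rw [h1] at h2
    omega
  set S : Finset ℕ := (Bp T A).image fun b => T.dist r b / 2 with hS
  have hScard : S.card = m := by
    rw [hS, hm]
    apply Finset.card_image_of_injOn
    intro x hx y hy hxy
    have hx' : x ∈ Bp T A := hx
    have hy' : y ∈ Bp T A := hy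
    apply hD x hx' y hy'
    simp only at hxy
    rw [heven x hx', heven y hy', hxy]
  have hdown : ∀ i, i + 1 ∈ S → i ∈ S := by
    intro i hi
    rw [hS, Finset.mem_image] at hi ⊢
    obtain ⟨b, hb, hbi⟩ := hi
    have h1 := heven b hb
    have hbr : b ≠ r := by
      rintro rfl
      rw [SimpleGraph.dist_self] at hbi
      omega
    obtain ⟨u, huA, -, hu, -⟩ := parent_B hA hT hr (mem_Bp.mp hb).1 hbr
    obtain ⟨b', hb', -, hb'd⟩ := parent_A hA hT hr huA
    refine ⟨b', hb', ?_⟩
    omega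
  have hSr : S = range m := by
    have := eq_range_card S hdown
    rw [hScard] at this
    exact this
  have hw : ∀ i, ∃ b, i < m → b ∈ Bp T A ∧ T.dist r b = 2 * i := by
    intro i
    by_cases hi : i < m
    · have h1 : i ∈ S := by
        rw [hSr, Finset.mem_range]
        exact hi
      rw [hS, Finset.mem_image] at h1
      obtain ⟨b, hb, hbi⟩ := h1
      refine ⟨b, fun _ => ⟨hb, ?_⟩⟩
      rw [heven b hb, hbi]
    · exact ⟨r, fun h => absurd h hi⟩
  choose w hw using hw
  have hbw : ∀ b ∈ Bp T A, T.dist r b / 2 < m ∧ b = w (T.dist r b / 2) := by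
    intro b hb
    have h1 : T.dist r b / 2 ∈ S := by
      rw [hS]
      exact Finset.mem_image_of_mem _ hb
    rw [hSr, Finset.mem_range] at h1
    refine ⟨h1, hD b hb _ (hw _ h1).1 ?_⟩
    rw [(hw _ h1).2]
    exact heven b hb
  have hc : ∀ i, ∃ c, i + 1 < m → c ∈ A ∧ T.Adj c (w i) ∧ T.Adj c (w (i + 1)) ∧
      T.dist r c = 2 * i + 1 := by
    intro i
    by_cases hi : i + 1 < m
    · obtain ⟨h1, h2⟩ := hw (i + 1) hi
      have hbr : w (i + 1) ≠ r := by
        intro h
        rw [h, SimpleGraph.dist_self] at h2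
        omega
      obtain ⟨u, huA, hadj, hu, -⟩ := parent_B hA hT hr (mem_Bp.mp h1).1 hbr
      obtain ⟨b', hb', hadj', hb'd⟩ := parent_A hA hT hr huA
      have h3 := hbw b' hb'
      have h4 : T.dist r b' / 2 = i := by omega
      rw [h4] at h3
      refine ⟨u, fun _ => ⟨huA, ?_, hadj.symm, by omega⟩⟩
      rw [← h3.2]
      exact hadj'
    · exact ⟨r, fun h => absurd h hi⟩
  choose c hc using hc
  exact ⟨w, c, hw, fun b hb => ⟨_, (hbw b hb).1, (hbw b hb).2⟩, hc⟩

end

end Pool.Agent.LKC
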